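import Pool.Agent.H76.PP.Ta
import Pool.Agent.H76.PP.Te
import Pool.Agent.H10.Q.Step

/-!
Definitions for the project MP_78d38b_P2 (theorem P+; no row).
-/

set_option autoImplicit false
set_option linter.unusedSectionVars false
open scoped Classical

open WithZero NumberField IsDedekindDomain H38RT
open H38T1 (SC sc scu rep eo la si Pri OddP tp unif)
open H76PP

namespace H73P2

section Local

variable {k : Type} [Field k] [NumberField k]

/-- Up to the change `a = c ^ 4 a'`, `b = c ^ 6 b'` the polynomial is integral at `u` and the order of its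
discriminant is at most one. -/
def NiceAt (u : HeightOneSpectrum (𝓞 k)) (a b : k) : Prop :=
  ∃ c a' b' : k, c ≠ 0 ∧ a = c ^ 4 * a' ∧ b = c ^ 6 * b' ∧ u.valuation k a' ≤ 1 ∧
    u.valuation k b' ≤ 1 ∧ exp (-1 : ℤ) ≤ u.valuation k (4 * a' ^ 3 + 27 * b' ^ 2)

/-- Up to the change `a = c ^ 4 a'`, `b = c ^ 6 b'` the polynomial is integral at `u` and has no root
modulo `u`. -/
def NoRootAt (u : HeightOneSpectrum (𝓞 k)) (a b : k) : Prop :=
  ∃ c a' b' : k, c ≠ 0 ∧ a = c ^ 4 * a' ∧ b = c ^ 6 * b' ∧ u.valuation k a' ≤ 1 ∧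
    u.valuation k b' ≤ 1 ∧ ∀ t : k, u.valuation k t ≤ 1 → u.valuation k (t ^ 3 + a' * t + b') = 1

end Local

/-- The local condition at a place `v` of `K` for an extension `k` of `K`: the local condition for all
embeddings of `k` into `K_v` over `K`. -/
def LCv (K : Type) {k : Type} [Field K] [NumberField K] [Field k] [Algebra K k]
    (v : HeightOneSpectrum (𝓞 K)) (a b : K) (d : Fin 3 → k) : Prop :=
  ∀ j : k →+* v.adicCompletion K,
    (∀ x : K, j (algebraMap K k x) = algebraMap K (v.adicCompletion K) x) →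
    LC j (algebraMap K k a) (algebraMap K k b) d

section Rel

variable (K k L : Type) [Field K] [NumberField K] [Field k] [NumberField k] [Field L] [NumberField L]
  [Algebra K k] [Algebra k L]

/-- The relaxed Selmer condition: square norm, even orders away from `S`, the local conditions at
the places of `S` and at the real places. -/
structure Rel (S : Finset (HeightOneSpectrum (𝓞 K))) (a b : K) (θ : L) (d : Fin 3 → k) : Prop where
  ne : ev θ d ≠ 0
  sq : IsSquare (Algebra.norm k (ev θ d))
  even : ∀ w : HeightOneSpectrum (𝓞 L), dn K (dn k w) ∉ S → eo w (sc (ev θ d)) = 0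
  loc : ∀ v ∈ S, LCv K v a b d
  real : ∀ s : k →+* ℝ, LC s (algebraMap K k a) (algebraMap K k b) d

/-- The relaxed Selmer group is trivial. -/
def RelT (S : Finset (HeightOneSpectrum (𝓞 K))) (a b : K) (θ : L) : Prop :=
  ∀ d : Fin 3 → k, Rel K k L S a b θ d → IsSquare (ev θ d)

end Rel

/-- The prime `V` of `N` is ramified over `K`. -/
def Ram (K : Type) {N : Type} [Field K] [NumberField K] [Field N] [NumberField N] [Algebra K N]
    (V : HeightOneSpectrum (𝓞 N)) : Prop :=
  (dn K V).asIdeal.map (algebraMap (𝓞 K) (𝓞 N)) ≤ V.asIdeal ^ 2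

/-- The quadratic step: `k' / k` quadratic, `L = k(θ)`, `L' = k'(θ)` cubic. -/
structure QS (k L k' L' : Type) [Field k] [Field L] [Field k'] [Field L'] [Algebra k L]
    [Algebra k k'] [Algebra L L'] [Algebra k' L'] (a b : k) (θ : L) (θ' : L') : Prop where
  two : Module.finrank k k' = 2
  cub : Cub k L a b θ
  cub' : Cub k' L' (algebraMap k k' a) (algebraMap k k' b) θ'
  th : algebraMap L L' θ = θ'

end H73P2
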