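import Pool.Agent.H38.T1.Ga

/-!
ROW Wh (project MP_78d38b_P2, about 150 lines): the torsion of the curve over a field which embeds in two completions of `K`.

PROOF. `H38T1.tors_of_two` (`Pool/Agent/H38/T1/Ga.lean`) for two valuation subrings of `F`: `R = (ring of integers of K_v).comap ι` (`v.adicCompletionIntegers K` is a `ValuationSubring`, `ValuationSubring.comap`), so `x ∈ R` iff `Valued.v (ι x) ≤ 1`, and the same for `v'`.
(1) The residue field of `R` is finite: the map `𝓞 K → R → ResidueField R`, `a ↦` residue of `algebraMap K F a`, is onto: for `x ∈ R` there is `c : K` with `Valued.v (ι x - c) < 1` (`K` is dense in `K_v`; models: `LC_approx` in `Pool/Agent/H76/PP/Te.lean`,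
`Pool/Agent/H10/GrPlace.lean`), `v.valuation K c ≤ 1`, and an `a : 𝓞 K` with `v.valuation K (c - a) < 1` (`exists_primeCompl_mul_eq_of_integer` and an inverse modulo `v`; or `HeightOneSpectrum.exists_valuation_sub_lt_of_integer`); `R.valuation z < 1` iff `Valued.v (ι z) < 1` (non units). Its
kernel contains `v.asIdeal`, so the residue field is an image of the finite ring `𝓞 K ⧸ v.asIdeal` (`Ideal.finiteQuotientOfFreeOfNeBot`).
(2) For `n` prime to `l`: `R.valuation (n : F) = 1`: `n` and `l` generate the unit ideal of `ℤ` and `Valued.v (l) < 1` (lemma `H38T1.Gd_valn` in `Pool/Agent/H38/T1/Gd.lean` is the same statement; copy its proof).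
(3) Integral coefficients: `0, algebraMap A, algebraMap B ∈ R` (`Valued.v (ι (algebraMap K F A)) = v.valuation K A ≤ 1`, `valuedAdicCompletion_eq_valuation'`). Discriminant: `Δ = -16 (4 A^3 + 27 B^2)`, a unit: `2 (4 A^3 + 27 B^2) ∉ v`, so
`v.valuation K (2) = 1` and `v.valuation K (4 A^3 + 27 B^2) = 1`; in particular `Δ ≠ 0`: `IsElliptic`.
-/

set_option autoImplicit false
set_option linter.unusedSectionVars false

open WithZero NumberField IsDedekindDomain

namespace H73P2

private theorem Wh_Gd_val {F : Type*} [Field F] (A : ValuationSubring F) {l : ℕ} (hl : l.Prime)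
    (h : A.valuation (l : F) < 1) {k : ℤ} (hk : ¬ (l : ℤ) ∣ k) : A.valuation (k : F) = 1 := by
  have hle : ∀ j : ℤ, A.valuation (j : F) ≤ 1 := fun j =>
    (A.valuation_le_one_iff _).2 (intCast_mem A j)
  refine le_antisymm (hle k) (not_lt.1 fun hlt => ?_)
  have hco : IsCoprime (l : ℤ) k := ((Nat.prime_iff_prime_int.1 hl).coprime_iff_not_dvd).2 hk
  obtain ⟨u, v, huv⟩ := hco
  have h1 : A.valuation ((u * (l : ℤ) + v * k : ℤ) : F) < 1 := by
    rw [Int.cast_add, Int.cast_mul, Int.cast_mul, Int.cast_natCast]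
    refine (A.valuation.map_add _ _).trans_lt (max_lt ?_ ?_)
    · rw [map_mul]
      exact (mul_le_of_le_one_left' (hle u)).trans_lt h
    · rw [map_mul]
      exact (mul_le_of_le_one_left' (hle v)).trans_lt hlt
  rw [huv, Int.cast_one, map_one] at h1
  exact lt_irrefl _ h1

private theorem Wh_Gd_valn {F : Type*} [Field F] (A : ValuationSubring F) {l : ℕ} (hl : l.Prime)
    (h : A.valuation (l : F) < 1) (n : ℕ) (hn : n.Coprime l) : A.valuation (n : F) = 1 := by
  have h1 := Wh_Gd_val A hl h (k := (n : ℤ)) (fun hd => by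
    have h2 : l ∣ n := Int.natCast_dvd_natCast.1 hd
    exact (Nat.Prime.coprime_iff_not_dvd hl).1 hn.symm h2)
  rwa [Int.cast_natCast] at h1

private lemma Wh_nhd {F : Type*} [Field F] {Γ₀ : Type*} [LinearOrderedCommGroupWithZero Γ₀]
    [Valued F Γ₀] (x₀ : F) : {y | Valued.v (y - x₀) < 1} ∈ nhds x₀ := by
  rw [Valued.mem_nhds]
  have h' : Valued.v.restrict (1 : F) ≠ 0 := by simp
  exact ⟨Units.mk0 _ h', fun y hy => by
    rw [Set.mem_ofPred_eq, Units.val_mk0] at hy
    have h1 := Valued.v.restrict_lt_iff.mp hy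
    rwa [map_one] at h1⟩

section

variable {K : Type} [Field K] [NumberField K] {F : Type} [Field F] [Algebra K F]
  {v : HeightOneSpectrum (𝓞 K)}

private lemma Wh_le (ι : F →+* v.adicCompletion K) (x : F) :
    ((v.adicCompletionIntegers K).comap ι).valuation x ≤ 1 ↔ Valued.v (ι x) ≤ 1 := by
  rw [ValuationSubring.valuation_le_one_iff, ValuationSubring.mem_comap,
    HeightOneSpectrum.mem_adicCompletionIntegers]

private lemma Wh_lt (ι : F →+* v.adicCompletion K) (x : F) :
    ((v.adicCompletionIntegers K).comap ι).valuation x < 1 ↔ Valued.v (ι x) < 1 := by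
  rw [← ValuationSubring.mem_nonunits_iff, ValuationSubring.mem_nonunits_iff_or,
    ValuationSubring.mem_comap, HeightOneSpectrum.notMem_adicCompletionIntegers, map_inv₀,
    map_inv₀]
  by_cases hx : x = 0
  · simp [hx]
  · have h1 : Valued.v (ι x) ≠ 0 := by
      rw [Valuation.ne_zero_iff, Ne, map_eq_zero]
      exact hx
    rw [or_iff_right hx, one_lt_inv₀ (zero_lt_iff.2 h1)]

private lemma Wh_eq (ι : F →+* v.adicCompletion K) (x : F) :
    ((v.adicCompletionIntegers K).comap ι).valuation x = 1 ↔ Valued.v (ι x) = 1 := by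
  have h1 := Wh_le ι x
  have h2 := Wh_lt ι x
  constructor
  · intro h
    exact le_antisymm (h1.1 h.le) (not_lt.1 fun h' => (h2.2 h').ne h)
  · intro h
    exact le_antisymm (h1.2 h.le) (not_lt.1 fun h' => (h2.1 h').ne h)

private lemma Wh_alg {ι : F →+* v.adicCompletion K}
    (hι : ∀ x : K, ι (algebraMap K F x) = algebraMap K (v.adicCompletion K) x) (x : K) :
    Valued.v (ι (algebraMap K F x)) = v.valuation K x := by
  rw [hι]
  exact HeightOneSpectrum.valuedAdicCompletion_eq_valuation' v x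

private lemma Wh_fin {ι : F →+* v.adicCompletion K}
    (hι : ∀ x : K, ι (algebraMap K F x) = algebraMap K (v.adicCompletion K) x) :
    Finite (IsLocalRing.ResidueField ((v.adicCompletionIntegers K).comap ι)) := by
  obtain ⟨R, hR⟩ : ∃ R, R = (v.adicCompletionIntegers K).comap ι := ⟨_, rfl⟩
  rw [← hR]
  have hlt : ∀ z : F, R.valuation z < 1 ↔ Valued.v (ι z) < 1 := by
    rw [hR]
    exact Wh_lt ι
  have hmem : ∀ a : 𝓞 K, ((algebraMap K F).comp (algebraMap (𝓞 K) K)) a ∈ R := by
    intro a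
    rw [hR, ← ValuationSubring.valuation_le_one_iff, Wh_le, RingHom.comp_apply, Wh_alg hι]
    exact v.valuation_le_one a
  let φ₀ : 𝓞 K →+* R := ((algebraMap K F).comp (algebraMap (𝓞 K) K)).codRestrict R hmem
  have hφ₀ : ∀ a : 𝓞 K, ((φ₀ a : R) : F) = algebraMap K F (algebraMap (𝓞 K) K a) := fun a => rfl
  let φ : 𝓞 K →+* IsLocalRing.ResidueField R := (IsLocalRing.residue R).comp φ₀
  have hker : ∀ a ∈ v.asIdeal, φ a = 0 := by
    intro a ha
    rw [RingHom.comp_apply, IsLocalRing.residue_eq_zero_iff, ValuationSubring.valuation_lt_one_iff,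
      hφ₀, hlt, Wh_alg hι]
    exact (v.valuation_lt_one_iff_mem a).2 ha
  have hsurj : Function.Surjective φ := by
    intro y
    obtain ⟨x, rfl⟩ := IsLocalRing.residue_surjective y
    have hdense : DenseRange (algebraMap K (v.adicCompletion K)) :=
      HeightOneSpectrum.denseRange_algebraMap (K := K) v
    obtain ⟨c, hc⟩ := hdense.mem_nhds (Wh_nhd (ι (x : F)))
    rw [Set.mem_ofPred_eq] at hc
    have hx : Valued.v (ι (x : F)) ≤ 1 := by
      rw [← Wh_le, ← hR]
      exact (R.valuation_le_one_iff _).2 x.2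
    have hc1 : v.valuation K c ≤ 1 := by
      rw [← HeightOneSpectrum.valuedAdicCompletion_eq_valuation' v c]
      have e : algebraMap K (v.adicCompletion K) c =
          (algebraMap K (v.adicCompletion K) c - ι (x : F)) + ι (x : F) := by ring
      change Valued.v (algebraMap K (v.adicCompletion K) c) ≤ 1
      rw [e]
      exact (Valuation.map_add _ _ _).trans (max_le hc.le hx)
    obtain ⟨a, ha⟩ := v.exists_valuation_sub_lt_of_integer (K := K) hc1 1
    rw [Units.val_one] at ha
    refine ⟨a, ?_⟩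
    rw [RingHom.comp_apply, ← sub_eq_zero, ← map_sub, IsLocalRing.residue_eq_zero_iff,
      ValuationSubring.valuation_lt_one_iff]
    have e1 : ((φ₀ a - x : R) : F) = algebraMap K F (algebraMap (𝓞 K) K a) - (x : F) := rfl
    rw [e1, hlt, map_sub, hι]
    have e2 : algebraMap K (v.adicCompletion K) (algebraMap (𝓞 K) K a) - ι (x : F) =
        algebraMap K (v.adicCompletion K) (algebraMap (𝓞 K) K a - c) +
        (algebraMap K (v.adicCompletion K) c - ι (x : F)) := by
      rw [map_sub]
      ring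
    rw [e2]
    refine (Valuation.map_add _ _ _).trans_lt (max_lt ?_ hc)
    rw [← HeightOneSpectrum.valuedAdicCompletion_eq_valuation' v] at ha
    exact ha
  have hfin : Finite (𝓞 K ⧸ v.asIdeal) := Ideal.finiteQuotientOfFreeOfNeBot v.asIdeal v.ne_bot
  exact Finite.of_surjective (Ideal.Quotient.lift v.asIdeal φ hker)
    (Ideal.Quotient.lift_surjective_of_surjective _ _ hsurj)

private lemma Wh_l {ι : F →+* v.adicCompletion K}
    (hι : ∀ x : K, ι (algebraMap K F x) = algebraMap K (v.adicCompletion K) x) {l : ℕ}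
    (hv : (l : 𝓞 K) ∈ v.asIdeal) :
    ((v.adicCompletionIntegers K).comap ι).valuation (l : F) < 1 := by
  have e : (l : F) = algebraMap K F (algebraMap (𝓞 K) K (l : 𝓞 K)) := by
    rw [map_natCast, map_natCast]
  rw [e, Wh_lt, Wh_alg hι]
  exact (v.valuation_lt_one_iff_mem _).2 hv

private lemma Wh_Δ {ι : F →+* v.adicCompletion K}
    (hι : ∀ x : K, ι (algebraMap K F x) = algebraMap K (v.adicCompletion K) x) {A B : 𝓞 K}
    (hg : 2 * (4 * A ^ 3 + 27 * B ^ 2) ∉ v.asIdeal) :
    ((v.adicCompletionIntegers K).comap ι).valuation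
      (⟨0, 0, 0, algebraMap K F A, algebraMap K F B⟩ : WeierstrassCurve F).Δ = 1 := by
  have e : (⟨0, 0, 0, algebraMap K F A, algebraMap K F B⟩ : WeierstrassCurve F).Δ =
      algebraMap K F (algebraMap (𝓞 K) K (-8 * (2 * (4 * A ^ 3 + 27 * B ^ 2)))) := by
    simp only [WeierstrassCurve.Δ, WeierstrassCurve.b₂, WeierstrassCurve.b₄, WeierstrassCurve.b₆,
      WeierstrassCurve.b₈, map_mul, map_add, map_pow, map_neg, map_ofNat]
    ring
  rw [e, Wh_eq, Wh_alg hι]
  refine le_antisymm (v.valuation_le_one _) (not_lt.1 fun hlt => ?_)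
  rw [v.valuation_lt_one_iff_mem] at hlt
  rcases v.isPrime.mem_or_mem hlt with h | h
  · have h2 : (2 : 𝓞 K) ∈ v.asIdeal := by
      have h3 : (2 : 𝓞 K) ^ 3 ∈ v.asIdeal := by
        have h4 := v.asIdeal.neg_mem h
        have e2 : -(-8 : 𝓞 K) = 2 ^ 3 := by norm_num
        rwa [e2] at h4
      exact v.isPrime.mem_of_pow_mem 3 h3
    exact hg (v.asIdeal.mul_mem_right _ h2)
  · exact hg h

private lemma Wh_int {ι : F →+* v.adicCompletion K}
    (hι : ∀ x : K, ι (algebraMap K F x) = algebraMap K (v.adicCompletion K) x) (A B : 𝓞 K) :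
    Pool.Agent.H11.Integral ((v.adicCompletionIntegers K).comap ι)
      (⟨0, 0, 0, algebraMap K F A, algebraMap K F B⟩ : WeierstrassCurve F) := by
  have h : ∀ a : 𝓞 K, algebraMap K F (algebraMap (𝓞 K) K a) ∈
      (v.adicCompletionIntegers K).comap ι := by
    intro a
    rw [← ValuationSubring.valuation_le_one_iff, Wh_le, Wh_alg hι]
    exact v.valuation_le_one a
  exact ⟨zero_mem _, zero_mem _, zero_mem _, h A, h B⟩

end

theorem tors_emb {K : Type} [Field K] [NumberField K] {A B : 𝓞 K} {F : Type} [Field F] [DecidableEq F]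
    [Algebra K F] {v v' : HeightOneSpectrum (𝓞 K)} {l l' : ℕ} (hl : l.Prime) (hl' : l'.Prime)
    (hne : l ≠ l') (hv : (l : 𝓞 K) ∈ v.asIdeal) (hv' : (l' : 𝓞 K) ∈ v'.asIdeal)
    (hg : 2 * (4 * A ^ 3 + 27 * B ^ 2) ∉ v.asIdeal) (hg' : 2 * (4 * A ^ 3 + 27 * B ^ 2) ∉ v'.asIdeal)
    (ι : F →+* v.adicCompletion K)
    (hι : ∀ x : K, ι (algebraMap K F x) = algebraMap K (v.adicCompletion K) x)
    (ι' : F →+* v'.adicCompletion K)
    (hι' : ∀ x : K, ι' (algebraMap K F x) = algebraMap K (v'.adicCompletion K) x) :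
    {P : (⟨0, 0, 0, algebraMap K F A, algebraMap K F B⟩ : WeierstrassCurve F).toAffine.Point |
      ∃ n : ℕ, n ≠ 0 ∧ n • P = 0}.Finite := by
  have hΔ := Wh_Δ hι hg
  have hΔ' := Wh_Δ hι' hg'
  have hell : (⟨0, 0, 0, algebraMap K F A, algebraMap K F B⟩ : WeierstrassCurve F).IsElliptic := by
    refine ⟨isUnit_iff_ne_zero.2 fun h0 => ?_⟩
    rw [h0, map_zero] at hΔ
    exact zero_ne_one hΔ
  have hf := Wh_fin hι
  have hf' := Wh_fin hι'
  have key := H38T1.tors_of_two ((v.adicCompletionIntegers K).comap ι)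
    ((v'.adicCompletionIntegers K).comap ι') hl hl' hne
    (Wh_Gd_valn _ hl (Wh_l hι hv)) (Wh_Gd_valn _ hl' (Wh_l hι' hv'))
    (Wh_int hι A B) hΔ (Wh_int hι' A B) hΔ'
  have hD : (‹DecidableEq F› : DecidableEq F) = fun a b => Classical.propDecidable (a = b) :=
    Subsingleton.elim _ _
  subst hD
  exact key

end H73P2
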