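import Mathlib

/-!
ROW Wi (project MP_78d38b_P2, about 60 lines, Mathlib only): two primes of good reduction with different residue characteristics.

PROOF. `z = 2 (4 A^3 + 27 B^2) ≠ 0`, `n = |Algebra.norm ℤ z| > 0` (or `Ideal.absNorm (span {z})`). Choose primes `l ≠ l'` larger than `n` (`Nat.exists_infinite_primes`). For such an `l` let `v` be a maximal ideal of `𝓞 K` containing `l` (`l` is not a unit of `𝓞 K`:
`H76PP.two_not_unit` in `Pool/Agent/H76/PP/Ya.lean` is the model for 2; or `Ideal.exists_ideal_over_prime_of_isIntegral` / `Ideal.absNorm` of `span {l}` is `l^n ≠ 1`). If `z ∈ v` then `n ∈ v` (`Ideal.absNorm_mem`, or the norm is a multiple of `z`: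
`Algebra.dvd_norm`), and `l, n` are coprime integers in `v`: `1 ∈ v`, contradiction.
-/

/-!
Two primes of good reduction with different residue characteristics (row Wi of the project MP_78d38b_P2).
-/

set_option autoImplicit false
set_option linter.unusedSectionVars false

open WithZero NumberField IsDedekindDomain

namespace H73P2

private theorem Wi_one {K : Type} [Field K] [NumberField K] {z : 𝓞 K} (hz : z ≠ 0) {l : ℕ}
    (hl : l.Prime) (hb : Ideal.absNorm (Ideal.span {z}) < l) :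
    ∃ v : HeightOneSpectrum (𝓞 K), (l : 𝓞 K) ∈ v.asIdeal ∧ z ∉ v.asIdeal := by
  have hl0 : (l : 𝓞 K) ≠ 0 := Nat.cast_ne_zero.2 hl.ne_zero
  have hnu : ¬ IsUnit (l : 𝓞 K) := by
    intro h
    have h1 : IsUnit (Algebra.norm ℤ (l : 𝓞 K)) := h.map (Algebra.norm ℤ)
    have h2 : Algebra.norm ℤ (l : 𝓞 K) = (l : ℤ) ^ Module.finrank ℤ (𝓞 K) := by
      have h3 := Algebra.norm_algebraMap (S := 𝓞 K) (l : ℤ)
      rw [map_natCast] at h3
      exact h3
    rw [h2] at h1
    have h4 : Module.finrank ℤ (𝓞 K) ≠ 0 := by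
      rw [RingOfIntegers.rank]
      exact Module.finrank_pos.ne'
    have h5 : IsUnit (l : ℤ) := (isUnit_pow_iff h4).1 h1
    exact (Nat.prime_iff_prime_int.1 hl).not_isUnit h5
  obtain ⟨M, hM, hle⟩ := Ideal.exists_le_maximal (Ideal.span {(l : 𝓞 K)}) (by
    intro h
    exact hnu (Ideal.span_singleton_eq_top.1 h))
  have hlM : (l : 𝓞 K) ∈ M := hle (Ideal.mem_span_singleton_self _)
  refine ⟨⟨M, hM.isPrime, ?_⟩, hlM, ?_⟩
  · rintro rfl
    exact hl0 (Ideal.mem_bot.1 hlM)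
  · intro hzM
    have hzM' : z ∈ M := hzM
    have hn : (Ideal.absNorm (Ideal.span {z}) : 𝓞 K) ∈ M := by
      have h1 := Ideal.absNorm_mem (Ideal.span {z})
      exact (Ideal.span_singleton_le_iff_mem M).2 hzM' h1
    have hn0 : Ideal.absNorm (Ideal.span {z}) ≠ 0 := by
      intro h
      rw [Ideal.absNorm_eq_zero_iff, Ideal.span_singleton_eq_bot] at h
      exact hz h
    have hc : Nat.Coprime l (Ideal.absNorm (Ideal.span {z})) := by
      rw [Nat.Prime.coprime_iff_not_dvd hl]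
      intro hd
      exact absurd (Nat.le_of_dvd (Nat.pos_of_ne_zero hn0) hd) (not_le.2 hb)
    have h1 := Nat.isCoprime_iff_coprime.2 hc
    obtain ⟨a, b, hab⟩ := h1
    have h2 : ((a * (l : ℤ) + b * ((Ideal.absNorm (Ideal.span {z}) : ℕ) : ℤ) : ℤ) : 𝓞 K) = 1 := by
      rw [hab, Int.cast_one]
    push_cast at h2
    apply hM.ne_top
    rw [Ideal.eq_top_iff_one, ← h2]
    exact M.add_mem (M.mul_mem_left _ hlM) (M.mul_mem_left _ hn)

theorem exists_two_good {K : Type} [Field K] [NumberField K] {A B : 𝓞 K}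
    (hd : 4 * A ^ 3 + 27 * B ^ 2 ≠ 0) :
    ∃ (l l' : ℕ) (v v' : HeightOneSpectrum (𝓞 K)), l.Prime ∧ l'.Prime ∧ l ≠ l' ∧
      (l : 𝓞 K) ∈ v.asIdeal ∧ (l' : 𝓞 K) ∈ v'.asIdeal ∧
      2 * (4 * A ^ 3 + 27 * B ^ 2) ∉ v.asIdeal ∧ 2 * (4 * A ^ 3 + 27 * B ^ 2) ∉ v'.asIdeal := by
  have hz : 2 * (4 * A ^ 3 + 27 * B ^ 2) ≠ 0 := mul_ne_zero two_ne_zero hd
  obtain ⟨l, hl1, hl⟩ := Nat.exists_infinite_primes
    (Ideal.absNorm (Ideal.span {2 * (4 * A ^ 3 + 27 * B ^ 2)}) + 1)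
  obtain ⟨l', hl1', hl'⟩ := Nat.exists_infinite_primes (l + 1)
  obtain ⟨v, h1, h2⟩ := Wi_one hz hl (by omega)
  obtain ⟨v', h1', h2'⟩ := Wi_one hz hl' (by omega)
  exact ⟨l, l', v, v', hl, hl', by omega, h1, h1', h2, h2'⟩

end H73P2
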