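import Pool.Agent.H73.P2.We
import Pool.Agent.H10.Pm

/-!
ROW Wj (project MP_78d38b_P2, about 80 lines): finitely many points over the infinite extension.

PROOF. It suffices that every point `P` over `F = mq K I` is torsion (then `Set.univ` is contained in the finite set `ht`; `Set.finite_univ_iff`). `P = 0` clear. `P = (x, y)`: `M = adjoin K {x, y}` (as an intermediate field of the algebraic closure) is finite dimensional
(`IntermediateField.finiteDimensional_adjoin`, the elements are algebraic), a number field (`NumberField.of_module_finite K M`), and `M ≤ F`. The point is the image of a point of the curve over `M` under the inclusion `M → F`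
(`IntermediateField.inclusion`, `pm`), which has finite order as the group over `M` is finite (`isOfFinAddOrder_of_finite`). This is done in the same way in the theorem `tors_Fq` at the end of `Pool/Agent/H93/MQ/Chain.lean` (copy and adapt).
-/

set_option autoImplicit false
set_option linter.unusedSectionVars false

open WithZero NumberField IsDedekindDomain

namespace H73P2

theorem fin_mq {K : Type} [Field K] [NumberField K] {I : Set K} {A B : 𝓞 K}
    (hM : ∀ (M : IntermediateField K (AlgebraicClosure K)) [NumberField M], M ≤ mq K I →
      Finite (⟨0, 0, 0, algebraMap K M A, algebraMap K M B⟩ : WeierstrassCurve M).toAffine.Point)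
    [DecidableEq (mq K I)]
    (ht : {P : (⟨0, 0, 0, algebraMap K (mq K I) A, algebraMap K (mq K I) B⟩ :
      WeierstrassCurve (mq K I)).toAffine.Point | ∃ n : ℕ, n ≠ 0 ∧ n • P = 0}.Finite) :
    Finite (⟨0, 0, 0, algebraMap K (mq K I) A, algebraMap K (mq K I) B⟩ :
      WeierstrassCurve (mq K I)).toAffine.Point := by
  have hall : ∀ P : (⟨0, 0, 0, algebraMap K (mq K I) A, algebraMap K (mq K I) B⟩ :
      WeierstrassCurve (mq K I)).toAffine.Point, ∃ n : ℕ, n ≠ 0 ∧ n • P = 0 := by
    rintro (_ | ⟨x, y, hxy⟩)
    · exact ⟨1, one_ne_zero, one_nsmul 0⟩
    · let M : IntermediateField K (AlgebraicClosure K) :=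
        IntermediateField.adjoin K {(x : AlgebraicClosure K), (y : AlgebraicClosure K)}
      have hxM : (x : AlgebraicClosure K) ∈ M :=
        IntermediateField.subset_adjoin K _ (Set.mem_insert _ _)
      have hyM : (y : AlgebraicClosure K) ∈ M :=
        IntermediateField.subset_adjoin K _ (Set.mem_insert_of_mem _ (Set.mem_singleton _))
      have hle : M ≤ mq K I := by
        refine IntermediateField.adjoin_le_iff.2 ?_
        rintro z (rfl | rfl)
        · exact x.2
        · exact y.2
      have hfd : FiniteDimensional K M :=
        IntermediateField.finiteDimensional_adjoin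
          (fun z _ => (AlgebraicClosure.isAlgebraic K).isIntegral.1 z)
      have hnf : NumberField M := NumberField.of_module_finite K M
      have hfin := hM M hle
      classical
      let ι : M →+* mq K I := (IntermediateField.inclusion hle).toRingHom
      have hι : ∀ a : K, ι (algebraMap K M a) = algebraMap K (mq K I) a := fun a =>
        (IntermediateField.inclusion hle).commutes a
      have hV : (⟨0, 0, 0, algebraMap K M A, algebraMap K M B⟩ : WeierstrassCurve M).map ι =
          ⟨0, 0, 0, algebraMap K (mq K I) A, algebraMap K (mq K I) B⟩ := by
        simp only [WeierstrassCurve.map, hι, map_zero]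
      have hns : (⟨0, 0, 0, algebraMap K M A, algebraMap K M B⟩ :
          WeierstrassCurve M).toAffine.Nonsingular ⟨x, hxM⟩ ⟨y, hyM⟩ := by
        rw [← WeierstrassCurve.Affine.map_nonsingular _ ι.injective]
        exact (congrArg (fun W => WeierstrassCurve.Affine.Nonsingular W x y) hV).mpr hxy
      have hP : Pool.Agent.H10.pm ι hV (.some _ _ hns) = .some x y hxy := rfl
      obtain ⟨m, hm0, hm⟩ := isOfFinAddOrder_iff_nsmul_eq_zero.1
        (isOfFinAddOrder_of_finite (WeierstrassCurve.Affine.Point.some _ _ hns))
      refine ⟨m, hm0.ne', ?_⟩
      rw [← hP, ← map_nsmul, hm, map_zero]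
  rw [← Set.finite_univ_iff]
  exact ht.subset fun P _ => hall P

end H73P2
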