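import Pool.Agent.H73.P2.Df

/-!
ROW Co (project MP_78d38b_P2, about 130 lines): descent of a class along a quadratic step, algebraic part.

PROOF. core: this is word for word the first half of the proof of `QStep.core` in `Pool/Agent/H10/Q/Step.lean` (without the
valuations): `k, L, k', L'` in place of `K, L, K2, L2`; `d : k'` is an element with `d^2 = algebraMap k k' D`, `d ∉ k` (exists:
`Module.finrank k k' = 2`, characteristic not two; e.g. take `y ∉ k`, `Pool.Agent.H10.Q.quad_rel` and complete the square; this is the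
lemma exists_gen0 below). Uses `notMem_up`, `hilb`, `norm_compat`, `sq_of_sq` of `Pool/Agent/H10/Q/Hilb.lean`. The degree `finrank k L = 3` is odd (`Cub.finrank`).
norm_sq: `QStep.norm_sq` in the same file (`Algebra.norm_norm` twice).
sigma: `Pool.Agent.H10.Q.exists_sigma fin2` gives `σ : L' ≃ₐ[L] L'` with `norm x = x * σ x`. Let `τ := (σ.restrictScalars k).restrictNormal k'`
(`k' / k` is normal: `Algebra.IsQuadraticExtension`, as in the proof of exists_sigma) with `AlgEquiv.restrictNormal_commutes`: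
`algebraMap k' L' (τ x) = σ (algebraMap k' L' x)`. `σ θ' = θ'` as `θ'` is in the image of `L`. So `σ (ev θ' d) = ev θ' (τ ∘ d)`.
coord: `algebraMap L L' (ev θ e) = ev θ' (algebraMap ∘ e)` (unfold `ev`, towers). If `ev θ e = norm L (ev θ' d)`: `ev θ' (algebraMap ∘ e) = ev θ' d * σ (ev θ' d) = ev θ' (m3 .. d (τ ∘ d))`
(`Te_ev_mul S.cub'`), and the coordinates are unique (`S.cub'.li`, or `Cub.co_mk`).
-/

set_option autoImplicit false
set_option linter.unusedSectionVars false
open scoped Classical

open WithZero NumberField IsDedekindDomain H38RT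
open H38T1 (SC sc scu rep eo la si Pri OddP tp unif)
open H76PP

namespace H73P2

theorem exists_gen0 {k k' : Type} [Field k] [CharZero k] [Field k'] [Algebra k k']
    (h : Module.finrank k k' = 2) :
    ∃ (D : k) (d : k'), d ^ 2 = algebraMap k k' D ∧ ∀ y : k, algebraMap k k' y ≠ d := by
  have hc0 : CharZero k' := charZero_of_injective_algebraMap (algebraMap k k').injective
  obtain ⟨y, hy⟩ : ∃ y : k', ∀ c : k, algebraMap k k' c ≠ y := by
    by_contra hcon
    push Not at hcon
    have h1 : Module.finrank k k' = 1 :=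
      (finrank_eq_one_iff_of_nonzero' (1 : k') one_ne_zero).2 (fun w => by
        obtain ⟨c, hc⟩ := hcon w
        exact ⟨c, by rw [Algebra.smul_def, mul_one, hc]⟩)
    omega
  have hr := Pool.Agent.H10.Q.quad_rel h y
  refine ⟨Algebra.trace k k' y ^ 2 - 4 * Algebra.norm k y,
    2 * y - algebraMap k k' (Algebra.trace k k' y), ?_, ?_⟩
  · rw [map_sub, map_pow, map_mul, map_ofNat]
    linear_combination 4 * hr
  · intro c hc
    apply hy ((c + Algebra.trace k k' y) / 2)
    rw [map_div₀, map_add, map_ofNat, div_eq_iff two_ne_zero]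
    linear_combination hc

section

variable {k L k' L' : Type} [Field k] [NumberField k] [Field L] [NumberField L] [Field k']
  [NumberField k'] [Field L'] [NumberField L'] [Algebra k L] [Algebra k k'] [Algebra L L']
  [Algebra k' L'] [Algebra k L'] [IsScalarTower k L L'] [IsScalarTower k k' L'] {a b : k} {θ : L}
  {θ' : L'}

theorem QS.core (S : QS k L k' L' a b θ θ') (f2 : Module.finrank L L' = 2) {x : L'} (hx : x ≠ 0)
    (hN : IsSquare (Algebra.norm k' x)) (hsq : IsSquare (Algebra.norm L x)) :
    ∃ (t : L) (z : L'), t ≠ 0 ∧ z ≠ 0 ∧ x = algebraMap L L' t * z ^ 2 ∧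
      IsSquare (Algebra.norm k t) := by
  obtain ⟨D, d, hdK2, hdK⟩ := exists_gen0 S.two
  have hodd : Odd (Module.finrank k L) := by
    rw [S.cub.finrank]
    exact ⟨1, rfl⟩
  have hfin : FiniteDimensional k L := Module.finite_of_finrank_pos (by rw [S.cub.finrank]; norm_num)
  have hdL := Pool.Agent.H10.Q.notMem_up (L := L) (L2 := L') hodd hdK2 hdK
  have hd0 : d ≠ 0 := by
    intro h
    exact hdK 0 (by rw [map_zero, h])
  have hδ0 : D ≠ 0 := by
    intro h
    rw [h, map_zero] at hdK2
    exact hd0 (pow_eq_zero_iff two_ne_zero |>.mp hdK2)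
  -- first descent
  obtain ⟨y, hy⟩ := hsq
  have hNx : Algebra.norm L x ≠ 0 := by rw [Ne, Algebra.norm_eq_zero_iff]; exact hx
  have hy0 : y ≠ 0 := by
    rintro rfl
    rw [mul_zero] at hy
    exact hNx hy
  have hyL : algebraMap L L' y ≠ 0 := by rwa [Ne, map_eq_zero]
  have hu : Algebra.norm L (x / algebraMap L L' y) = 1 := by
    have h1 : Algebra.norm L (x / algebraMap L L' y) * Algebra.norm L (algebraMap L L' y) =
        Algebra.norm L x := by
      rw [← map_mul, div_mul_cancel₀ _ hyL]
    rw [Algebra.norm_algebraMap, f2, hy, pow_two] at h1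
    exact mul_right_cancel₀ (mul_ne_zero hy0 hy0) (by rw [h1, one_mul])
  obtain ⟨t1, z, ht1, hz, hxz⟩ := Pool.Agent.H10.Q.hilb f2 hu
  have hx2 : x = algebraMap L L' (y * t1) * z ^ 2 := by
    rw [map_mul, mul_assoc, ← hxz, mul_div_cancel₀ _ hyL]
  have ht2 : y * t1 ≠ 0 := mul_ne_zero hy0 ht1
  -- the norm to `k`
  have hNt : IsSquare (algebraMap k k' (Algebra.norm k (y * t1))) := by
    rw [← Pool.Agent.H10.Q.norm_compat S.two f2 hdL]
    have hz2 : Algebra.norm k' z ≠ 0 := by rw [Ne, Algebra.norm_eq_zero_iff]; exact hz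
    obtain ⟨c, hc⟩ := hN
    rw [hx2, map_mul, map_pow] at hc
    refine ⟨c / Algebra.norm k' z, ?_⟩
    field_simp
    rw [hc]
    ring
  rcases Pool.Agent.H10.Q.sq_of_sq S.two hdK2 hdK two_ne_zero hNt with h | h
  · exact ⟨y * t1, z, ht2, hz, hx2, h⟩
  · have hdL2 : algebraMap k' L' d ≠ 0 := by rwa [Ne, map_eq_zero]
    refine ⟨y * t1 * algebraMap k L D, z / algebraMap k' L' d,
      mul_ne_zero ht2 (by rwa [Ne, map_eq_zero]), div_ne_zero hz hdL2, ?_, ?_⟩
    · have e : algebraMap L L' (algebraMap k L D) = (algebraMap k' L' d) ^ 2 := by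
        rw [← map_pow, hdK2, ← IsScalarTower.algebraMap_apply k L L',
          ← IsScalarTower.algebraMap_apply k k' L']
      rw [map_mul, e, hx2]
      field_simp
    · obtain ⟨c, hc⟩ := h
      rw [map_mul, Algebra.norm_algebraMap, S.cub.finrank]
      refine ⟨c * D, ?_⟩
      calc Algebra.norm k (y * t1) * D ^ 3
          = (Algebra.norm k (y * t1) * D) * (D * D) := by ring
        _ = _ := by rw [hc]; ring

theorem QS.norm_sq (S : QS k L k' L' a b θ θ') (f2 : Module.finrank L L' = 2) {x : L'}
    (hN : IsSquare (Algebra.norm k' x)) : IsSquare (Algebra.norm k (Algebra.norm L x)) := by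
  have h1 : FiniteDimensional k k' := Module.finite_of_finrank_pos (by rw [S.two]; norm_num)
  have h2 : FiniteDimensional L L' := Module.finite_of_finrank_pos (by rw [f2]; norm_num)
  rw [Algebra.norm_norm, ← Algebra.norm_norm (S := k')]
  exact hN.map _

theorem QS.coord (S : QS k L k' L' a b θ θ') (e : Fin 3 → k) :
    algebraMap L L' (ev θ e) = ev θ' (fun i => algebraMap k k' (e i)) := by
  unfold ev
  rw [map_add, map_add, map_mul, map_mul, map_pow, S.th]
  simp only [← IsScalarTower.algebraMap_apply k L L', ← IsScalarTower.algebraMap_apply k k' L']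

theorem QS.sigma (S : QS k L k' L' a b θ θ') (f2 : Module.finrank L L' = 2) :
    ∃ (τ : k' ≃ₐ[k] k') (σ : L' ≃ₐ[L] L'),
      (∀ x : L', algebraMap L L' (Algebra.norm L x) = x * σ x) ∧
      ∀ (d : Fin 3 → k') (e : Fin 3 → k), ev θ e = Algebra.norm L (ev θ' d) →
        (fun i => algebraMap k k' (e i)) =
          m3 (algebraMap k k' a) (algebraMap k k' b) d (fun i => τ (d i)) := by
  obtain ⟨σ, hσ⟩ := Pool.Agent.H10.Q.exists_sigma f2
  have hq : Algebra.IsQuadraticExtension k k' := ⟨S.two⟩
  have hg : IsGalois k k' := inferInstance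
  have hn : Normal k k' := inferInstance
  obtain ⟨τ, hτ⟩ : ∃ τ : k' ≃ₐ[k] k', ∀ x : k', algebraMap k' L' (τ x) = σ (algebraMap k' L' x) :=
    ⟨(σ.restrictScalars k).restrictNormal k', fun x =>
      AlgEquiv.restrictNormal_commutes (σ.restrictScalars k) k' x⟩
  have hθ : σ θ' = θ' := by
    rw [← S.th]
    exact σ.commutes θ
  refine ⟨τ, σ, hσ, fun d e he => ?_⟩
  have h1 : ev θ' (fun i => algebraMap k k' (e i)) =
      ev θ' (m3 (algebraMap k k' a) (algebraMap k k' b) d (fun i => τ (d i))) := by
    have h2 : σ (ev θ' d) = ev θ' (fun i => τ (d i)) := by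
      unfold ev
      rw [map_add, map_add, map_mul, map_mul, map_pow, hθ, hτ, hτ, hτ]
    rw [← S.coord e, he, hσ, h2, Te_ev_mul S.cub']
  funext i
  have e1 := S.cub'.co_mk (fun i => algebraMap k k' (e i)) i
  have e2 := S.cub'.co_mk (m3 (algebraMap k k' a) (algebraMap k k' b) d (fun i => τ (d i))) i
  unfold ev at h1
  rw [h1] at e1
  exact e1.symm.trans e2

end

end H73P2
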