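import Pool.Agent.H73.P2.Df
import Pool.Agent.H73.P2.Co

/-!
ROW Ua (project MP_78d38b_P2, about 120 lines): consequences of `V` being unramified over `K`. Use only the STATEMENT exists_gen0 of Co.

PROOF. unram_ord: `ord_dn V` (H76/PP/Ta.lean) for `N / K`: `e > 0` with `ord_V (x) = e ord_v (x)`, `v = dn K V`. `¬ Ram`: there is an element of
`v 𝓞 N` not in `V^2`; the ideal is generated by the images of the elements of `v` (`Ideal.map_le_iff_le_comap`), so there is `p ∈ v.asIdeal` with `algebraMap p ∉ V.asIdeal ^ 2`; so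
`V.valuation p > exp (-2)` (`HeightOneSpectrum.intValuation_le_pow_iff_mem`, `valuation_of_algebraMap`), `ord_V p ≤ 1`, and
`ord_V p = e ord_v p ≥ e` (`p ∈ v`, `p ≠ 0`). So `e = 1`.
unram_mid: `K ⊆ k ⊆ N`: `ord_V = e₁ ord_u` on `k` (`u = dn k V`), `ord_u = e₂ ord_v` on `K` (`dn K u = v`: both are the comap; scalar tower of the rings of
integers), and for a uniformizer `ϖ` of `v`: `1 = ord_v ϖ = ord_V ϖ = e₁ e₂`. So `e₁ = e₂ = 1`.
exists_gen: `D₀, ρ₀` from exists_gen0. `V` above `u` with `ord_V = ord_u` on `k`: `ord_u D₀ = ord_V (ρ₀^2) = 2 ord_V ρ₀` is even, `= 2 m`. Let `c ∈ k` have `ord_u c = -m` (power of a uniformizer,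
`u.valuation_exists_uniformizer`). `D = c^2 D₀`, `ρ = c ρ₀`. `ord_u D = 0`, so `u.valuation D = 1` (`ord = - log`, `D ≠ 0`).
-/

set_option autoImplicit false
set_option linter.unusedSectionVars false
open scoped Classical

open WithZero NumberField IsDedekindDomain H38RT
open H38T1 (SC sc scu rep eo la si Pri OddP tp unif)
open H76PP

namespace H73P2

section

variable {K N : Type} [Field K] [NumberField K] [Field N] [NumberField N] [Algebra K N]

private theorem Ua_eq {F : Type} [Field F] {V : Valuation F (WithZero (Multiplicative ℤ))} {x : F}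
    (hx : x ≠ 0) : V x = exp (- ord V x) := by
  unfold ord
  rw [neg_neg, exp_log ((Valuation.ne_zero_iff V).2 hx)]

private theorem Ua_unif {F : Type} [Field F] [NumberField F] (v : HeightOneSpectrum (𝓞 F)) :
    ∃ ϖ : F, ϖ ≠ 0 ∧ ord (v.valuation F) ϖ = 1 := by
  obtain ⟨π, hπ⟩ := v.valuation_exists_uniformizer F
  refine ⟨π, ?_, ?_⟩
  · rintro rfl
    rw [map_zero] at hπ
    exact exp_ne_zero hπ.symm
  · unfold ord
    rw [hπ, log_exp]
    norm_num

theorem unram_ord {V : HeightOneSpectrum (𝓞 N)} (h : ¬ Ram K V) {x : K} (hx : x ≠ 0) :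
    ord (V.valuation N) (algebraMap K N x) = ord ((dn K V).valuation K) x := by
  obtain ⟨e, he, h1⟩ := ord_dn (K := K) V
  have h2 : ∃ p ∈ (dn K V).asIdeal, algebraMap (𝓞 K) (𝓞 N) p ∉ V.asIdeal ^ 2 := by
    by_contra hcon
    push Not at hcon
    apply h
    unfold Ram
    rw [Ideal.map_le_iff_le_comap]
    intro p hp
    exact hcon p hp
  obtain ⟨p, hp, hpV⟩ := h2
  have hp0 : p ≠ 0 := by
    rintro rfl
    apply hpV
    rw [map_zero]
    exact Ideal.zero_mem _
  have hpK : algebraMap (𝓞 K) K p ≠ 0 := by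
    intro h3
    exact hp0 (RingOfIntegers.coe_injective (by rw [h3, map_zero]))
  have h3 : (1 : ℤ) ≤ ord ((dn K V).valuation K) (algebraMap (𝓞 K) K p) := by
    have h4 := ((dn K V).valuation_lt_one_iff_mem (K := K) p).2 hp
    rw [Ua_eq hpK, ← exp_zero, exp_lt_exp] at h4
    omega
  have hpN : algebraMap K N (algebraMap (𝓞 K) K p) ≠ 0 := by
    intro h4
    exact hpK ((algebraMap K N).injective (by rw [h4, map_zero]))
  have h4 : ord (V.valuation N) (algebraMap K N (algebraMap (𝓞 K) K p)) ≤ 1 := by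
    by_contra h5
    apply hpV
    rw [← V.intValuation_le_pow_iff_mem, ← HeightOneSpectrum.valuation_of_algebraMap (K := N)]
    change V.valuation N (algebraMap K N (algebraMap (𝓞 K) K p)) ≤ _
    rw [Ua_eq hpN, exp_le_exp]
    push_cast
    omega
  have h5 := h1 _ hpK
  have h6 : (1 : ℤ) ≤ e := by exact_mod_cast he
  have h7 : (e : ℤ) = 1 := by nlinarith
  rw [h1 x hx, h7, one_mul]

variable {k : Type} [Field k] [NumberField k] [Algebra K k] [Algebra k N] [IsScalarTower K k N]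

theorem dn_dn (V : HeightOneSpectrum (𝓞 N)) : dn K (dn k V) = dn K V := by
  apply HeightOneSpectrum.ext
  ext x
  have e1 : algebraMap (𝓞 k) (𝓞 N) (algebraMap (𝓞 K) (𝓞 k) x) = algebraMap (𝓞 K) (𝓞 N) x := by
    apply RingOfIntegers.coe_injective
    change algebraMap k N (algebraMap K k (algebraMap (𝓞 K) K x)) =
      algebraMap K N (algebraMap (𝓞 K) K x)
    rw [← IsScalarTower.algebraMap_apply]
  change algebraMap (𝓞 k) (𝓞 N) (algebraMap (𝓞 K) (𝓞 k) x) ∈ V.asIdeal ↔
    algebraMap (𝓞 K) (𝓞 N) x ∈ V.asIdeal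
  rw [e1]

theorem unram_mid {V : HeightOneSpectrum (𝓞 N)} (h : ¬ Ram K V) :
    (∀ x : k, x ≠ 0 → ord (V.valuation N) (algebraMap k N x) = ord ((dn k V).valuation k) x) ∧
    ∀ x : K, x ≠ 0 → ord ((dn k V).valuation k) (algebraMap K k x) = ord ((dn K V).valuation K) x := by
  obtain ⟨e1, he1, h1⟩ := ord_dn (K := k) V
  obtain ⟨e2, he2, h2⟩ := ord_dn (K := K) (dn k V)
  rw [dn_dn] at h2
  obtain ⟨ϖ, h0, hϖ⟩ := Ua_unif (dn K V)
  have h0k : algebraMap K k ϖ ≠ 0 := by
    intro h3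
    exact h0 ((algebraMap K k).injective (by rw [h3, map_zero]))
  have h3 := unram_ord h h0
  rw [IsScalarTower.algebraMap_apply K k N, h1 _ h0k, h2 _ h0, hϖ, mul_one] at h3
  have h4 : e1 * e2 = 1 := by exact_mod_cast h3
  have h5 : e1 = 1 := Nat.eq_one_of_mul_eq_one_right h4
  have h6 : e2 = 1 := Nat.eq_one_of_mul_eq_one_left h4
  refine ⟨fun x hx => ?_, fun x hx => ?_⟩
  · rw [h1 x hx, h5]
    push_cast
    ring
  · rw [h2 x hx, h6]
    push_cast
    ring

theorem exists_gen {k' : Type} [Field k'] [NumberField k'] [Algebra k k'] [Algebra k' N]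
    [IsScalarTower k k' N] (two : Module.finrank k k' = 2) {V : HeightOneSpectrum (𝓞 N)}
    (h : ∀ x : k, x ≠ 0 → ord (V.valuation N) (algebraMap k N x) = ord ((dn k V).valuation k) x) :
    ∃ (D : k) (ρ : k'), ρ ^ 2 = algebraMap k k' D ∧ (∀ y : k, algebraMap k k' y ≠ ρ) ∧
      (dn k V).valuation k D = 1 := by
  obtain ⟨D₀, ρ₀, hD, hρ⟩ := exists_gen0 (k := k) (k' := k') two
  have hρ0 : ρ₀ ≠ 0 := fun h1 => hρ 0 (by rw [map_zero, h1])
  have hD0 : D₀ ≠ 0 := by
    rintro rfl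
    rw [map_zero] at hD
    exact hρ0 (pow_eq_zero_iff two_ne_zero |>.1 hD)
  have hN0 : algebraMap k' N ρ₀ ≠ 0 := by
    intro h3
    exact hρ0 ((algebraMap k' N).injective (by rw [h3, map_zero]))
  have hk0 : algebraMap k N D₀ ≠ 0 := by
    intro h3
    exact hD0 ((algebraMap k N).injective (by rw [h3, map_zero]))
  obtain ⟨m, hm⟩ : ∃ m : ℤ, ord ((dn k V).valuation k) D₀ = 2 * m := by
    refine ⟨ord (V.valuation N) (algebraMap k' N ρ₀), ?_⟩
    rw [← h D₀ hD0, IsScalarTower.algebraMap_apply k k' N, ← hD, map_pow]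
    unfold ord
    rw [map_pow, log_pow, nsmul_eq_mul]
    push_cast
    ring
  obtain ⟨ϖ, h0, hϖ⟩ := Ua_unif (dn k V)
  have hc0 : ϖ ^ (-m) ≠ 0 := zpow_ne_zero _ h0
  refine ⟨(ϖ ^ (-m)) ^ 2 * D₀, algebraMap k k' (ϖ ^ (-m)) * ρ₀, ?_, ?_, ?_⟩
  · rw [mul_pow, hD, map_mul, map_pow]
  · intro y hy
    apply hρ (y / ϖ ^ (-m))
    rw [map_div₀, hy, mul_comm, mul_div_assoc, div_self, mul_one]
    intro h3
    exact hc0 ((algebraMap k k').injective (by rw [h3, map_zero]))
  · have h1 : (ϖ ^ (-m)) ^ 2 * D₀ ≠ 0 := mul_ne_zero (pow_ne_zero 2 hc0) hD0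
    rw [Ua_eq h1]
    have h2 : ord ((dn k V).valuation k) ((ϖ ^ (-m)) ^ 2 * D₀) = 0 := by
      unfold ord at hm hϖ ⊢
      have g1 : (dn k V).valuation k ϖ ≠ 0 := (Valuation.ne_zero_iff _).2 h0
      have g2 : (dn k V).valuation k D₀ ≠ 0 := (Valuation.ne_zero_iff _).2 hD0
      rw [map_mul, map_pow, map_zpow₀, log_mul (pow_ne_zero 2 (zpow_ne_zero _ g1)) g2, log_pow,
        log_zpow, nsmul_eq_mul, smul_eq_mul]
      have g3 : ((dn k V).valuation k ϖ).log = -1 := by linarith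
      have g4 : ((dn k V).valuation k D₀).log = -(2 * m) := by linarith
      rw [g3, g4]
      push_cast
      ring
    rw [h2, neg_zero, exp_zero]

end

end H73P2
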