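import Mathlib

/-!
ROW Wb (project MP_78d38b_P2, about 130 lines, Mathlib only): an automorphism without fixed roots for an irreducible cubic.

PROOF. `f = X^3 + C a X + C b` has no root in `K`, so it is irreducible (degree three) and separable; in `L` (normal, with one root) it has three distinct
roots, and `G = L ≃ₐ[K] L` permutes them transitively. Let `R` be the finite set of the roots in `L` (`(f.map ..).roots.toFinset`, or `{θ : L | θ^3 + .. = 0}`), `#R = 3`.
Way 1 (Sylow): let `P` be a Sylow 3-subgroup of `G`. `3` divides `#G` (`finrank K K(θ) = 3` divides `finrank K L = #G`). For `θ ∈ R`: if all elements of `P` fix `θ` then `P ≤ fixingSubgroup K(θ)`, of order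
`#G / 3`, but `#P` is the full power of `3` in `#G` (`Sylow.card_eq_multiplicity`): contradiction. So there is `σ ∈ P` with `σ θ₁ ≠ θ₁` for a fixed root `θ₁`. The order of `σ` is a power of `3`. The permutation of `R` (three elements)
induced by `σ` has order a power of 3 and is not the identity, so it is a 3-cycle and has no fixed point: by hand: if `σ` fixed a root `θ₂` then `σ` permutes the other two roots `θ₁, θ₃`, `σ θ₁ = θ₃`, `σ θ₃ = θ₁`, so
`σ^2 θ₁ = θ₁`, and `σ^(3^s) = 1` with `3^s` odd gives `σ θ₁ = θ₁`, contradiction.
Way 2 (Jordan, elementary): suppose every `σ` fixes a root. The stabilisers `H_i` of the three roots have index 3 and cover `G`: `#G ≤ 3 (#G / 3) - 2` since they share the identity (`3` subgroups of order `#G/3` all containing `1`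
cover at most `3 (#G/3) - 2 < #G` elements): contradiction. [`#H_i = #G / 3`: `H_i` is the fixing subgroup of `K(θ_i)`, `IsGalois.card_fixingSubgroup_eq_finrank` and the tower formula.] This is the shorter way.
-/

set_option autoImplicit false
set_option linter.unusedSectionVars false

open WithZero NumberField IsDedekindDomain

namespace H73P2

/-- A transitive action of a finite group on a set with three elements has an element without
fixed points. -/
private theorem Wb_burnside {G X : Type} [Group G] [Finite G] [MulAction G X] [Finite X]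
    (ht : MulAction.IsPretransitive G X) (hc : Nat.card X = 3) :
    ∃ g : G, ∀ x : X, g • x ≠ x := by
  classical
  by_contra hcon
  push Not at hcon
  haveI := Fintype.ofFinite G
  haveI := Fintype.ofFinite X
  haveI : ∀ g : G, Fintype (MulAction.fixedBy X g) := fun g => Fintype.ofFinite _
  haveI : Nonempty X := by
    rw [← Finite.card_pos_iff, hc]
    norm_num
  haveI : Unique (MulAction.orbitRel.Quotient G X) := by
    haveI : Subsingleton (MulAction.orbitRel.Quotient G X) :=
      (MulAction.pretransitive_iff_subsingleton_quotient G X).1 ht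
    haveI : Nonempty (MulAction.orbitRel.Quotient G X) :=
      ⟨Quotient.mk (MulAction.orbitRel G X) (Classical.arbitrary X)⟩
    exact Classical.choice (nonempty_unique _)
  haveI : Fintype (Quotient (MulAction.orbitRel G X)) := Fintype.ofFinite _
  have h1 := MulAction.sum_card_fixedBy_eq_card_orbits_mul_card_group G X
  have h2 : Fintype.card (Quotient (MulAction.orbitRel G X)) = 1 := by
    rw [Fintype.card_eq_one_iff_nonempty_unique]
    exact ⟨inferInstanceAs (Unique (MulAction.orbitRel.Quotient G X))⟩
  rw [h2, one_mul] at h1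
  have h3 : ∀ g : G, 1 ≤ Fintype.card (MulAction.fixedBy X g) := by
    intro g
    obtain ⟨x, hx⟩ := hcon g
    exact Fintype.card_pos_iff.2 ⟨⟨x, hx⟩⟩
  have h4 : 3 ≤ Fintype.card (MulAction.fixedBy X (1 : G)) := by
    rw [← hc, Nat.card_eq_fintype_card]
    refine Fintype.card_le_of_injective (fun x => ⟨x, by simp⟩) ?_
    intro x y h
    exact congrArg Subtype.val h
  have h5 : ∑ g : G, 1 < ∑ g : G, Fintype.card (MulAction.fixedBy X g) := by
    refine Finset.sum_lt_sum (fun g _ => h3 g) ⟨1, Finset.mem_univ _, ?_⟩
    omega
  rw [h1, Finset.sum_const, Finset.card_univ, smul_eq_mul, mul_one] at h5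
  exact lt_irrefl _ h5

theorem exists_fixfree {K L : Type} [Field K] [CharZero K] [Field L] [Algebra K L]
    [FiniteDimensional K L] [IsGalois K L] {a b : K} (hirr : ∀ t : K, t ^ 3 + a * t + b ≠ 0)
    (hroot : ∃ θ : L, θ ^ 3 + algebraMap K L a * θ + algebraMap K L b = 0) :
    ∃ σ : L ≃ₐ[K] L, ∀ θ : L, θ ^ 3 + algebraMap K L a * θ + algebraMap K L b = 0 → σ θ ≠ θ := by
  classical
  obtain ⟨θ, hθ⟩ := hroot
  obtain ⟨p, hp⟩ : ∃ p : Polynomial K, p = Polynomial.X ^ 3 + Polynomial.C a * Polynomial.X +
    Polynomial.C b := ⟨_, rfl⟩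
  have hdeg : p.natDegree = 3 := by
    rw [hp]
    compute_degree!
  have hmon : p.Monic := by
    rw [hp]
    monicity!
  have hp0 : p ≠ 0 := hmon.ne_zero
  have hpirr : Irreducible p := by
    refine Polynomial.irreducible_of_degree_le_three_of_not_isRoot ?_ ?_
    · rw [hdeg]
      decide
    · intro t ht
      apply hirr t
      rw [hp] at ht
      simpa [Polynomial.IsRoot] using ht
  have haev : ∀ x : L, Polynomial.aeval x p = x ^ 3 + algebraMap K L a * x + algebraMap K L b := by
    intro x
    rw [hp]
    simp
  have hmin : p = minpoly K θ :=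
    minpoly.eq_of_irreducible_of_monic hpirr (by rw [haev]; exact hθ) hmon
  have hspl : (p.map (algebraMap K L)).Splits := by
    rw [hmin]
    exact Normal.splits inferInstance θ
  haveI : Fact ((p.map (algebraMap K L)).Splits) := ⟨hspl⟩
  have hsep : p.Separable := hpirr.separable
  have hcard : Nat.card (p.rootSet L) = 3 := by
    rw [Nat.card_eq_fintype_card, Polynomial.card_rootSet_eq_natDegree hsep hspl, hdeg]
  obtain ⟨g, hg⟩ := Wb_burnside (G := p.Gal) (X := p.rootSet L)
    (Polynomial.Gal.galAction_isPretransitive p L hpirr) hcard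
  obtain ⟨σ, hσ⟩ := Polynomial.Gal.restrict_surjective p L g
  refine ⟨σ, fun t ht hst => ?_⟩
  have hmem : t ∈ p.rootSet L := by
    rw [Polynomial.mem_rootSet]
    exact ⟨hp0, by rw [haev]; exact ht⟩
  apply hg ⟨t, hmem⟩
  apply Subtype.ext
  rw [← hσ, Polynomial.Gal.restrict_smul]
  exact hst

end H73P2
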