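import Pool.Agent.H73.P2.Df
import Pool.Agent.H73.P2.Wb
import Pool.Agent.H93.T1.Cf

/-!
ROW Wc (project MP_78d38b_P2, about 200 lines): infinitely many primes modulo which the cubic has no root. Use only the STATEMENTS
`exists_fixfree` (Wb) and `frob_inf` (`Pool/Agent/H93/T1/Cf.lean`).

PROOF. Choose a nonzero integer `m` with `A = m^4 a`, `B = m^6 b` in `𝓞 K`; `x^3 + A x + B` has no root in `K` (scale by `m^2`), and `NoRootAt v a b` holds with `c = m⁻¹`, `a' = A`, `b' = B` as soon as `v.valuation (t^3 + A t + B) = 1` for all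
`v`-integral `t`; and it suffices to show that `t^3 + A t + B ∉ v` for all `t : 𝓞 K` (replace a `v`-integral `t` by an integer congruent to it modulo `v`: `HeightOneSpectrum.exists_primeCompl_mul_eq_of_integer` and an inverse
modulo `v`, or `exists_valuation_sub_lt_of_integer`; the valuation of an element of `𝓞 K` not in `v` is one).
A field `L`: number field, Galois over `ℚ`, with an embedding `K → L` and a root of the cubic in `L`: let `L₀ = SplittingField (X^3 + C A X + C B)` over `K`, a number field, and `L` the normal closure of `L₀ / ℚ` (`normalClosure ℚ L₀ (AlgebraicClosure L₀)`),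
or directly the splitting field over `ℚ` of the product of the minimal polynomials of a primitive element; give it the structure of a `K`-algebra. `L / K` is Galois too (`IsGalois.tower_top_of_isScalarTower`).
`exists_fixfree` gives `σ : L ≃ₐ[K] L` without fixed roots; `σ₀ := σ.restrictScalars ℚ`. All roots are in `L` (normality), they are integers of `L`, `x^3 + A x + B = (x - θ₁)(x - θ₂)(x - θ₃)`, and they are distinct; let `δ = (θ₁-θ₂)(θ₁-θ₃)(θ₂-θ₃) ≠ 0`. Let
`n = |N(δ)| > 0`.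
`frob_inf σ₀`: infinitely many primes `p`; discard the finitely many `p` dividing `n`. Let `p, j, w` be as in the statement, and `v = w ∩ 𝓞 K` (`dn K w` for `L / K`). Suppose `t : 𝓞 K` and `t^3 + A t + B ∈ v`. Then one of the `t - θ_i` is in `w`.
`(σ₀^j) • t = t` (`t ∈ K`), so `t - t^p ∈ w`; `(σ₀^j) • θ_i - θ_i^p ∈ w`, and `θ_i^p ≡ t^p ≡ t ≡ θ_i`. So `(σ₀^j) θ_i ≡ θ_i` modulo `w`. `σ₀^j θ_i` is a root. If it is different from `θ_i` then `w` contains the difference of two different roots, so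
`δ ∈ w`, `n ∈ w ∩ ℤ`, `p ∣ n`: excluded. So `σ₀^j θ_i = θ_i`; since `j` is coprime to the order of `σ₀`, `σ₀` is a power of `σ₀^j` (`exists_pow_eq_self_of_coprime`), so `σ θ_i = θ_i`: contradiction.
So `NoRootAt v a b`. The places `v` obtained from different `p` are different (`p ∈ v`), so there are infinitely many (`Set.infinite_of_injOn_mapsTo`).
-/

set_option autoImplicit false
set_option linter.unusedSectionVars false
open scoped Classical

open WithZero NumberField IsDedekindDomain H38RT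
open H38T1 (SC sc scu rep eo la si Pri OddP tp unif)
open H76PP

namespace H73P2

/-- the algebra structure over the rationals does not matter -/
theorem Wc_gal {L : Type} [Field L] (i j : Algebra ℚ L) (h : @IsGalois ℚ _ L _ i) :
    @IsGalois ℚ _ L _ j := by
  rw [Subsingleton.elim j i]
  exact h

/-- a Galois field with a root -/
theorem Wc_field {K : Type} [Field K] [NumberField K] (a b : K) :
    ∃ (L : Type) (_ : Field L) (_ : NumberField L) (_ : IsGalois ℚ L) (_ : Algebra K L),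
      ∃ θ : L, θ ^ 3 + algebraMap K L a * θ + algebraMap K L b = 0 := by
  have hdeg : (Polynomial.X ^ 3 + Polynomial.C (algebraMap K (AlgebraicClosure K) a) * Polynomial.X +
      Polynomial.C (algebraMap K (AlgebraicClosure K) b)).degree ≠ 0 := by
    have h1 : (Polynomial.X ^ 3 + Polynomial.C (algebraMap K (AlgebraicClosure K) a) * Polynomial.X +
      Polynomial.C (algebraMap K (AlgebraicClosure K) b)).degree = 3 := by
      compute_degree!
    rw [h1]; norm_num
  obtain ⟨θ, hθ⟩ := IsAlgClosed.exists_root _ hdeg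
  simp only [Polynomial.IsRoot.def, Polynomial.eval_add, Polynomial.eval_pow, Polynomial.eval_X,
    Polynomial.eval_mul, Polynomial.eval_C] at hθ
  have hint : IsIntegral K θ := Algebra.IsIntegral.isIntegral θ
  let E : IntermediateField K (AlgebraicClosure K) := IntermediateField.adjoin K {θ}
  have : FiniteDimensional K E := IntermediateField.adjoin.finiteDimensional hint
  have : FiniteDimensional ℚ E := FiniteDimensional.trans ℚ K E
  have hN : Normal ℚ (AlgebraicClosure K) := by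
    have h1 : Algebra.IsAlgebraic ℚ (AlgebraicClosure K) := Algebra.IsAlgebraic.trans ℚ K _
    have h2 : IsAlgClosure ℚ (AlgebraicClosure K) := ⟨inferInstance, h1⟩
    exact IsAlgClosure.normal ℚ (AlgebraicClosure K)
  let L := IntermediateField.normalClosure ℚ E (AlgebraicClosure K)
  have i1 : FiniteDimensional ℚ L := inferInstance
  have i2 : Normal ℚ L := normalClosure.normal ℚ E (AlgebraicClosure K)
  have i3 : NumberField L := ⟨⟩
  have i4 : IsGalois ℚ L := ⟨⟩
  refine ⟨L, inferInstance, i3, Wc_gal _ _ i4, ((algebraMap E L).comp (algebraMap K E)).toAlgebra,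
    algebraMap E L ⟨θ, IntermediateField.mem_adjoin_simple_self K θ⟩, ?_⟩
  apply (algebraMap L (AlgebraicClosure K)).injective
  rw [map_zero, ← hθ, map_add, map_add, map_pow, map_mul]
  rfl


/-- two different primes are not in one prime ideal -/
theorem Wc_coprime {R : Type} [CommRing R] {I : Ideal R} (hI : I ≠ ⊤) {p n : ℕ} (hp : p.Prime)
    (h1 : (p : R) ∈ I) (h2 : (n : R) ∈ I) : p ∣ n := by
  by_contra hpn
  have hc : p.Coprime n := (hp.coprime_iff_not_dvd).2 hpn
  have h3 : IsCoprime (p : ℤ) (n : ℤ) := Nat.isCoprime_iff_coprime.2 hc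
  obtain ⟨x, y, hxy⟩ := h3
  apply hI
  rw [Ideal.eq_top_iff_one]
  have h4 : (x : R) * p + (y : R) * n = 1 := by exact_mod_cast congrArg (Int.cast : ℤ → R) hxy
  rw [← h4]
  exact I.add_mem (I.mul_mem_left _ h1) (I.mul_mem_left _ h2)

/-- it suffices to look at the integers of the field -/
theorem Wc_noroot {K : Type} [Field K] [NumberField K] {a b : K} (m A B : 𝓞 K) (hm : m ≠ 0)
    (hA : (A : K) = (m : K) ^ 4 * a) (hB : (B : K) = (m : K) ^ 6 * b)
    (v : HeightOneSpectrum (𝓞 K)) (h : ∀ t : 𝓞 K, t ^ 3 + A * t + B ∉ v.asIdeal) :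
    NoRootAt v a b := by
  have hm' : (m : K) ≠ 0 := by
    intro h0
    exact hm (RingOfIntegers.coe_eq_zero_iff.1 h0)
  refine ⟨(m : K)⁻¹, A, B, inv_ne_zero hm', ?_, ?_, v.valuation_le_one A, v.valuation_le_one B, ?_⟩
  · rw [hA]; field_simp
  · rw [hB]; field_simp
  · intro t ht
    have hle : v.valuation K (t ^ 3 + A * t + B) ≤ 1 := by
      have hi : t ^ 3 + A * t + B ∈ (v.valuation K).integer := by
        refine Subring.add_mem _ (Subring.add_mem _ (Subring.pow_mem _ ht 3)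
          (Subring.mul_mem _ (v.valuation_le_one A) ht)) (v.valuation_le_one B)
      exact hi
    refine le_antisymm hle (not_lt.1 fun hlt => ?_)
    obtain ⟨s, hs⟩ := v.exists_valuation_sub_lt_of_integer ht 1
    rw [Units.val_one] at hs
    refine h s ?_
    have hs1 : v.valuation K (s : K) ≤ 1 := v.valuation_le_one s
    have e : ((s ^ 3 + A * s + B : 𝓞 K) : K) = (t ^ 3 + A * t + B) +
        ((s : K) - t) * ((s : K) ^ 2 + s * t + t ^ 2 + A) := by
      push_cast; ring
    have h5 : v.valuation K ((s : K) ^ 2 + s * t + t ^ 2 + A) ≤ 1 := by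
      have hi : (s : K) ^ 2 + s * t + t ^ 2 + A ∈ (v.valuation K).integer :=
        Subring.add_mem _ (Subring.add_mem _ (Subring.add_mem _ (Subring.pow_mem _ hs1 2)
          (Subring.mul_mem _ hs1 ht)) (Subring.pow_mem _ ht 2)) (v.valuation_le_one A)
      exact hi
    have h6 : v.valuation K ((s ^ 3 + A * s + B : 𝓞 K) : K) < 1 := by
      rw [e]
      refine lt_of_le_of_lt (Valuation.map_add _ _ _) (max_lt hlt ?_)
      rw [map_mul]
      exact mul_lt_one_of_nonneg_of_lt_one_left (zero_le) hs h5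
    exact (v.valuation_lt_one_iff_mem _).1 h6

/-- the argument at one prime ideal -/
theorem Wc_one {K L : Type} [Field K] [NumberField K] [Field L] [NumberField L] [Algebra K L]
    (A B : 𝓞 K) (σ : L ≃ₐ[K] L)
    (hfix : ∀ θ : L, θ ^ 3 + algebraMap K L A * θ + algebraMap K L B = 0 → σ θ ≠ θ)
    (x : Fin 3 → 𝓞 L) (hsplit : ∀ t : 𝓞 L, t ^ 3 + algebraMap (𝓞 K) (𝓞 L) A * t +
      algebraMap (𝓞 K) (𝓞 L) B = (t - x 0) * (t - x 1) * (t - x 2))
    (w : HeightOneSpectrum (𝓞 L)) {p j : ℕ}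
    (hj : j.Coprime (orderOf (σ.restrictScalars ℚ)))
    (hw : ∀ x : 𝓞 L, ((σ.restrictScalars ℚ) ^ j) • x - x ^ p ∈ w.asIdeal)
    (hδ : (x 0 - x 1) * (x 0 - x 2) * (x 1 - x 2) ∉ w.asIdeal) (t : 𝓞 K) :
    algebraMap (𝓞 K) (𝓞 L) (t ^ 3 + A * t + B) ∉ w.asIdeal := by
  intro hmem
  set τ : L ≃ₐ[ℚ] L := σ.restrictScalars ℚ with hτ
  set s : 𝓞 L := algebraMap (𝓞 K) (𝓞 L) t with hs
  have hsm : ∀ (g : L ≃ₐ[ℚ] L) (y : 𝓞 L), ((g • y : 𝓞 L) : L) = g (y : L) := fun g y => rfl
  -- the powers of `τ` fix `s`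
  have hfixs : ∀ n : ℕ, (τ ^ n) • s = s := by
    intro n
    induction n with
    | zero => rw [pow_zero, one_smul]
    | succ n ih =>
      rw [pow_succ, mul_smul]
      have h1 : τ • s = s := by
        apply RingOfIntegers.ext
        rw [hsm]
        exact σ.commutes (t : K)
      rw [h1, ih]
  have hmem2 : (s - x 0) * (s - x 1) * (s - x 2) ∈ w.asIdeal := by
    rw [← hsplit, hs, ← map_pow, ← map_mul, ← map_add, ← map_add]
    exact hmem
  have hi : ∃ i : Fin 3, s - x i ∈ w.asIdeal := by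
    rcases w.isPrime.mem_or_mem hmem2 with h1 | h1
    · rcases w.isPrime.mem_or_mem h1 with h2 | h2
      · exact ⟨0, h2⟩
      · exact ⟨1, h2⟩
    · exact ⟨2, h1⟩
  obtain ⟨i, hi⟩ := hi
  have h1 : s - s ^ p ∈ w.asIdeal := by
    have := hw s
    rwa [hfixs] at this
  have h2 : (τ ^ j) • x i - x i ^ p ∈ w.asIdeal := hw (x i)
  have h3 : s ^ p - x i ^ p ∈ w.asIdeal := by
    obtain ⟨c, hc⟩ := sub_dvd_pow_sub_pow s (x i) p
    rw [hc]
    exact w.asIdeal.mul_mem_right _ hi
  have h4 : (τ ^ j) • x i - x i ∈ w.asIdeal := by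
    have e : (τ ^ j) • x i - x i = ((τ ^ j) • x i - x i ^ p) - (s ^ p - x i ^ p) - (s - s ^ p) +
        (s - x i) := by ring
    rw [e]
    exact w.asIdeal.add_mem (w.asIdeal.sub_mem (w.asIdeal.sub_mem h2 h3) h1) hi
  -- the image is a root
  have hroots : ∀ k : Fin 3, (x k) ^ 3 + algebraMap (𝓞 K) (𝓞 L) A * x k +
      algebraMap (𝓞 K) (𝓞 L) B = 0 := by
    intro k
    rw [hsplit]
    fin_cases k <;> simp
  have hcomm : ∀ (n : ℕ) (C : 𝓞 K), (τ ^ n) • (algebraMap (𝓞 K) (𝓞 L) C) =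
      algebraMap (𝓞 K) (𝓞 L) C := by
    intro n C
    induction n with
    | zero => rw [pow_zero, one_smul]
    | succ n ih =>
      rw [pow_succ, mul_smul]
      have h1 : τ • (algebraMap (𝓞 K) (𝓞 L) C) = algebraMap (𝓞 K) (𝓞 L) C := by
        apply RingOfIntegers.ext
        rw [hsm]
        exact σ.commutes (C : K)
      rw [h1, ih]
  have hroot' : ((τ ^ j) • x i) ^ 3 + algebraMap (𝓞 K) (𝓞 L) A * ((τ ^ j) • x i) +
      algebraMap (𝓞 K) (𝓞 L) B = 0 := by
    have h5 := congrArg (fun y : 𝓞 L => (τ ^ j) • y) (hroots i)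
    simp only [smul_add, smul_mul', smul_pow', smul_zero, hcomm] at h5
    exact h5
  have hk : ∃ k : Fin 3, (τ ^ j) • x i = x k := by
    rw [hsplit] at hroot'
    rcases mul_eq_zero.1 hroot' with h5 | h5
    · rcases mul_eq_zero.1 h5 with h6 | h6
      · exact ⟨0, sub_eq_zero.1 h6⟩
      · exact ⟨1, sub_eq_zero.1 h6⟩
    · exact ⟨2, sub_eq_zero.1 h5⟩
  obtain ⟨k, hk⟩ := hk
  rw [hk] at h4
  have hki : k = i := by
    by_contra hne
    apply hδ
    have key : ∀ i k : Fin 3, k ≠ i → x k - x i ∈ w.asIdeal →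
        (x 0 - x 1) * (x 0 - x 2) * (x 1 - x 2) ∈ w.asIdeal := by
      intro i k hne h
      have h' : x i - x k ∈ w.asIdeal := by
        rw [← neg_sub]; exact w.asIdeal.neg_mem h
      fin_cases i <;> fin_cases k <;> first
        | exact absurd rfl hne
        | exact w.asIdeal.mul_mem_right _ (w.asIdeal.mul_mem_right _ h)
        | exact w.asIdeal.mul_mem_right _ (w.asIdeal.mul_mem_right _ h')
        | exact w.asIdeal.mul_mem_right _ (w.asIdeal.mul_mem_left _ h)
        | exact w.asIdeal.mul_mem_right _ (w.asIdeal.mul_mem_left _ h')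
        | exact w.asIdeal.mul_mem_left _ h
        | exact w.asIdeal.mul_mem_left _ h'
    exact key i k hne h4
  rw [hki] at hk
  -- so `τ` fixes the root
  obtain ⟨n, hn⟩ := exists_pow_eq_self_of_coprime hj
  have h7 : ∀ n : ℕ, ((τ ^ j) ^ n) • x i = x i := by
    intro n
    induction n with
    | zero => rw [pow_zero, one_smul]
    | succ n ih => rw [pow_succ, mul_smul, hk, ih]
  have h8 : τ • x i = x i := by
    have := h7 n
    rwa [hn] at this
  have h9 : σ ((x i : 𝓞 L) : L) = ((x i : 𝓞 L) : L) := by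
    have h10 := congrArg (fun y : 𝓞 L => (y : L)) h8
    exact h10
  refine hfix _ ?_ h9
  have h11 := congrArg (algebraMap (𝓞 L) L) (hroots i)
  rw [map_add, map_add, map_pow, map_mul, map_zero] at h11
  exact h11

theorem inf_noroot {K : Type} [Field K] [NumberField K] {a b : K}
    (hirr : ∀ t : K, t ^ 3 + a * t + b ≠ 0) :
    {v : HeightOneSpectrum (𝓞 K) | NoRootAt v a b}.Infinite := by
  -- integral coefficients
  obtain ⟨m, A, B, hm, hA, hB⟩ : ∃ m A B : 𝓞 K, m ≠ 0 ∧ (A : K) = (m : K) ^ 4 * a ∧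
      (B : K) = (m : K) ^ 6 * b := by
    obtain ⟨⟨A₁, m₁⟩, h1⟩ := IsLocalization.surj (nonZeroDivisors (𝓞 K)) a
    obtain ⟨⟨B₁, m₂⟩, h2⟩ := IsLocalization.surj (nonZeroDivisors (𝓞 K)) b
    simp only at h1 h2
    refine ⟨m₁ * m₂, m₁ ^ 3 * m₂ ^ 4 * A₁, m₁ ^ 6 * m₂ ^ 5 * B₁, ?_, ?_, ?_⟩
    · exact mul_ne_zero (nonZeroDivisors.ne_zero m₁.2) (nonZeroDivisors.ne_zero m₂.2)
    · change algebraMap (𝓞 K) K _ = (algebraMap (𝓞 K) K _) ^ 4 * a
      rw [map_mul, map_mul, map_mul, map_pow, map_pow, ← h1]; ring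
    · change algebraMap (𝓞 K) K _ = (algebraMap (𝓞 K) K _) ^ 6 * b
      rw [map_mul, map_mul, map_mul, map_pow, map_pow, ← h2]; ring
  have hm' : (m : K) ≠ 0 := fun h0 => hm (RingOfIntegers.coe_eq_zero_iff.1 h0)
  have hirr' : ∀ t : K, t ^ 3 + (A : K) * t + (B : K) ≠ 0 := by
    intro t ht
    apply hirr (t / (m : K) ^ 2)
    rw [hA, hB] at ht
    have h1 : (t / (m : K) ^ 2) ^ 3 + a * (t / (m : K) ^ 2) + b =
        (t ^ 3 + (m : K) ^ 4 * a * t + (m : K) ^ 6 * b) / (m : K) ^ 6 := by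
      field_simp
    rw [h1, ht, zero_div]
  -- the field
  obtain ⟨L, _, _, _, _, θ, hθ⟩ := Wc_field (A : K) (B : K)
  have : FiniteDimensional K L := FiniteDimensional.right ℚ K L
  have : IsGalois K L := IsGalois.tower_top_of_isGalois ℚ K L
  obtain ⟨σ, hσ⟩ := exists_fixfree hirr' ⟨θ, hθ⟩
  -- the three roots
  have hroot2 : (σ θ) ^ 3 + algebraMap K L A * σ θ + algebraMap K L B = 0 := by
    have h1 := congrArg σ hθ
    rw [map_add, map_add, map_pow, map_mul, map_zero, AlgEquiv.commutes, AlgEquiv.commutes] at h1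
    exact h1
  have hne : σ θ - θ ≠ 0 := sub_ne_zero.2 (hσ θ hθ)
  have hAe : algebraMap K L A = -(θ ^ 2 + θ * σ θ + (σ θ) ^ 2) := by
    have h1 : (σ θ - θ) * (θ ^ 2 + θ * σ θ + (σ θ) ^ 2 + algebraMap K L A) = 0 := by
      linear_combination hroot2 - hθ
    rcases mul_eq_zero.1 h1 with h2 | h2
    · exact absurd h2 hne
    · linear_combination h2
  have hBe : algebraMap K L B = θ * σ θ * (θ + σ θ) := by
    rw [hAe] at hθ
    linear_combination hθ
  have hroot3 : (-(θ + σ θ)) ^ 3 + algebraMap K L A * (-(θ + σ θ)) + algebraMap K L B = 0 := by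
    rw [hAe, hBe]; ring
  have hsplit : ∀ t : L, t ^ 3 + algebraMap K L A * t + algebraMap K L B =
      (t - θ) * (t - σ θ) * (t - (-(θ + σ θ))) := by
    intro t
    rw [hAe, hBe]; ring
  have hswap : σ (σ θ) ≠ θ := by
    intro h1
    apply hσ _ hroot3
    rw [map_neg, map_add, h1, add_comm]
  have hss : ∀ t : L, t ^ 3 + algebraMap K L A * t + algebraMap K L B = 0 →
      t = θ ∨ t = σ θ ∨ t = -(θ + σ θ) := by
    intro t ht
    rw [hsplit t, mul_eq_zero, mul_eq_zero, sub_eq_zero, sub_eq_zero, sub_eq_zero] at ht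
    tauto
  have hroot22 : (σ (σ θ)) ^ 3 + algebraMap K L A * σ (σ θ) + algebraMap K L B = 0 := by
    have h1 := congrArg σ hroot2
    rw [map_add, map_add, map_pow, map_mul, map_zero, AlgEquiv.commutes, AlgEquiv.commutes] at h1
    exact h1
  have h33 : σ (σ θ) = -(θ + σ θ) := by
    rcases hss _ hroot22 with h1 | h1 | h1
    · exact absurd h1 hswap
    · exact absurd h1 (hσ _ hroot2)
    · exact h1
  have hne13 : θ - (-(θ + σ θ)) ≠ 0 := by
    rw [← h33]
    exact sub_ne_zero.2 (Ne.symm hswap)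
  have hne23 : σ θ - (-(θ + σ θ)) ≠ 0 := by
    rw [← h33]
    exact sub_ne_zero.2 (Ne.symm (hσ _ hroot2))
  have hne12 : θ - σ θ ≠ 0 := sub_ne_zero.2 (Ne.symm (hσ θ hθ))
  -- the roots are integral
  have hint : ∀ z : L, z ^ 3 + algebraMap K L A * z + algebraMap K L B = 0 → IsIntegral ℤ z := by
    intro z hz
    have h1 : IsIntegral (𝓞 K) z := by
      refine ⟨Polynomial.X ^ 3 + Polynomial.C A * Polynomial.X + Polynomial.C B, by monicity!, ?_⟩
      simp only [Polynomial.eval₂_add, Polynomial.eval₂_mul, Polynomial.eval₂_pow,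
        Polynomial.eval₂_X, Polynomial.eval₂_C]
      exact hz
    exact isIntegral_trans z h1
  let x : Fin 3 → 𝓞 L := ![⟨θ, hint _ hθ⟩, ⟨σ θ, hint _ hroot2⟩, ⟨-(θ + σ θ), hint _ hroot3⟩]
  have hx : ∀ t : 𝓞 L, t ^ 3 + algebraMap (𝓞 K) (𝓞 L) A * t + algebraMap (𝓞 K) (𝓞 L) B =
      (t - x 0) * (t - x 1) * (t - x 2) := by
    intro t
    apply RingOfIntegers.ext
    exact hsplit (t : L)
  set δ : 𝓞 L := (x 0 - x 1) * (x 0 - x 2) * (x 1 - x 2) with hδ
  have hδ0 : δ ≠ 0 := by
    intro h0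
    have h1 : (θ - σ θ) * (θ - (-(θ + σ θ))) * (σ θ - (-(θ + σ θ))) = 0 :=
      congrArg (algebraMap (𝓞 L) L) h0
    exact mul_ne_zero (mul_ne_zero hne12 hne13) hne23 h1
  set n : ℕ := Ideal.absNorm (Ideal.span {δ}) with hn
  have hn0 : n ≠ 0 := by
    rw [hn, Ne, Ideal.absNorm_eq_zero_iff, Ideal.span_singleton_eq_bot]
    exact hδ0
  -- the primes
  have hP := H93T1.frob_inf (σ.restrictScalars ℚ)
  have hfin : {p : ℕ | p ∣ n}.Finite :=
    (Nat.divisors n).finite_toSet.subset fun p hp => by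
      simpa using ⟨hp, hn0⟩
  have hP' := hP.sdiff hfin
  intro hT
  apply hP'
  refine (hT.biUnion (t := fun v => {p : ℕ | p.Prime ∧ (p : 𝓞 K) ∈ v.asIdeal}) fun v _ => ?_).subset
    ?_
  · refine Set.Subsingleton.finite fun p hp q hq => ?_
    exact (Nat.prime_dvd_prime_iff_eq hp.1 hq.1).1 (Wc_coprime v.isPrime.ne_top hp.1 hp.2 hq.2)
  · rintro p ⟨⟨hp, j, w, hj, hpw, hw⟩, hpn⟩
    have hδw : δ ∉ w.asIdeal := by
      intro h1
      apply hpn
      refine Wc_coprime w.isPrime.ne_top hp hpw ?_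
      exact (Ideal.span_singleton_le_iff_mem _).2 h1 (Ideal.absNorm_mem (Ideal.span {δ}))
    have hpv : (p : 𝓞 K) ∈ w.asIdeal.comap (algebraMap (𝓞 K) (𝓞 L)) := by
      rw [Ideal.mem_comap, map_natCast]
      exact hpw
    have hprime : (w.asIdeal.comap (algebraMap (𝓞 K) (𝓞 L))).IsPrime := by
      have := w.isPrime
      exact Ideal.comap_isPrime _ _
    have hbot : w.asIdeal.comap (algebraMap (𝓞 K) (𝓞 L)) ≠ ⊥ := by
      intro h0
      rw [h0, Ideal.mem_bot] at hpv
      exact hp.ne_zero (by exact_mod_cast hpv)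
    refine Set.mem_iUnion₂.2 ⟨⟨_, hprime, hbot⟩, ?_, hp, hpv⟩
    refine Wc_noroot m A B hm hA hB _ fun t ht => ?_
    exact Wc_one A B σ hσ x hx w hj hw hδw t ht

end H73P2
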