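import Pool.Agent.H73.P2.Df
import Pool.Agent.H76.PP.Th
import Pool.Agent.H36.MT.Dg

/-!
ROW Wd (project MP_78d38b_P2, about 110 lines): the modulus and local squares.

PROOF. exists_mod: `m = span {8} * ∏ v ∈ S, v.asIdeal`, nonzero. For `v ∈ S`: let `j` be the multiplicity of `v` in `span {8}` (`span {8} ≤ v^j`, and `v.valuation K 8 = exp (-j)`:
`HeightOneSpectrum.intValuation_eq_exp_neg_multiplicity`, or use `intValuation_le_pow_iff_mem`: choose `j` with `v.valuation K 8 = exp (-j)`, `8 ∈ v^j`); then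
`m ≤ v^j * v = v^(j+1)` and `exp (-(j+1)) < exp (-j) = v.valuation 8 ≤ v.valuation 4` (`v.valuation 8 = v.valuation 4 * v.valuation 2`, `v.valuation 2 ≤ 1`). `k = j + 1`.
sq_loc: in the completion `D = 1 + x` with `Valued.v x < Valued.v 4` (`valuedAdicCompletion_eq_valuation'`); `Pool.Agent.H10.isSquare_one_add` (`Pool/Agent/H10/GrHen.lean`), used in the same way in `sq_two` of `Pool/Agent/H76/PP/Th.lean`.
-/

set_option autoImplicit false
set_option linter.unusedSectionVars false
open scoped Classical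

open WithZero NumberField IsDedekindDomain H38RT
open H38T1 (SC sc scu rep eo la si Pri OddP tp unif)
open H76PP

namespace H73P2

theorem exists_mod {K : Type} [Field K] [NumberField K] (S : Finset (HeightOneSpectrum (𝓞 K))) :
    ∃ m : Ideal (𝓞 K), m ≠ ⊥ ∧ ∀ v ∈ S, ∃ k : ℕ, 0 < k ∧ m ≤ v.asIdeal ^ k ∧
      exp (-(k : ℤ)) < v.valuation K 4 := by
  have h80 : (8 : 𝓞 K) ≠ 0 := by norm_num
  refine ⟨Ideal.span {8} * ∏ v ∈ S, v.asIdeal, ?_, ?_⟩
  · rw [← Ideal.zero_eq_bot]
    refine mul_ne_zero ?_ (Finset.prod_ne_zero_iff.2 fun v _ => ?_)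
    · rw [Ideal.zero_eq_bot, Ne, Ideal.span_singleton_eq_bot]
      exact h80
    · rw [Ideal.zero_eq_bot]
      exact v.ne_bot
  · intro v hv
    obtain ⟨t, ht⟩ : ∃ t : ℤ, v.intValuation (8 : 𝓞 K) = exp t :=
      ⟨_, (exp_log (v.intValuation_ne_zero _ h80)).symm⟩
    have ht0 : t ≤ 0 := by
      have h := v.intValuation_le_one (8 : 𝓞 K)
      rw [ht, ← exp_zero, exp_le_exp] at h
      exact h
    obtain ⟨j, hj⟩ : ∃ j : ℕ, t = -(j : ℤ) := ⟨(-t).toNat, by omega⟩
    have h8 : (8 : 𝓞 K) ∈ v.asIdeal ^ j := by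
      rw [← v.intValuation_le_pow_iff_mem, ht, hj]
    refine ⟨j + 1, Nat.succ_pos j, ?_, ?_⟩
    · rw [pow_succ]
      refine Ideal.mul_mono ?_ (Ideal.le_of_dvd (Finset.dvd_prod_of_mem _ hv))
      rw [Ideal.span_singleton_le_iff_mem]
      exact h8
    · have e8 : v.valuation K 8 = exp (-(j : ℤ)) := by
        have e : (8 : K) = algebraMap (𝓞 K) K 8 := by rw [map_ofNat]
        rw [e, v.valuation_of_algebraMap, ht, hj]
      have h2 : v.valuation K 2 ≤ 1 := val_two_le v
      have h48 : v.valuation K 8 ≤ v.valuation K 4 := by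
        have e1 : (8 : K) = 4 * 2 := by norm_num
        rw [e1, map_mul]
        calc v.valuation K 4 * v.valuation K 2 ≤ v.valuation K 4 * 1 := mul_le_mul_right h2 _
          _ = v.valuation K 4 := mul_one _
      refine lt_of_lt_of_le ?_ h48
      rw [e8, exp_lt_exp]
      push_cast
      omega

theorem sq_loc {K : Type} [Field K] [NumberField K] {v : HeightOneSpectrum (𝓞 K)} {D : K}
    (h : v.valuation K (D - 1) < v.valuation K 4) :
    ∃ r : v.adicCompletion K, algebraMap K (v.adicCompletion K) D = r ^ 2 := by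
  have hval : ∀ k : K, (Valued.v (algebraMap K (v.adicCompletion K) k) :
      WithZero (Multiplicative ℤ)) = v.valuation K k := fun k =>
    HeightOneSpectrum.valuedAdicCompletion_eq_valuation' v k
  have h20 : (2 : v.adicCompletion K) ≠ 0 := by
    have e : (2 : v.adicCompletion K) = algebraMap K (v.adicCompletion K) 2 := by
      rw [map_ofNat]
    rw [e, Ne, map_eq_zero]
    exact two_ne_zero
  have h4 : (Valued.v (algebraMap K (v.adicCompletion K) (D - 1)) :
      WithZero (Multiplicative ℤ)) < Valued.v (4 : v.adicCompletion K) := by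
    have e : (4 : v.adicCompletion K) = algebraMap K (v.adicCompletion K) 4 := by
      rw [map_ofNat]
    rw [e, hval, hval]
    exact h
  obtain ⟨t, ht⟩ := Pool.Agent.H10.isSquare_one_add h20 h4
  have e3 : 1 + algebraMap K (v.adicCompletion K) (D - 1) =
      algebraMap K (v.adicCompletion K) D := by
    rw [map_sub, map_one]
    ring
  rw [e3] at ht
  exact ⟨t, by rw [ht, sq]⟩

end H73P2
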