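import Mathlib

/-!
ROW We (project MP_78d38b_P2, about 140 lines, Mathlib only): multiquadratic extensions.

`mq K I` is generated over `K` by the square roots in the algebraic closure of the elements of the finite set `I`.
PROOF. mq_galois: `mq K I` is the splitting field (inside the algebraic closure) of `∏ D ∈ I, (X^2 - C D)`: normal (`IntermediateField.adjoin_rootSet_isSplittingField`, `Normal.of_isSplittingField`; the set of generators is the root set), finite
dimensional (`IntermediateField.finiteDimensional_adjoin` for a finite set of integral elements; the set is finite, for every `D` at most two roots), separable in characteristic zero.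
mq_deg: induction on `I` (`Finset.induction_on`): `mq K ∅ = ⊥`, degree one. `mq K (insert D I)` is generated over `mq K I =: N` by the square roots of `D`; if `x` is one of them (the others are `-x`; the algebraic closure has one), then `mq K (insert D I) = N(x)`
(as intermediate fields: `IntermediateField.adjoin_union`, `adjoin_adjoin_left`, `restrictScalars`), and the degree of `N(x)` over `N` is one or two (`x^2 ∈ N`: the minimal polynomial divides `X^2 - C D`). The tower formula.
mq_embed: all the polynomials `X^2 - C D`, `D ∈ I`, split in `F` (with the `K`-algebra structure `i.toAlgebra`), so the splitting field maps to `F`: `Polynomial.IsSplittingField.lift`, or `IntermediateField.exists_algHom_adjoin_of_splits` (`∀ s ∈ S, IsIntegral K s ∧ (minpoly K s).Splits`)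
with `minpoly K x ∣ X^2 - C D`.
-/

set_option autoImplicit false
set_option linter.unusedSectionVars false

open WithZero NumberField IsDedekindDomain

namespace H73P2

/-- The extension generated by the square roots of the elements of `I`. -/
noncomputable def mq (K : Type) [Field K] (I : Set K) : IntermediateField K (AlgebraicClosure K) :=
  IntermediateField.adjoin K {x | ∃ D ∈ I, x ^ 2 = algebraMap K (AlgebraicClosure K) D}

theorem We_split {K : Type} [Field K] {I : Set K} (hI : I.Finite) :
    (∏ D ∈ hI.toFinset, (Polynomial.X ^ 2 - Polynomial.C D)).IsSplittingField K (mq K I) := by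
  have hne : ∀ D : K, (Polynomial.X ^ 2 - Polynomial.C D : Polynomial K) ≠ 0 := fun D =>
    Polynomial.X_pow_sub_C_ne_zero (by norm_num) D
  have hp0 : (∏ D ∈ hI.toFinset, (Polynomial.X ^ 2 - Polynomial.C D : Polynomial K)) ≠ 0 :=
    Finset.prod_ne_zero_iff.2 fun D _ => hne D
  have h1 : mq K I = IntermediateField.adjoin K
      ((∏ D ∈ hI.toFinset, (Polynomial.X ^ 2 - Polynomial.C D : Polynomial K)).rootSet
        (AlgebraicClosure K)) := by
    unfold mq
    congr 1
    ext x
    rw [Polynomial.mem_rootSet, map_prod, Finset.prod_eq_zero_iff]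
    constructor
    · rintro ⟨D, hD, hx⟩
      refine ⟨hp0, D, hI.mem_toFinset.2 hD, ?_⟩
      rw [map_sub, map_pow, Polynomial.aeval_X, Polynomial.aeval_C, hx, sub_self]
    · rintro ⟨-, D, hD, hx⟩
      refine ⟨D, hI.mem_toFinset.1 hD, ?_⟩
      rw [map_sub, map_pow, Polynomial.aeval_X, Polynomial.aeval_C, sub_eq_zero] at hx
      exact hx
  rw [h1]
  exact IntermediateField.adjoin_rootSet_isSplittingField (IsAlgClosed.splits _)

theorem mq_galois {K : Type} [Field K] [CharZero K] {I : Set K} (hI : I.Finite) :
    FiniteDimensional K (mq K I) ∧ IsGalois K (mq K I) := by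
  have h1 := We_split hI
  have h2 : FiniteDimensional K (mq K I) := Polynomial.IsSplittingField.finiteDimensional (mq K I)
    (∏ D ∈ hI.toFinset, (Polynomial.X ^ 2 - Polynomial.C D))
  have h3 : Normal K (mq K I) := Normal.of_isSplittingField
    (∏ D ∈ hI.toFinset, (Polynomial.X ^ 2 - Polynomial.C D))
  exact ⟨h2, { }⟩

theorem We_sq {K : Type} [Field K] {I : Set K} (σ : mq K I ≃ₐ[K] mq K I) (y : mq K I) {D : K}
    (hy : y ^ 2 = algebraMap K (mq K I) D) : σ (σ y) = y := by
  have h1 : (σ y) ^ 2 = y ^ 2 := by
    rw [← map_pow, hy, AlgEquiv.commutes]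
  rcases sq_eq_sq_iff_eq_or_eq_neg.1 h1 with h | h
  · rw [h, h]
  · rw [h, map_neg, h, neg_neg]

theorem We_two {K : Type} [Field K] {I : Set K} (σ : mq K I ≃ₐ[K] mq K I) (y : mq K I) :
    σ (σ y) = y := by
  have h : ((σ : mq K I →ₐ[K] mq K I).comp (σ : mq K I →ₐ[K] mq K I)) = AlgHom.id K (mq K I) := by
    refine IntermediateField.algHom_ext_of_eq_adjoin K
      (s := {x | ∃ D ∈ I, x ^ 2 = algebraMap K (AlgebraicClosure K) D}) rfl ?_
    rintro x ⟨D, hD, hx⟩
    exact We_sq σ ⟨x, _⟩ (D := D) (Subtype.ext hx)
  exact DFunLike.congr_fun h y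

theorem mq_deg {K : Type} [Field K] [CharZero K] {I : Set K} (hI : I.Finite) :
    ∃ r : ℕ, Module.finrank K (mq K I) = 2 ^ r := by
  obtain ⟨h1, h2⟩ := mq_galois hI
  rw [← IsGalois.card_aut_eq_finrank K (mq K I)]
  have : Finite (mq K I ≃ₐ[K] mq K I) := inferInstance
  have : Fact (Nat.Prime 2) := ⟨Nat.prime_two⟩
  apply IsPGroup.iff_card.1
  intro σ
  refine ⟨1, ?_⟩
  apply AlgEquiv.ext
  intro y
  rw [pow_one, sq]
  exact We_two σ y

theorem mq_embed {K : Type} [Field K] {I : Set K} {F : Type} [Field F] (i : K →+* F)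
    (h : ∀ D ∈ I, ∃ r : F, i D = r ^ 2) :
    ∃ ι : mq K I →+* F, ∀ x : K, ι (algebraMap K (mq K I) x) = i x := by
  let _ : Algebra K F := i.toAlgebra
  have h1 : Nonempty (mq K I →ₐ[K] F) := by
    apply IntermediateField.nonempty_algHom_adjoin_of_splits
    rintro x ⟨D, hD, hx⟩
    refine ⟨(AlgebraicClosure.isAlgebraic K).isIntegral.1 x, ?_⟩
    obtain ⟨r, hr⟩ := h D hD
    have h2 : minpoly K x ∣ Polynomial.X ^ 2 - Polynomial.C D := by
      apply minpoly.dvd
      rw [map_sub, map_pow, Polynomial.aeval_X, Polynomial.aeval_C, hx, sub_self]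
    have h3 : (Polynomial.X ^ 2 - Polynomial.C D : Polynomial K).map (algebraMap K F) =
        (Polynomial.X - Polynomial.C r) * (Polynomial.X - Polynomial.C (-r)) := by
      rw [Polynomial.map_sub, Polynomial.map_pow, Polynomial.map_X, Polynomial.map_C]
      have h4 : algebraMap K F D = r ^ 2 := hr
      rw [h4, Polynomial.C_neg, Polynomial.C_pow]
      ring
    have h5 : ((Polynomial.X ^ 2 - Polynomial.C D : Polynomial K).map (algebraMap K F)).Splits := by
      rw [h3]
      exact (Polynomial.Splits.X_sub_C r).mul (Polynomial.Splits.X_sub_C (-r))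
    refine h5.of_dvd ?_ (Polynomial.map_dvd _ h2)
    rw [h3]
    exact mul_ne_zero (Polynomial.X_sub_C_ne_zero r) (Polynomial.X_sub_C_ne_zero (-r))
  obtain ⟨φ⟩ := h1
  exact ⟨φ.toRingHom, fun x => φ.commutes x⟩

end H73P2
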