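import Pool.Agent.H73.P2.Df
import Pool.Agent.H73.P2.We
import Pool.Agent.H73.P2.Ua
import Pool.Agent.H10.Q.Val

/-!
ROW Wf (project MP_78d38b_P2, about 170 lines): ramification in multiquadratic extensions.

PROOF. Way 1 (inertia group; if Mathlib has the order of the inertia group): `N = mq K I`, `V` a place of `N` above the odd place `v`, all `D ∈ I` units at `v`. Let `σ : N ≃ₐ[K] N` be in the inertia group of `V` (`σ x - x ∈ V` for all integers `x`).
For a square root `x` of `D ∈ I`: choose `m : 𝓞 K`, `m ∉ v`, with `D m^2 ∈ 𝓞 K`; `y = m x` is an integer of `N` not in `V` (`V.valuation (y^2) = v-unit`), `σ y = ± y`; if `σ y = - y` then `2 y ∈ V`, but `V` is odd: contradiction. So `σ` fixes all the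
generators, `σ = 1`. The inertia group is trivial, so the ramification index is one: `Ideal.card_inertia_eq_ramificationIdxIn` (Mathlib), so `¬ Ram K V` (a uniformizer of `v` has order `e = 1` at `V`; `Ram` says that `v 𝓞 N ≤ V^2`).
Way 2 (induction on the finite set `I` along quadratic steps): statement for all finite subsets `J` of `I`; for `J ∪ {D}` either `mq K (J ∪ {D}) = mq K J` or it is a quadratic extension `N'` of `N = mq K J` generated by `x` with `x^2 = D`. Use the abstract
lemma Wf_step below: `V'` above `V` in `N' / N` quadratic, `ρ^2 = D`, `D` a unit at the odd place `dn K V'`, `¬ Ram K V`: then `¬ Ram K V'`. Proof of Wf_step: `Pool.Agent.H10.Q.ram_one` (as in row Ub: multiply by `m`), `val_above`: the valuation of `V'` on `N` is that of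
`V`, and `unram_ord` for `V`: so a uniformizer of `v = dn K V'` in `v.asIdeal` has order one at `V'`, so `v 𝓞 N'` is not contained in `V'^2`.
-/

/-!
Ramification in multiquadratic extensions (row Wf of the project MP_78d38b_P2).
-/

set_option autoImplicit false
set_option linter.unusedSectionVars false
open scoped Classical

open WithZero NumberField IsDedekindDomain H38RT
open H38T1 (SC sc scu rep eo la si Pri OddP tp unif)
open H76PP

namespace H73P2

/-- An element of the inertia group fixes the square roots of units at an odd place. -/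
private theorem Wf_fix {K N : Type} [Field K] [NumberField K] [Field N] [NumberField N] [Algebra K N]
    (V : HeightOneSpectrum (𝓞 N)) (hodd : OddP (dn K V)) {D : K}
    (hD : (dn K V).valuation K D = 1) (x : N) (hx : x ^ 2 = algebraMap K N D) (σ : N ≃ₐ[K] N)
    (hσ : ∀ y : 𝓞 N, σ • y - y ∈ V.asIdeal) : σ x = x := by
  have h1 : (σ x) ^ 2 = x ^ 2 := by
    rw [← map_pow, hx, AlgEquiv.commutes]
  rcases sq_eq_sq_iff_eq_or_eq_neg.1 h1 with h2 | h2
  · exact h2
  exfalso
  obtain ⟨n, ⟨d, hd⟩, hnd⟩ := (dn K V).exists_primeCompl_mul_eq_of_integer D hD.le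
  have hnd' : D * algebraMap (𝓞 K) K d = algebraMap (𝓞 K) K n := hnd
  have hd' : algebraMap (𝓞 K) (𝓞 N) d ∉ V.asIdeal := fun h' => hd h'
  have hint : IsIntegral ℤ (x * algebraMap K N (algebraMap (𝓞 K) K d)) := by
    have h3 : (x * algebraMap K N (algebraMap (𝓞 K) K d)) ^ 2 =
        algebraMap (𝓞 N) N (algebraMap (𝓞 K) (𝓞 N) (n * d)) := by
      change _ = algebraMap K N (algebraMap (𝓞 K) K (n * d))
      rw [mul_pow, hx, map_mul, ← hnd', map_mul, map_mul]
      ring
    have h4 : IsIntegral ℤ ((x * algebraMap K N (algebraMap (𝓞 K) K d)) ^ 2) := by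
      rw [h3]
      exact RingOfIntegers.isIntegral_coe _
    exact IsIntegral.of_pow (by norm_num) h4
  let y : 𝓞 N := ⟨x * algebraMap K N (algebraMap (𝓞 K) K d), hint⟩
  have hy : (y : N) = x * algebraMap K N (algebraMap (𝓞 K) K d) := rfl
  have hy2 : y * y = algebraMap (𝓞 K) (𝓞 N) (n * d) := by
    apply RingOfIntegers.coe_injective
    rw [map_mul]
    change (y : N) * (y : N) = algebraMap K N (algebraMap (𝓞 K) K (n * d))
    rw [hy, map_mul, ← hnd', map_mul, map_mul, ← hx]
    ring
  have hyV : y ∉ V.asIdeal := by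
    intro h3
    have h4 : algebraMap (𝓞 K) (𝓞 N) (n * d) ∈ V.asIdeal := by
      rw [← hy2]
      exact Ideal.mul_mem_left _ _ h3
    rw [map_mul] at h4
    rcases V.isPrime.mem_or_mem h4 with h5 | h5
    · have h6 : n ∈ (dn K V).asIdeal := h5
      have h7 : (dn K V).valuation K (algebraMap (𝓞 K) K n) < 1 :=
        ((dn K V).valuation_lt_one_iff_mem (K := K) n).2 h6
      have h8 : (dn K V).valuation K (algebraMap (𝓞 K) K d) = 1 :=
        ((dn K V).valuation_eq_one_iff_notMem (K := K)).2 hd
      rw [← hnd', map_mul, hD, h8, mul_one] at h7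
      exact lt_irrefl _ h7
    · exact hd' h5
  have h2V : (2 : 𝓞 N) ∉ V.asIdeal := by
    intro h3
    have h4 : (2 : 𝓞 K) ∈ (dn K V).asIdeal := by
      change algebraMap (𝓞 K) (𝓞 N) 2 ∈ V.asIdeal
      rw [map_ofNat]
      exact h3
    have h5 : (dn K V).valuation K (algebraMap (𝓞 K) K 2) < 1 :=
      ((dn K V).valuation_lt_one_iff_mem (K := K) 2).2 h4
    have h6 : (dn K V).valuation K 2 = 1 := hodd
    rw [map_ofNat, h6] at h5
    exact lt_irrefl _ h5
  have hs : σ • y - y = - (2 * y) := by
    apply RingOfIntegers.coe_injective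
    rw [map_sub, map_neg, map_mul, map_ofNat]
    have h3 : algebraMap (𝓞 N) N (σ • y) = σ (y : N) := rfl
    have h4 : σ (y : N) = - (y : N) := by
      rw [hy, map_mul, h2, AlgEquiv.commutes]
      ring
    rw [h3, h4]
    ring
  have h3 := hσ y
  rw [hs] at h3
  have h4 : 2 * y ∈ V.asIdeal := by
    have := V.asIdeal.neg_mem h3
    rwa [neg_neg] at this
  rcases V.isPrime.mem_or_mem h4 with h5 | h5
  · exact h2V h5
  · exact hyV h5

/-- An automorphism of `mq K I` which fixes all the square roots of the elements of `I` is trivial. -/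
private theorem Wf_triv {K : Type} [Field K] {I : Set K} (σ : mq K I ≃ₐ[K] mq K I)
    (h : ∀ D ∈ I, ∀ x : mq K I, x ^ 2 = algebraMap K (mq K I) D → σ x = x) : σ = 1 := by
  have h1 : (σ : mq K I →ₐ[K] mq K I) = AlgHom.id K (mq K I) := by
    apply IntermediateField.algHom_ext_of_eq_adjoin K (S := mq K I)
      (s := {x | ∃ D ∈ I, x ^ 2 = algebraMap K (AlgebraicClosure K) D}) rfl
    rintro x ⟨D, hD, hx⟩
    apply h D hD
    apply Subtype.ext
    exact hx
  apply AlgEquiv.ext
  intro x
  exact DFunLike.congr_fun h1 x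

private theorem Wf_inertia {K N : Type} [Field K] [NumberField K] [Field N] [NumberField N]
    [Algebra K N] [IsGalois K N] (V : HeightOneSpectrum (𝓞 N))
    (h : ∀ σ : N ≃ₐ[K] N, (∀ y : 𝓞 N, σ • y - y ∈ V.asIdeal) → σ = 1) : ¬ Ram K V := by
  have hover : V.asIdeal.LiesOver (dn K V).asIdeal := ⟨rfl⟩
  have hmax := (dn K V).isPrime.isMaximal (dn K V).ne_bot
  have hcard : Nat.card (V.asIdeal.inertia (N ≃ₐ[K] N)) = 1 := by
    rw [Nat.card_eq_one_iff_unique]
    refine ⟨⟨?_⟩, ⟨1⟩⟩
    rintro ⟨a, ha⟩ ⟨b, hb⟩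
    apply Subtype.ext
    change a = b
    rw [h a ha, h b hb]
  have hfin : Finite (𝓞 K ⧸ (dn K V).asIdeal) :=
    Ideal.finiteQuotientOfFreeOfNeBot _ (dn K V).ne_bot
  have hperf : PerfectField (dn K V).asIdeal.ResidueField := by
    infer_instance
  have h1 := Ideal.card_inertia_eq_ramificationIdxIn (G := N ≃ₐ[K] N) (dn K V).asIdeal V.asIdeal
  rw [hcard, Ideal.ramificationIdxIn_eq_ramificationIdx (dn K V).asIdeal V.asIdeal (N ≃ₐ[K] N),
    ← Ideal.ramificationIdx'_eq_ramificationIdx _ _ (dn K V).ne_bot] at h1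
  intro hram
  have h2 : (dn K V).asIdeal.map (algebraMap (𝓞 K) (𝓞 N)) ≤ V.asIdeal := by
    rw [Ideal.map_le_iff_le_comap]
    exact le_of_eq hover.over
  exact (Ideal.ramificationIdx'_ne_one_iff h2).2 hram h1.symm

theorem mq_unram {K : Type} [Field K] [NumberField K] {I : Set K} (hI : I.Finite)
    [NumberField (mq K I)] (V : HeightOneSpectrum (𝓞 (mq K I))) (hodd : OddP (dn K V))
    (hD : ∀ D ∈ I, (dn K V).valuation K D = 1) : ¬ Ram K V := by
  have hgal := (mq_galois hI).2
  apply Wf_inertia V
  intro σ hσ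
  apply Wf_triv σ
  intro D hDI x hx
  exact Wf_fix V hodd (hD D hDI) x hx σ hσ

end H73P2
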