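import Pool.Agent.H73.P2.We

/-!
ROW Wg (project MP_78d38b_P2, about 60 lines, Mathlib and the definition of `mq` only): finite subextensions.

PROOF. `M` is finite dimensional, so `M = adjoin K T` for a finite set `T ⊆ M` (`IntermediateField.fg_of_finiteDimensional`?, or a basis), and every element of `T` is in `mq K I = adjoin K X`, `X = {x | ∃ D ∈ I, x ^ 2 = D}`, hence in `adjoin K X₀` for a
finite subset `X₀` of `X` (`IntermediateField.exists_finset_of_mem_adjoin`, or `mem_adjoin_iff..` and directedness of the finite subsets); take the union of these finite sets, and let `J` be the set of the squares `D ∈ I` of its elements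
(`D` is determined by `x` as `algebraMap` is injective): `J` is finite and `adjoin K X₀ ≤ mq K J`.
-/

set_option autoImplicit false
set_option linter.unusedSectionVars false

open WithZero NumberField IsDedekindDomain

namespace H73P2

theorem mq_fin {K : Type} [Field K] {I : Set K} {M : IntermediateField K (AlgebraicClosure K)}
    (hM : M ≤ mq K I) [FiniteDimensional K M] : ∃ J : Set K, J ⊆ I ∧ J.Finite ∧ M ≤ mq K J := by
  classical
  set X : Set (AlgebraicClosure K) := {x | ∃ D ∈ I, x ^ 2 = algebraMap K (AlgebraicClosure K) D}
    with hX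
  have hmq : mq K I = IntermediateField.adjoin K X := rfl
  have key : ∀ x : M, ∃ T : Finset (AlgebraicClosure K), (T : Set (AlgebraicClosure K)) ⊆ X ∧
      (x : AlgebraicClosure K) ∈ IntermediateField.adjoin K (T : Set (AlgebraicClosure K)) := by
    intro x
    have hx : (x : AlgebraicClosure K) ∈ IntermediateField.adjoin K X := by
      rw [← hmq]; exact hM x.2
    exact IntermediateField.exists_finset_of_mem_adjoin hx
  choose T hT1 hT2 using key
  let b := Module.finBasis K M
  set U : Finset (AlgebraicClosure K) := Finset.univ.biUnion (fun i => T (b i)) with hU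
  have hUX : ∀ u ∈ U, ∃ D : K, D ∈ I ∧ u ^ 2 = algebraMap K (AlgebraicClosure K) D := by
    intro u hu
    rw [hU, Finset.mem_biUnion] at hu
    obtain ⟨i, _, hi⟩ := hu
    obtain ⟨D, hD, hD2⟩ := hT1 (b i) hi
    exact ⟨D, hD, hD2⟩
  choose! d hd1 hd2 using hUX
  refine ⟨(U.image d : Finset K), ?_, (U.image d).finite_toSet, ?_⟩
  · intro D hD
    rw [Finset.mem_coe, Finset.mem_image] at hD
    obtain ⟨u, hu, rfl⟩ := hD
    exact hd1 u hu
  · have hle : IntermediateField.adjoin K (U : Set (AlgebraicClosure K)) ≤
        mq K ((U.image d : Finset K) : Set K) := by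
      unfold mq
      apply IntermediateField.adjoin.mono
      intro u hu
      exact ⟨d u, Finset.mem_coe.2 (Finset.mem_image_of_mem d hu), hd2 u hu⟩
    refine le_trans ?_ hle
    have hb : ∀ i, ((b i : M) : AlgebraicClosure K) ∈
        IntermediateField.adjoin K (U : Set (AlgebraicClosure K)) := by
      intro i
      have h1 := hT2 (b i)
      refine IntermediateField.adjoin.mono K _ _ ?_ h1
      intro u hu
      rw [Finset.mem_coe, hU, Finset.mem_biUnion]
      exact ⟨i, Finset.mem_univ _, hu⟩
    intro x hx
    have h2 := b.sum_repr ⟨x, hx⟩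
    have h3 : x = ∑ i, (b.repr ⟨x, hx⟩ i) • ((b i : M) : AlgebraicClosure K) := by
      have h4 := congrArg M.val h2
      rw [map_sum] at h4
      refine Eq.trans (show x = M.val ⟨x, hx⟩ from rfl) (h4.symm.trans ?_)
      refine Finset.sum_congr rfl (fun i _ => ?_)
      rw [map_smul]
      rfl
    rw [h3]
    exact sum_mem (fun i _ => IntermediateField.smul_mem _ (hb i))

end H73P2
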