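import Pool.Agent.H73.P2.Wa
import Pool.Agent.H73.P2.Wc
import Pool.Agent.H73.P2.Wd
import Pool.Agent.H73.P2.Wf
import Pool.Agent.H73.P2.Wg
import Pool.Agent.H73.P2.Ua

/-!
The infinite multiquadratic extension (assembly; no row).
-/

set_option autoImplicit false
set_option linter.unusedSectionVars false
open scoped Classical

open WithZero NumberField IsDedekindDomain H38RT
open H38T1 (SC sc scu rep eo la si Pri OddP tp unif)
open H76PP

namespace H73P2

/-- For an irreducible cubic and a finite set `S` of primes there is an infinite multiquadratic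
extension of `K` whose finite subextensions lie in finite Galois extensions of two-power degree in
which `S` and the real places split completely and which are ramified only at primes modulo which the
cubic has no root. -/
theorem tower {K : Type} [Field K] [NumberField K] (S : Finset (HeightOneSpectrum (𝓞 K)))
    (h2S : ∀ v : HeightOneSpectrum (𝓞 K), v.valuation K 2 < 1 → v ∈ S) {a b : K}
    (hirr : ∀ t : K, t ^ 3 + a * t + b ≠ 0) :
    ∃ I : Set K, ¬ FiniteDimensional K (mq K I) ∧
      (∀ v ∈ S, ∃ ι : mq K I →+* v.adicCompletion K, ∀ x : K,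
        ι (algebraMap K (mq K I) x) = algebraMap K (v.adicCompletion K) x) ∧
      ∀ M : IntermediateField K (AlgebraicClosure K), M ≤ mq K I → FiniteDimensional K M →
        ∃ (N : IntermediateField K (AlgebraicClosure K)) (_ : NumberField N), M ≤ N ∧
          IsGalois K N ∧ (∃ r : ℕ, Module.finrank K N = 2 ^ r) ∧
          (∀ v ∈ S, ∃ ι : N →+* v.adicCompletion K, ∀ x : K,
            ι (algebraMap K N x) = algebraMap K (v.adicCompletion K) x) ∧
          (∀ s : K →+* ℝ, ∃ s' : N →+* ℝ, ∀ x : K, s' (algebraMap K N x) = s x) ∧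
          ∀ V : HeightOneSpectrum (𝓞 N), OddP (dn K V) → Ram K V → NoRootAt (dn K V) a b := by
  obtain ⟨m, hm, hmS⟩ := exists_mod S
  obtain ⟨Z, hZ0, hZ, hZ1, hZ2⟩ := aux_in (inf_noroot hirr) hm
  obtain ⟨q, hq⟩ := hZ.nonempty
  choose! D hD using hZ2 q hq
  set Z' := Z \ {q} with hZ'
  have hZinf : Z'.Infinite := hZ.sdiff (Set.finite_singleton q)
  set I : Set K := D '' Z' with hI
  have hval : ∀ p ∈ Z', ∀ v : HeightOneSpectrum (𝓞 K), v ∉ Z → v.valuation K (D p) = 1 := by
    intro p hp v hv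
    exact (hD p hp.1 hp.2).oth v (fun h => hv (h ▸ hp.1)) (fun h => hv (h ▸ hq))
  have hsqv : ∀ x ∈ I, ∀ v ∈ S, ∃ r : v.adicCompletion K,
      algebraMap K (v.adicCompletion K) x = r ^ 2 := by
    rintro _ ⟨p, hp, rfl⟩ v hv
    obtain ⟨k, hk, hmk, hlt⟩ := hmS v hv
    exact sq_loc (((hD p hp.1 hp.2).cong v k hk hmk).trans_lt hlt)
  have hsqr : ∀ x ∈ I, ∀ s : K →+* ℝ, ∃ r : ℝ, s x = r ^ 2 := by
    rintro _ ⟨p, hp, rfl⟩ s
    exact ⟨Real.sqrt (s (D p)), (Real.sq_sqrt ((hD p hp.1 hp.2).pos s).le).symm⟩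
  have hodd : ∀ v : HeightOneSpectrum (𝓞 K), v ∉ S → OddP v := by
    intro v hv
    unfold OddP
    by_contra hne1
    apply hv
    apply h2S
    refine lt_of_le_of_ne ?_ hne1
    have h2 := v.valuation_le_one (K := K) (2 : 𝓞 K)
    have h3 : algebraMap (𝓞 K) K 2 = 2 := map_ofNat (algebraMap (𝓞 K) K) 2
    rw [← h3]
    exact h2
  refine ⟨I, ?_, fun v hv => mq_embed _ fun x hx => hsqv x hx v hv, ?_⟩
  · intro hfin
    obtain ⟨J, hJI, hJ, hle⟩ := mq_fin (le_refl (mq K I))
    have hFJ := (mq_galois (K := K) hJ).1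
    have _ : NumberField (mq K J) := NumberField.of_module_finite K (mq K J)
    -- the primes of the elements of `J`
    obtain ⟨P, hPZ, hPfin, hPJ⟩ : ∃ P ⊆ Z', P.Finite ∧ D '' P = J := by
      exact Set.exists_subset_image_finite_and.1 ⟨J, hJI, hJ, rfl⟩ |>.imp fun P hP => by
        exact ⟨hP.1, hP.2.1, hP.2.2.symm⟩
    have hS6 : {v : HeightOneSpectrum (𝓞 K) | v ∈ S}.Finite := S.finite_toSet
    obtain ⟨p, hp, hpn⟩ := ((hZinf.sdiff hPfin).sdiff hS6).nonempty
    have hpJ : ∀ x ∈ J, p.valuation K x = 1 := by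
      intro x hx
      rw [← hPJ] at hx
      obtain ⟨p', hp', rfl⟩ := hx
      have h1 := hPZ hp'
      refine (hD p' h1.1 h1.2).oth p (fun h => hp.2 (h ▸ hp')) (fun h => hp.1.2 (by
        rw [h]
        exact Set.mem_singleton _))
    obtain ⟨V, hV⟩ := exists_above (L := mq K J) p
    have hun : ¬ Ram K V := mq_unram hJ V (by rw [hV]; exact hodd p hpn) (by rw [hV]; exact hpJ)
    have hDp := hD p hp.1.1 hp.1.2
    have h1 := unram_ord hun hDp.ne
    rw [hV] at h1
    have h2 : ord (p.valuation K) (D p) = 1 := by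
      unfold ord
      rw [hDp.at_p, log_exp]
      norm_num
    -- the square root
    obtain ⟨x, hx⟩ := IsAlgClosed.exists_pow_nat_eq (algebraMap K (AlgebraicClosure K) (D p))
      (n := 2) (by norm_num)
    have hxI : x ∈ mq K I := IntermediateField.subset_adjoin _ _ ⟨D p, ⟨p, hp.1, rfl⟩, hx⟩
    have hxJ : x ∈ mq K J := hle hxI
    have h3 : algebraMap K (mq K J) (D p) = (⟨x, hxJ⟩ : mq K J) ^ 2 := by
      apply Subtype.ext
      change algebraMap K (AlgebraicClosure K) (D p) = x ^ 2
      rw [hx]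
    have hx0 : (⟨x, hxJ⟩ : mq K J) ≠ 0 := by
      intro h0
      rw [h0, zero_pow two_ne_zero, map_eq_zero] at h3
      exact hDp.ne h3
    rw [h3, h2, pow_two, ord_mul hx0 hx0] at h1
    omega
  · intro M hM hMfin
    obtain ⟨J, hJI, hJ, hle⟩ := mq_fin hM
    obtain ⟨hFJ, hG⟩ := mq_galois (K := K) hJ
    refine ⟨mq K J, NumberField.of_module_finite K (mq K J), hle, hG, mq_deg hJ, ?_, ?_, ?_⟩
    · intro v hv
      exact mq_embed _ fun x hx => hsqv x (hJI hx) v hv
    · intro s
      exact mq_embed _ fun x hx => hsqr x (hJI hx) s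
    · intro V hVS hr
      have _ : NumberField (mq K J) := NumberField.of_module_finite K (mq K J)
      by_contra hno
      refine mq_unram hJ V hVS (fun x hx => ?_) hr
      obtain ⟨p, hp, rfl⟩ := hJI hx
      exact hval p hp _ fun h => hno (hZ0 h)

end H73P2
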