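import Pool.Agent.H73.P2.Rl
import Pool.Agent.H73.P2.Wz
import Pool.Agent.H73.P2.Wh
import Pool.Agent.H73.P2.Wi
import Pool.Agent.H73.P2.Wj
import Pool.Agent.H76.PP.Tf

/-!
The relative theorem in the form of the final statement (assembly; no row).
-/

set_option autoImplicit false
set_option linter.unusedSectionVars false
open scoped Classical

open WithZero NumberField IsDedekindDomain H38RT
open H38T1 (SC sc scu rep eo la si Pri OddP tp unif)
open H76PP

namespace H73P2

/-- `N / K` is an admissible extension for the curve `y ^ 2 = x ^ 3 + A x + B`: a finite Galois extension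
of two-power degree in which the primes of `S` split completely, and also the real places at which the
cubic has three real roots, and which is ramified only at primes modulo which the cubic has no root. -/
structure Admi {K : Type} [Field K] [NumberField K] (S : Finset (HeightOneSpectrum (𝓞 K)))
    (A B : 𝓞 K) (N : Type) [Field N] [NumberField N] [Algebra K N] : Prop where
  gal : IsGalois K N
  deg : ∃ r : ℕ, Module.finrank K N = 2 ^ r
  spl : ∀ v ∈ S, ∃ ι : N →+* v.adicCompletion K, ∀ x : K,
    ι (algebraMap K N x) = algebraMap K (v.adicCompletion K) x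
  real : ∀ s : K →+* ℝ, 0 < s (4 * (A : K) ^ 3 + 27 * (B : K) ^ 2) ∨
    ∃ s' : N →+* ℝ, ∀ x : K, s' (algebraMap K N x) = s x
  ram : ∀ V : HeightOneSpectrum (𝓞 N),
    (V.asIdeal.under (𝓞 K)).map (algebraMap (𝓞 K) (𝓞 N)) ≤ V.asIdeal ^ 2 →
    ∀ t : 𝓞 K, t ^ 3 + A * t + B ∉ V.asIdeal.under (𝓞 K)

/-- Finitely many points and trivial two-primary part of the Tate-Shafarevich group over `M`. -/
def Triv2 (K : Type) [Field K] [NumberField K] (A B : 𝓞 K) (M : Type) [Field M] [NumberField M]
    [Algebra K M] : Prop :=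
  Finite (⟨0, 0, 0, algebraMap K M A, algebraMap K M B⟩ : WeierstrassCurve M).toAffine.Point ∧
    Pool.Agent.H10.Sha2Trivial M
      (⟨0, 0, 0, algebraMap K M A, algebraMap K M B⟩ : WeierstrassCurve M)

theorem noRootAt_of {K : Type} [Field K] [NumberField K] {v : HeightOneSpectrum (𝓞 K)} {A B : 𝓞 K}
    (h : ∀ t : 𝓞 K, t ^ 3 + A * t + B ∉ v.asIdeal) : NoRootAt v (A : K) (B : K) :=
  ⟨1, A, B, one_ne_zero, by ring, by ring, v.valuation_le_one A, v.valuation_le_one B,
    fun _ ht => Tf_unit v h ht⟩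

/-- From the triviality of the relaxed Selmer group over `K` to all admissible extensions. -/
theorem all_of_rel (hos : OrdSub) {K : Type} [Field K] [NumberField K]
    {S : Finset (HeightOneSpectrum (𝓞 K))}
    (h2S : ∀ v : HeightOneSpectrum (𝓞 K), v.valuation K 2 < 1 → v ∈ S) {A B : 𝓞 K}
    (hd : 4 * A ^ 3 + 27 * B ^ 2 ≠ 0) (hirr : ∀ t : K, t ^ 3 + (A : K) * t + (B : K) ≠ 0)
    (hnice : ∀ v : HeightOneSpectrum (𝓞 K), v ∉ S → NiceAt v (A : K) (B : K))
    (hT : ∀ (L : Type) [Field L] [NumberField L] [Algebra K L] (θ : L), Cub K L (A : K) (B : K) θ →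
      RelT K K L S (A : K) (B : K) θ)
    (N : Type) [Field N] [NumberField N] [Algebra K N] (hN : Admi S A B N)
    (M : IntermediateField K N) [NumberField M] : Triv2 K A B M := by
  have _ := hN.gal
  obtain ⟨r, hr⟩ := hN.deg
  have hd' : 4 * (A : K) ^ 3 + 27 * (B : K) ^ 2 ≠ 0 := by
    intro h
    apply hd
    apply RingOfIntegers.coe_injective
    simpa only [map_add, map_mul, map_pow, map_ofNat, map_zero] using h
  exact rel_main (N := N) hos hr h2S hd' hirr hnice hN.spl hN.real
    (fun V _ hV => noRootAt_of (hN.ram V hV)) hT M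

/-- From the triviality of the relaxed Selmer group over `K` to an infinite multiquadratic
extension. -/
theorem tower_of_rel (hos : OrdSub) {K : Type} [Field K] [NumberField K]
    {S : Finset (HeightOneSpectrum (𝓞 K))}
    (h2S : ∀ v : HeightOneSpectrum (𝓞 K), v.valuation K 2 < 1 → v ∈ S) {A B : 𝓞 K}
    (hd : 4 * A ^ 3 + 27 * B ^ 2 ≠ 0) (hirr : ∀ t : K, t ^ 3 + (A : K) * t + (B : K) ≠ 0)
    (hnice : ∀ v : HeightOneSpectrum (𝓞 K), v ∉ S → NiceAt v (A : K) (B : K))
    (hT : ∀ (L : Type) [Field L] [NumberField L] [Algebra K L] (θ : L), Cub K L (A : K) (B : K) θ →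
      RelT K K L S (A : K) (B : K) θ) :
    ∃ F : IntermediateField K (AlgebraicClosure K), ¬ FiniteDimensional K F ∧
      (∃ I : Set K, F = IntermediateField.adjoin K
        {x | ∃ D ∈ I, x ^ 2 = algebraMap K (AlgebraicClosure K) D}) ∧
      Finite (⟨0, 0, 0, algebraMap K F A, algebraMap K F B⟩ : WeierstrassCurve F).toAffine.Point ∧
      ∀ (M : IntermediateField K (AlgebraicClosure K)) [NumberField M], M ≤ F → Triv2 K A B M := by
  have hd' : 4 * (A : K) ^ 3 + 27 * (B : K) ^ 2 ≠ 0 := by
    intro h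
    apply hd
    apply RingOfIntegers.coe_injective
    simpa only [map_add, map_mul, map_pow, map_ofNat, map_zero] using h
  obtain ⟨l, l', v, v', hl, hl', hne, hv, hv', hg, hg'⟩ := exists_two_good hd
  obtain ⟨I, hI, hemb, hM⟩ := tower (S ∪ {v, v'}) (fun w hw => Finset.mem_union_left _ (h2S w hw))
    hirr
  have hall : ∀ (M : IntermediateField K (AlgebraicClosure K)) [NumberField M], M ≤ mq K I →
      Triv2 K A B M := by
    intro M _ hMI
    have hfM : FiniteDimensional K M := Module.Finite.of_restrictScalars_finite ℚ K M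
    obtain ⟨N, _, hMN, _, ⟨r, hr⟩, hspl, hreal, hram⟩ := hM M hMI hfM
    let _ : Algebra M N := (IntermediateField.inclusion hMN).toRingHom.toAlgebra
    have _ : IsScalarTower K M N := IsScalarTower.of_algebraMap_eq fun _ => rfl
    have _ : FiniteDimensional K N := Module.Finite.of_restrictScalars_finite ℚ K N
    obtain ⟨L, _, _, _, θ, hL⟩ := H24PD.exists_cub (K := M)
      (noroot (K := K) (N := N) (k := M) hr hirr)
    refine H24PD.descent hL (sel_mid (N := N) hos hr h2S hd' hnice
      (fun w hw => hspl w (Finset.mem_union_left _ hw)) (fun s => Or.inr (hreal s))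
      (fun V hV => hram V ?_) hT M L θ hL)
    unfold OddP
    by_contra hne1
    apply hV
    apply h2S
    refine lt_of_le_of_ne ?_ hne1
    have h2 := (dn K V).valuation_le_one (K := K) (2 : 𝓞 K)
    have h3 : algebraMap (𝓞 K) K 2 = 2 := map_ofNat (algebraMap (𝓞 K) K) 2
    rw [← h3]
    exact h2
  refine ⟨mq K I, hI, ⟨I, rfl⟩, ?_, fun M _ hMI => hall M hMI⟩
  obtain ⟨ι, hι⟩ := hemb v (by simp)
  obtain ⟨ι', hι'⟩ := hemb v' (by simp)
  exact fin_mq (fun M _ hMI => (hall M hMI).1) (tors_emb hl hl' hne hv hv' hg hg' ι hι ι' hι')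

end H73P2
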