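import Pool.Agent.H73.P2.Df
import Pool.Agent.H10.Comp

/-!
ROW Cm (project MP_78d38b_P2, about 180 lines): an embedding of `M` in `K_v` comes from a place of `M`.

PROOF. exists_map. `u.asIdeal := {x : 𝓞 M | Valued.v (j x) < 1}`, that is the comap of the maximal ideal of the valuation ring under `x ↦ j x` (`Valued.v (j x) ≤ 1` for `x ∈ 𝓞 M`: `x` is integral over `ℤ`; a valuation
which is `≤ 1` on `ℤ` is `≤ 1` on integral elements: `Valuation.Integers`/`Valuation.mem_of_integral`, or by hand from a monic equation). It is prime, and not zero: it contains the image of a nonzero element of `v.asIdeal`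
(`hj`, and `Valued.v (algebraMap K K_v x) = v.valuation K x`: `valuedAdicCompletion_eq_valuation'`). Proper since `Valued.v 1 = 1`.
(1) `u.valuation M x ≤ 1` implies `Valued.v (j x) ≤ 1`: `x = n / d` with `n, d ∈ 𝓞 M`, `d ∉ u` (`HeightOneSpectrum.exists_primeCompl_mul_eq_of_integer`), `Valued.v (j d) = 1`.
(2) Let `ϖ ∈ K` with `v.valuation K ϖ = exp (-1)` and `exp (-e) = u.valuation M (algebraMap ϖ)`, `e ≥ 1` (or only: this value is a nonzero `γ`). For every `n`: `u.valuation M x ≤ γ^n` implies (1 for `x / ϖ^n`) `Valued.v (j x) ≤ exp (-n)`.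
So `j` is continuous for the `u`-adic topology of `M` (at `0`, hence everywhere; uniformly continuous as a group homomorphism).
(3) `u.adicCompletion M` is the completion of `M` with the `u`-adic valuation, `K_v` is complete and separated: extend `j` to the completion: `UniformSpace.Completion.extensionHom` (for `WithVal (u.valuation M)`), or
`UniformSpace.Completion.mapRingHom` ... ; models for the use of the completion: `Pool/Agent/H10/GrPlace.lean`, `Pool/Agent/H10/RatLoc.lean`, `Pool/Agent/H10/Place.lean`, `Pool/Agent/H10/RealPl.lean` and the proof of `LC_approx` in `Pool/Agent/H76/PP/Te.lean`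
(search the pool for `extensionHom`). `φ (algebraMap M _ x) = j x` by `extensionHom_coe`.
LC_of_places: `u, φ` from exists_map; `LC` for the completion at `u` gives `x, y, z`; apply `φ` (a ring homomorphism of fields, injective): `LC j a b d` with `φ x, φ y, φ ∘ z` (`Te_m3_map` for `φ`).
-/

set_option autoImplicit false
set_option linter.unusedSectionVars false
open scoped Classical

open WithZero NumberField IsDedekindDomain H38RT
open H38T1 (SC sc scu rep eo la si Pri OddP tp unif)
open H76PP

namespace H73P2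

/-- Integers of `M` have value at most one. -/
lemma Cm_int {M : Type} [Field M] [NumberField M] {Γ : Type} [LinearOrderedCommGroupWithZero Γ]
    (w : Valuation M Γ) (x : 𝓞 M) : w (algebraMap (𝓞 M) M x) ≤ 1 := by
  have h1 : IsIntegral ℤ (algebraMap (𝓞 M) M x) := x.2
  have h2 : IsIntegral w.valuationSubring (algebraMap (𝓞 M) M x) := h1.tower_top
  obtain ⟨y, hy⟩ := IsIntegrallyClosed.isIntegral_iff.1 h2
  rw [← hy]
  exact y.2

lemma Cm_le_one {K M : Type} [Field K] [NumberField K] [Field M] [NumberField M] [Algebra K M]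
    (v : HeightOneSpectrum (𝓞 K)) (j : M →+* v.adicCompletion K)
    (hj : ∀ x : K, j (algebraMap K M x) = algebraMap K (v.adicCompletion K) x) (x : 𝓞 M) :
    Valued.v (j (algebraMap (𝓞 M) M x)) ≤ 1 := by
  exact Cm_int (Valued.v.comap j) x

lemma Cm_val {K M : Type} [Field K] [NumberField K] [Field M] [NumberField M] [Algebra K M]
    (v : HeightOneSpectrum (𝓞 K)) (j : M →+* v.adicCompletion K)
    (hj : ∀ x : K, j (algebraMap K M x) = algebraMap K (v.adicCompletion K) x) (x : K) :
    Valued.v (j (algebraMap K M x)) = v.valuation K x := by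
  have h2 := v.valuedAdicCompletion_eq_valuation' (K := K) x
  change Valued.v (algebraMap K (v.adicCompletion K) x) = _ at h2
  rw [hj, h2]

/-- The ideal of the place of `M`. -/
noncomputable def Cm_id {K M : Type} [Field K] [NumberField K] [Field M] [NumberField M] [Algebra K M]
    (v : HeightOneSpectrum (𝓞 K)) (j : M →+* v.adicCompletion K)
    (hj : ∀ x : K, j (algebraMap K M x) = algebraMap K (v.adicCompletion K) x) : Ideal (𝓞 M) where
  carrier := {x | Valued.v (j (algebraMap (𝓞 M) M x)) < 1}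
  zero_mem' := by
    change Valued.v (j (algebraMap (𝓞 M) M 0)) < 1
    rw [map_zero, map_zero, map_zero]
    exact zero_lt_one
  add_mem' := by
    intro x y hx hy
    change Valued.v (j (algebraMap (𝓞 M) M (x + y))) < 1
    rw [map_add, map_add]
    exact Valuation.map_add_lt _ hx hy
  smul_mem' := by
    intro c x hx
    change Valued.v (j (algebraMap (𝓞 M) M (c * x))) < 1
    rw [map_mul, map_mul, map_mul]
    exact mul_lt_one_of_nonneg_of_lt_one_right (Cm_le_one v j hj c) zero_le' hx

lemma Cm_mem {K M : Type} [Field K] [NumberField K] [Field M] [NumberField M] [Algebra K M]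
    (v : HeightOneSpectrum (𝓞 K)) (j : M →+* v.adicCompletion K)
    (hj : ∀ x : K, j (algebraMap K M x) = algebraMap K (v.adicCompletion K) x) (x : 𝓞 M) :
    x ∈ Cm_id v j hj ↔ Valued.v (j (algebraMap (𝓞 M) M x)) < 1 := Iff.rfl

/-- The place of `M`. -/
noncomputable def Cm_pl {K M : Type} [Field K] [NumberField K] [Field M] [NumberField M] [Algebra K M]
    (v : HeightOneSpectrum (𝓞 K)) (j : M →+* v.adicCompletion K)
    (hj : ∀ x : K, j (algebraMap K M x) = algebraMap K (v.adicCompletion K) x) :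
    HeightOneSpectrum (𝓞 M) where
  asIdeal := Cm_id v j hj
  isPrime := by
    refine Ideal.isPrime_iff.2 ⟨?_, ?_⟩
    · rw [Ne, Ideal.eq_top_iff_one, Cm_mem, map_one, map_one, map_one]
      exact lt_irrefl _
    · intro x y hxy
      by_contra hh
      rw [not_or, Cm_mem, Cm_mem, not_lt, not_lt] at hh
      have hx : Valued.v (j (algebraMap (𝓞 M) M x)) = 1 := le_antisymm (Cm_le_one v j hj x) hh.1
      have hy : Valued.v (j (algebraMap (𝓞 M) M y)) = 1 := le_antisymm (Cm_le_one v j hj y) hh.2
      rw [Cm_mem, map_mul, map_mul, map_mul, hx, hy, mul_one] at hxy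
      exact lt_irrefl _ hxy
  ne_bot := by
    obtain ⟨p, hp, hp0⟩ := Submodule.exists_mem_ne_zero_of_ne_bot v.ne_bot
    intro hb
    have h1 : algebraMap (𝓞 K) (𝓞 M) p ∈ Cm_id v j hj := by
      rw [Cm_mem, ← IsScalarTower.algebraMap_apply (𝓞 K) (𝓞 M) M,
        IsScalarTower.algebraMap_apply (𝓞 K) K M, Cm_val v j hj]
      exact (v.valuation_lt_one_iff_mem (K := K) p).2 hp
    rw [hb, Ideal.mem_bot] at h1
    exact hp0 ((FaithfulSMul.algebraMap_injective (𝓞 K) (𝓞 M)) (by rw [h1, map_zero]))

lemma Cm_pl_le {K M : Type} [Field K] [NumberField K] [Field M] [NumberField M] [Algebra K M]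
    (v : HeightOneSpectrum (𝓞 K)) (j : M →+* v.adicCompletion K)
    (hj : ∀ x : K, j (algebraMap K M x) = algebraMap K (v.adicCompletion K) x) (x : M)
    (hx : (Cm_pl v j hj).valuation M x ≤ 1) : Valued.v (j x) ≤ 1 := by
  obtain ⟨n, ⟨d, hd⟩, hnd⟩ := HeightOneSpectrum.exists_primeCompl_mul_eq_of_integer (Cm_pl v j hj) x hx
  change ¬ (d ∈ Cm_id v j hj) at hd
  change x * algebraMap (𝓞 M) M d = algebraMap (𝓞 M) M n at hnd
  rw [Cm_mem, not_lt] at hd
  have hd1 : Valued.v (j (algebraMap (𝓞 M) M d)) = 1 := le_antisymm (Cm_le_one v j hj d) hd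
  have h := congrArg (fun t => Valued.v (j t)) hnd
  change Valued.v (j (x * algebraMap (𝓞 M) M d)) = Valued.v (j (algebraMap (𝓞 M) M n)) at h
  rw [map_mul, map_mul, hd1, mul_one] at h
  rw [h]
  exact Cm_le_one v j hj n

lemma Cm_small {K M : Type} [Field K] [NumberField K] [Field M] [NumberField M] [Algebra K M]
    (v : HeightOneSpectrum (𝓞 K)) (j : M →+* v.adicCompletion K)
    (hj : ∀ x : K, j (algebraMap K M x) = algebraMap K (v.adicCompletion K) x) (n : ℕ) :
    ∃ k : ℕ, ∀ x : M, (Cm_pl v j hj).valuation M x ≤ exp (-(k : ℤ)) → Valued.v (j x) ≤ exp (-(n : ℤ)) := by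
  obtain ⟨t, ht⟩ := v.valuation_surjective K (exp (-(n : ℤ)))
  have ht0 : t ≠ 0 := by
    rintro rfl
    rw [map_zero] at ht
    exact exp_ne_zero ht.symm
  have ht1 : algebraMap K M t ≠ 0 := by
    rw [Ne, map_eq_zero]
    exact ht0
  obtain ⟨k, hk⟩ := exists_exp_neg_natCast_lt (x := (Cm_pl v j hj).valuation M (algebraMap K M t))
    (by simpa using ht0)
  refine ⟨k, fun x hx => ?_⟩
  have h1 : (Cm_pl v j hj).valuation M (x / algebraMap K M t) ≤ 1 := by
    rw [map_div₀]
    refine (div_le_one₀ ?_).2 (hx.trans hk.le)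
    exact zero_lt_iff.2 (by simpa using ht0)
  have h2 := Cm_pl_le v j hj _ h1
  rw [map_div₀, map_div₀, Cm_val v j hj, ht] at h2
  exact (div_le_one₀ exp_pos).1 h2

lemma Cm_nhds {K M : Type} [Field K] [NumberField K] [Field M] [NumberField M] [Algebra K M]
    (v : HeightOneSpectrum (𝓞 K)) (j : M →+* v.adicCompletion K)
    (hj : ∀ x : K, j (algebraMap K M x) = algebraMap K (v.adicCompletion K) x) :
    ∀ U ∈ nhds (0 : v.adicCompletion K), ∃ k : ℕ, ∀ x : M,
      (Cm_pl v j hj).valuation M x ≤ exp (-(k : ℤ)) → j x ∈ U := by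
  intro U hU
  rw [Valued.mem_nhds_zero] at hU
  obtain ⟨γ, hγ⟩ := hU
  obtain ⟨n, hn⟩ := exists_exp_neg_natCast_lt
    (x := MonoidWithZeroHom.ValueGroup₀.embedding γ.1) (by simp)
  obtain ⟨k, hk⟩ := Cm_small v j hj n
  refine ⟨k, fun x hx => hγ ?_⟩
  change Valued.v.restrict _ < γ.1
  rw [Valuation.restrict_lt_iff_lt_embedding]
  exact lt_of_le_of_lt (hk x hx) hn

theorem exists_map {K M : Type} [Field K] [NumberField K] [Field M] [NumberField M] [Algebra K M]
    (v : HeightOneSpectrum (𝓞 K)) (j : M →+* v.adicCompletion K)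
    (hj : ∀ x : K, j (algebraMap K M x) = algebraMap K (v.adicCompletion K) x) :
    ∃ (u : HeightOneSpectrum (𝓞 M)) (φ : u.adicCompletion M →+* v.adicCompletion K),
      ∀ x : M, φ (algebraMap M (u.adicCompletion M) x) = j x := by
  exact ⟨Cm_pl v j hj, Pool.Agent.H10.adicLift (Cm_pl v j hj) j
    (Pool.Agent.H10.continuous_fromVal (Cm_pl v j hj) j (Cm_nhds v j hj)),
    fun x => Pool.Agent.H10.adicLift_algebraMap (Cm_pl v j hj) _ _ x⟩

theorem LC_of_places {K M : Type} [Field K] [NumberField K] [Field M] [NumberField M] [Algebra K M]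
    {a b : M} {d : Fin 3 → M}
    (h : ∀ u : HeightOneSpectrum (𝓞 M), LC (algebraMap M (u.adicCompletion M)) a b d)
    (v : HeightOneSpectrum (𝓞 K)) (j : M →+* v.adicCompletion K)
    (hj : ∀ x : K, j (algebraMap K M x) = algebraMap K (v.adicCompletion K) x) : LC j a b d := by
  obtain ⟨u, φ, hφ⟩ := exists_map v j hj
  obtain ⟨x, y, z, hy, hxy, hm⟩ := h u
  refine ⟨φ x, φ y, fun i => φ (z i), ?_, ?_, ?_⟩
  · rw [Ne, map_eq_zero]
    exact hy
  · rw [← hφ a, ← hφ b, ← map_pow, hxy, map_add, map_add, map_mul, map_pow]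
  · have e1 : (fun i => φ ((![x, -1, 0] : Fin 3 → u.adicCompletion M) i)) = ![φ x, -1, 0] := by
      funext i
      fin_cases i <;> simp
    have e2 : (fun i => j (d i)) = fun i => φ (algebraMap M (u.adicCompletion M) (d i)) := by
      funext i
      rw [hφ]
    funext i
    have h1 := Te_m3_map φ (algebraMap M (u.adicCompletion M) a) (algebraMap M (u.adicCompletion M) b)
      (fun i => algebraMap M (u.adicCompletion M) (d i)) ![x, -1, 0] i
    have h2 := Te_m3_map φ (algebraMap M (u.adicCompletion M) a) (algebraMap M (u.adicCompletion M) b)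
      z z i
    rw [e1, hφ, hφ] at h1
    rw [hφ, hφ] at h2
    rw [e2, h1, h2, hm]

end H73P2
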