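import Pool.Agent.H73.P2.Df
import Pool.Agent.H38.T1.Ea

/-!
ROW Ev (project MP_78d38b_P2, about 170 lines): even orders from the local condition at a place where the discriminant has order at
most one.

`ord_sub_loc` (in the form of helper36's row `Pool/Agent/H36/MT/Tc.lean`) enters as the hypothesis `hos`.
PROOF of even_nice. `u = dn k w`, `a = c^4 a'`, `b = c^6 b'`. `θ₁ := θ / c^2`: `Cub k L a' b' θ₁` (model: `Cub.twist` in `H76/PP/Za.lean`). `LC_approx` (H76/PP/Te.lean) for `a, b, θ, d` at `u`: `x, y ∈ k`, `z ∈ L`, `y, z ≠ 0`, `u.valuation ((x^3 + a x + b) / y^2 - 1) < 1` and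
`w.valuation (ev θ d * (x - θ) / z^2 - 1) < 1`. So `x^3 + a x + b ≠ 0`, `ord_u (x^3 + a x + b) = 2 ord_u y` and `ord_w (ev θ d) + ord_w (x - θ) = 2 ord_w z` (`Tg_rel` in H76/PP/Tg.lean is of this kind). It remains that `ord_w (x - θ)` is even.
Put `x₁ = x / c^2`: `x - θ = c^2 (x₁ - θ₁)`, `x^3 + a x + b = c^6 (x₁^3 + a' x₁ + b')`; so `ord_u (x₁^3 + a' x₁ + b')` is even, and `ord_w (x - θ) = 2 ord_w c + ord_w (x₁ - θ₁)`. Case `u.valuation x₁ ≤ 1`: `hos` gives
`w₁` with `ord_{w₁} (x₁ - θ₁) = ord_u (x₁^3 + a' x₁ + b')` even, and `w.valuation (x₁ - θ₁) = 1` for `w ≠ w₁`: even in both cases. Case `1 < u.valuation x₁`: `θ₁` is a root of a monic polynomial with `w`-integral coefficients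
so `w.valuation θ₁ ≤ 1 < w.valuation x₁` (`ord_dn`), hence `w.valuation (x₁ - θ₁) = w.valuation x₁` and `u.valuation (x₁^3 + a' x₁ + b') = u.valuation x₁ ^ 3` (dominant term), so `3 ord_u x₁` is even, `ord_u x₁` is even, and
`ord_w x₁ = e ord_u x₁` (`ord_dn`) is even. `eo w (sc (ev θ d))` is the parity of `ord_w` (`H38T1.eo_sc`). (Compare `even_off` in `H76/PP/Tf.lean` and `Tc.lean`: `ord_sub_big`.)
NiceAt.up: the same `c, a', b'` (images); `u.valuation (algebraMap x) ≤ 1` by `val_le`; the valuation of the discriminant is the same by the hypothesis on `ord` (it is not zero).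
-/

set_option autoImplicit false
set_option linter.unusedSectionVars false
open scoped Classical

open WithZero NumberField IsDedekindDomain H38RT
open H38T1 (SC sc scu rep eo la si Pri OddP tp unif)
open H76PP

namespace H73P2

/-- The statement of the local version of `ord_sub`. -/
def OrdSub : Prop := ∀ {k L : Type} [Field k] [NumberField k] [Field L] [NumberField L] [Algebra k L]
    {a b : k} {θ : L}, Cub k L a b θ → ∀ (v : HeightOneSpectrum (𝓞 k)), v.valuation k a ≤ 1 →
    v.valuation k b ≤ 1 → exp (-1 : ℤ) ≤ v.valuation k (4 * a ^ 3 + 27 * b ^ 2) → ∀ {x : k},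
    v.valuation k x ≤ 1 → x ^ 3 + a * x + b ≠ 0 →
    ∃ w₁ : HeightOneSpectrum (𝓞 L), dn k w₁ = v ∧
      ord (w₁.valuation L) (algebraMap k L x - θ) = ord (v.valuation k) (x ^ 3 + a * x + b) ∧
      ∀ w : HeightOneSpectrum (𝓞 L), dn k w = v → w ≠ w₁ →
        w.valuation L (algebraMap k L x - θ) = 1

section Ev

variable {F : Type} [Field F]

theorem Ev_V {V : Valuation F (WithZero (Multiplicative ℤ))} {x : F} (hx : x ≠ 0) :
    V x = exp (- ord V x) := by
  unfold ord
  rw [neg_neg, exp_log ((Valuation.ne_zero_iff V).2 hx)]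

theorem Ev_ratio (V : Valuation F (WithZero (Multiplicative ℤ))) {a b : F}
    (hb : b ≠ 0) (h : V (a / b - 1) < 1) : a ≠ 0 ∧ ord V a = ord V b := by
  have h1 : V (a / b) = 1 := by
    have e : a / b = 1 + (a / b - 1) := by ring
    rw [e]
    exact V.map_one_add_of_lt h
  have ha : a ≠ 0 := by
    rintro rfl
    rw [zero_div, map_zero] at h1
    exact zero_ne_one h1
  refine ⟨ha, ?_⟩
  have e : a = a / b * b := by field_simp
  have h2 : V a = V b := by
    rw [e, map_mul, h1, one_mul]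
  unfold ord
  rw [h2]

theorem Ev_ord_one (V : Valuation F (WithZero (Multiplicative ℤ))) {a : F}
    (h : V a = 1) : ord V a = 0 := by
  unfold ord
  rw [h, log_one, neg_zero]

theorem Ev_ord_pow (V : Valuation F (WithZero (Multiplicative ℤ))) (a : F)
    (n : ℕ) : ord V (a ^ n) = n * ord V a := by
  unfold ord
  rw [map_pow, log_pow, nsmul_eq_mul]
  ring

end Ev

theorem Ev_twist {k L : Type} [Field k] [Field L] [Algebra k L] {A B : k} {θ : L}
    (h : Cub k L A B θ) {D : k} (hD : D ≠ 0) :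
    Cub k L (D ^ 2 * A) (D ^ 3 * B) (algebraMap k L D * θ) := by
  have hr := h.root
  have hD' : algebraMap k L D ≠ 0 := (map_ne_zero _).2 hD
  refine ⟨?_, ?_, ?_⟩
  · simp only [map_mul, map_pow]
    linear_combination (algebraMap k L D) ^ 3 * hr
  · intro c₀ c₁ c₂ hc
    have h1 : algebraMap k L c₀ + algebraMap k L (c₁ * D) * θ +
        algebraMap k L (c₂ * D ^ 2) * θ ^ 2 = 0 := by
      simp only [map_mul, map_pow]
      linear_combination hc
    obtain ⟨h0, h2, h3⟩ := h.li _ _ _ h1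
    refine ⟨h0, ?_, ?_⟩
    · exact (mul_eq_zero.1 h2).resolve_right hD
    · exact (mul_eq_zero.1 h3).resolve_right (pow_ne_zero 2 hD)
  · intro x
    obtain ⟨c₀, c₁, c₂, hx⟩ := h.sp x
    refine ⟨c₀, c₁ / D, c₂ / D ^ 2, ?_⟩
    rw [hx]
    simp only [map_div₀, map_pow]
    field_simp

/-- An element with a denominator. -/
theorem Ev_big {k L : Type} [Field k] [NumberField k] [Field L] [NumberField L] [Algebra k L]
    {a b : k} {θ : L} (hr : θ ^ 3 + algebraMap k L a * θ + algebraMap k L b = 0)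
    {w : HeightOneSpectrum (𝓞 L)} (ha : (dn k w).valuation k a ≤ 1)
    (hb : (dn k w).valuation k b ≤ 1) {x : k} (hx : 1 < (dn k w).valuation k x) :
    w.valuation L (algebraMap k L x - θ) = w.valuation L (algebraMap k L x) ∧
    (dn k w).valuation k (x ^ 3 + a * x + b) = (dn k w).valuation k x ^ 3 := by
  have hx0 : x ≠ 0 := by
    rintro rfl
    rw [map_zero] at hx
    exact absurd hx (not_lt.2 zero_le_one)
  have hxi : (dn k w).valuation k x⁻¹ < 1 := by
    rw [map_inv₀]
    exact inv_lt_one_of_one_lt₀ hx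
  have hwi : w.valuation L (algebraMap k L x⁻¹) < 1 := val_lt hxi
  have hwx0 : w.valuation L (algebraMap k L x) ≠ 0 :=
    (Valuation.ne_zero_iff _).2 ((map_ne_zero _).2 hx0)
  have hwx : 1 < w.valuation L (algebraMap k L x) := by
    rw [map_inv₀, map_inv₀] at hwi
    exact (inv_lt_one₀ (zero_lt_iff.2 hwx0)).1 hwi
  have hwa : w.valuation L (algebraMap k L a) ≤ 1 := val_le ha
  have hwb : w.valuation L (algebraMap k L b) ≤ 1 := val_le hb
  have hwt : w.valuation L θ ≤ 1 := by
    by_contra hcon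
    rw [not_le] at hcon
    have h0 : 0 < w.valuation L θ := lt_trans zero_lt_one hcon
    have e1 : θ ^ 3 = -(algebraMap k L a * θ + algebraMap k L b) := by linear_combination hr
    have e2 : w.valuation L θ ^ 3 ≤ w.valuation L θ := by
      rw [← map_pow, e1, Valuation.map_neg]
      refine (w.valuation L).map_add_le ?_ (hwb.trans hcon.le)
      rw [map_mul]
      exact mul_le_of_le_one_left' hwa
    have e3 : w.valuation L θ < w.valuation L θ ^ 3 := by
      calc w.valuation L θ = w.valuation L θ ^ 1 := (pow_one _).symm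
        _ < w.valuation L θ ^ 3 := pow_lt_pow_right₀ hcon (by norm_num)
    exact absurd e2 (not_le.2 e3)
  have h3 : (dn k w).valuation k ((x ^ 3 + a * x + b) / x ^ 3 - 1) < 1 := by
    have e1 : (x ^ 3 + a * x + b) / x ^ 3 - 1 = x⁻¹ * (x⁻¹ * (a + b * x⁻¹)) := by
      field_simp
      ring
    have e2 : (dn k w).valuation k (a + b * x⁻¹) ≤ 1 := by
      refine ((dn k w).valuation k).map_add_le ha ?_
      rw [map_mul]
      exact mul_le_one' hb hxi.le
    rw [e1, map_mul, map_mul]
    calc _ ≤ (dn k w).valuation k x⁻¹ * 1 := mul_le_mul_right (mul_le_one' hxi.le e2) _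
      _ < 1 := by rw [mul_one]; exact hxi
  refine ⟨?_, ?_⟩
  · refine Valuation.map_eq_of_sub_lt _ ?_
    have e1 : algebraMap k L x - θ - algebraMap k L x = -θ := by ring
    rw [e1, Valuation.map_neg]
    exact lt_of_le_of_lt hwt hwx
  · have h4 : (dn k w).valuation k ((x ^ 3 + a * x + b) / x ^ 3) = 1 := by
      have h5 := Valuation.map_eq_of_sub_lt ((dn k w).valuation k) (x := 1)
        (y := (x ^ 3 + a * x + b) / x ^ 3) (by rw [map_one]; exact h3)
      rw [h5, map_one]
    rw [map_div₀, map_pow] at h4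
    have h6 : (dn k w).valuation k x ^ 3 ≠ 0 := pow_ne_zero 3 ((Valuation.ne_zero_iff _).2 hx0)
    exact (div_eq_one_iff_eq h6).1 h4

theorem even_nice (hos : OrdSub) {k L : Type} [Field k] [NumberField k] [Field L] [NumberField L]
    [Algebra k L] {a b : k} {θ : L} (h : Cub k L a b θ) (w : HeightOneSpectrum (𝓞 L))
    (hN : NiceAt (dn k w) a b) {d : Fin 3 → k} (hd : ev θ d ≠ 0)
    (hLC : LC (algebraMap k ((dn k w).adicCompletion k)) a b d) : eo w (sc (ev θ d)) = 0 := by
  obtain ⟨c, a', b', hc, ha, hb, ha', hb', hD⟩ := hN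
  have hc2 : (c ^ 2)⁻¹ ≠ 0 := inv_ne_zero (pow_ne_zero 2 hc)
  have ha2 : ((c ^ 2)⁻¹) ^ 2 * a = a' := by rw [ha]; field_simp
  have hb2 : ((c ^ 2)⁻¹) ^ 3 * b = b' := by rw [hb]; field_simp
  have h1' := Ev_twist h hc2
  rw [ha2, hb2] at h1'
  obtain ⟨θ₁, hθ₁⟩ : ∃ θ₁ : L, θ₁ = algebraMap k L (c ^ 2)⁻¹ * θ := ⟨_, rfl⟩
  rw [← hθ₁] at h1'
  have hcL : algebraMap k L c ≠ 0 := (map_ne_zero _).2 hc
  have hθ : θ = algebraMap k L c ^ 2 * θ₁ := by
    rw [hθ₁, map_inv₀, map_pow]
    field_simp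
  obtain ⟨x', y, z, hy, hz, g1, g2⟩ := LC_approx h hd (dn k w) hLC
  have g2w := g2 w rfl
  obtain ⟨x, rfl⟩ : ∃ x : k, x' = c ^ 2 * x := ⟨x' / c ^ 2, by field_simp⟩
  obtain ⟨h3, h4⟩ := Ev_ratio ((dn k w).valuation k) (pow_ne_zero 2 hy) g1
  obtain ⟨h5, h6⟩ := Ev_ratio (w.valuation L) (pow_ne_zero 2 hz) g2w
  have e1 : (c ^ 2 * x) ^ 3 + a * (c ^ 2 * x) + b = c ^ 6 * (x ^ 3 + a' * x + b') := by
    rw [ha, hb]
    ring
  have e2 : ev θ d * (algebraMap k L (c ^ 2 * x) - θ) =
      ev θ d * (algebraMap k L c ^ 2 * (algebraMap k L x - θ₁)) := by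
    rw [map_mul, map_pow, hθ]
    ring
  rw [e1] at h3 h4
  rw [e2] at h5 h6
  have hf : x ^ 3 + a' * x + b' ≠ 0 := right_ne_zero_of_mul h3
  have hxt : algebraMap k L x - θ₁ ≠ 0 := right_ne_zero_of_mul (right_ne_zero_of_mul h5)
  rw [ord_mul (pow_ne_zero 6 hc) hf, Ev_ord_pow, Ev_ord_pow] at h4
  rw [ord_mul hd (mul_ne_zero (pow_ne_zero 2 hcL) hxt), ord_mul (pow_ne_zero 2 hcL) hxt,
    Ev_ord_pow, Ev_ord_pow] at h6
  have key : Even (ord (w.valuation L) (algebraMap k L x - θ₁)) := by
    by_cases hx : (dn k w).valuation k x ≤ 1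
    · obtain ⟨w₁, -, hw1, hw2⟩ := hos h1' (dn k w) ha' hb' hD hx hf
      by_cases hww : w = w₁
      · rw [hww, hw1]
        refine ⟨ord ((dn k w).valuation k) y - 3 * ord ((dn k w).valuation k) c, ?_⟩
        push_cast at h4
        linarith
      · rw [Ev_ord_one _ (hw2 w rfl hww)]
        exact Even.zero
    · rw [not_le] at hx
      obtain ⟨q1, q2⟩ := Ev_big h1'.root ha' hb' hx
      have hx0 : x ≠ 0 := by
        rintro rfl
        rw [map_zero] at hx
        exact absurd hx (not_lt.2 zero_le)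
      obtain ⟨e, -, he⟩ := ord_dn (K := k) w
      have g5 : ord (w.valuation L) (algebraMap k L x - θ₁) =
          e * ord ((dn k w).valuation k) x := by
        rw [← he x hx0]
        unfold ord
        rw [q1]
      have g6 : ord ((dn k w).valuation k) (x ^ 3 + a' * x + b') =
          3 * ord ((dn k w).valuation k) x := by
        have g7 := Ev_ord_pow ((dn k w).valuation k) x 3
        rw [Nat.cast_ofNat] at g7
        rw [← g7]
        unfold ord
        rw [q2, map_pow]
      rw [g5]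
      refine Even.mul_left ?_ _
      refine ⟨ord ((dn k w).valuation k) y - ord ((dn k w).valuation k) x -
        3 * ord ((dn k w).valuation k) c, ?_⟩
      rw [g6] at h4
      push_cast at h4
      linarith
  rw [H38T1.eo_sc hd]
  obtain ⟨m, hm⟩ := key
  have h7 : ord (w.valuation L) (ev θ d) =
      (ord (w.valuation L) z - m - ord (w.valuation L) (algebraMap k L c)) +
      (ord (w.valuation L) z - m - ord (w.valuation L) (algebraMap k L c)) := by
    push_cast at h6
    linarith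
  rw [h7, Int.cast_add]
  exact CharTwo.add_self_eq_zero _

theorem NiceAt.up {K k : Type} [Field K] [NumberField K] [Field k] [NumberField k] [Algebra K k]
    {u : HeightOneSpectrum (𝓞 k)} (he : ∀ x : K, x ≠ 0 →
      ord (u.valuation k) (algebraMap K k x) = ord ((dn K u).valuation K) x) {a b : K}
    (h : NiceAt (dn K u) a b) : NiceAt u (algebraMap K k a) (algebraMap K k b) := by
  obtain ⟨c, a', b', hc, ha, hb, ha', hb', hD⟩ := h
  refine ⟨algebraMap K k c, algebraMap K k a', algebraMap K k b', (map_ne_zero _).2 hc, ?_, ?_,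
    val_le ha', val_le hb', ?_⟩
  · rw [ha, map_mul, map_pow]
  · rw [hb, map_mul, map_pow]
  · have h0 : 4 * a' ^ 3 + 27 * b' ^ 2 ≠ 0 := by
      intro h0
      rw [h0, map_zero] at hD
      exact absurd (le_zero_iff.1 hD) exp_ne_zero
    have h0' : algebraMap K k (4 * a' ^ 3 + 27 * b' ^ 2) ≠ 0 := (map_ne_zero _).2 h0
    have e1 : 4 * algebraMap K k a' ^ 3 + 27 * algebraMap K k b' ^ 2 =
        algebraMap K k (4 * a' ^ 3 + 27 * b' ^ 2) := by
      simp only [map_add, map_mul, map_pow, map_ofNat]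
    rw [e1, Ev_V h0', he _ h0, ← Ev_V h0]
    exact hD

end H73P2
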