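import Mathlib

/-!
ROW Hf (project MP_78d38b_P2, about 100 lines, Mathlib only): a subfield of index two; irreducible cubics stay irreducible.

PROOF. exists_half: `G = N ≃ₐ[K] N`, `#G = 2^r` (`IsGalois.card_aut_eq_finrank`). Let `k₁ : IntermediateField K N` be the image of `k'` (`(IsScalarTower.toAlgHom K k' N).fieldRange`) and
`H = k₁.fixingSubgroup`; `#H * finrank K k' = 2^r` (`IntermediateField.finrank_fixedField_eq_card`, `IsGalois.fixedField_fixingSubgroup`, `Module.finrank_mul_finrank`), so `#H = 2^s` with `s < r` as
`finrank K k' ≠ 1`. `Sylow.exists_subgroup_card_pow_succ` (Mathlib, `Mathlib/GroupTheory/Sylow.lean`): there is a subgroup `H'` with `#H' = 2^(s+1)` and `H ≤ H'`. `F := fixedField H' ≤ fixedField H = k₁`, `finrank F N = 2^(s+1)`.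
`k := F.comap (IsScalarTower.toAlgHom K k' N)` (`IntermediateField.comap`), the elements of `k'` whose image is in `F`. `finrank K k = finrank K F = 2^r / 2^(s+1)` (the map `k → F` is an isomorphism since `F ≤ k₁ =` range:
`LinearEquiv.finrank_eq`), `finrank K k' = 2^r / 2^s`, so `finrank k k' = 2` (`Module.finrank_mul_finrank K k k'`).
Alternative: the Galois correspondence `IsGalois.intermediateFieldEquivSubgroup`.
noroot: `f = X^3 + C a X + C b` has degree three and no root in `K`, so it is irreducible (`Polynomial.Monic.irreducible_iff_roots_eq_zero_of_degree_le_three` or `irreducible_of_degree_le_three_of_not_isRoot`), hence it is the minimal polynomial of a root `t ∈ k` and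
`3 = natDegree (minpoly K t)` divides `finrank K k` (`minpoly.natDegree_dvd_finrank`?; `IntermediateField.adjoin.finrank` and `Module.finrank_mul_finrank`), which divides `2^r` (`finrank K k * finrank k N = 2^r`): contradiction
(`Nat.Prime.eq_one_of...`, `(Nat.prime_dvd_prime_iff_eq ..)`).
-/

set_option autoImplicit false
set_option linter.unusedSectionVars false

namespace H73P2

open IntermediateField in
theorem exists_half {K N k' : Type} [Field K] [Field N] [Field k'] [Algebra K N]
    [FiniteDimensional K N] [IsGalois K N] [Algebra K k'] [Algebra k' N] [IsScalarTower K k' N]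
    {r : ℕ} (hr : Module.finrank K N = 2 ^ r) (h1 : Module.finrank K k' ≠ 1) :
    ∃ k : IntermediateField K k', Module.finrank k k' = 2 := by
  haveI : Fact (Nat.Prime 2) := ⟨Nat.prime_two⟩
  haveI : FiniteDimensional K k' := FiniteDimensional.left K k' N
  set f : k' →ₐ[K] N := IsScalarTower.toAlgHom K k' N with hf
  set k₁ : IntermediateField K N := f.fieldRange with hk₁
  have hfin : Module.finrank K k' = Module.finrank K k₁ :=
    (AlgHom.equivFieldRange f).toLinearEquiv.finrank_eq
  have hmul : Module.finrank K k₁ * Module.finrank k₁ N = 2 ^ r := by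
    rw [Module.finrank_mul_finrank, hr]
  have hcard : Nat.card (N ≃ₐ[K] N) = 2 ^ r := by
    rw [← hr]
    exact IsGalois.card_aut_eq_finrank K N
  have hH : Nat.card k₁.fixingSubgroup = Module.finrank k₁ N :=
    IsGalois.card_fixingSubgroup_eq_finrank k₁
  obtain ⟨s, hsr, hs⟩ := (Nat.dvd_prime_pow Nat.prime_two).1 (Dvd.intro_left _ hmul)
  have hlt : s < r := by
    rcases hsr.lt_or_eq with h | h
    · exact h
    · exfalso
      rw [hs, h] at hmul
      have h2 : Module.finrank K k₁ = 1 :=
        Nat.eq_of_mul_eq_mul_right (pow_pos two_pos r) (by rw [hmul, one_mul])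
      exact h1 (hfin.trans h2)
  obtain ⟨H', hH', hle⟩ := Sylow.exists_subgroup_card_pow_succ (p := 2) (n := s)
    (by rw [hcard]; exact pow_dvd_pow 2 hlt) (hH.trans hs)
  set F : IntermediateField K N := fixedField H' with hF
  have hFk : F ≤ k₁ := by
    have h2 : F ≤ fixedField k₁.fixingSubgroup := by
      intro x hx
      rw [mem_fixedField_iff]
      intro g hg
      exact (mem_fixedField_iff H' x).1 hx g (hle hg)
    rwa [IsGalois.fixedField_fixingSubgroup] at h2
  have hFN : Module.finrank F N = 2 ^ (s + 1) := by
    rw [hF, finrank_fixedField_eq_card, hH']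
  have hmulF : Module.finrank K F * Module.finrank F N = 2 ^ r := by
    rw [Module.finrank_mul_finrank, hr]
  refine ⟨F.comap f, ?_⟩
  have hmap : (F.comap f).map f = F := by
    ext x
    constructor
    · rintro ⟨y, hy, rfl⟩
      exact hy
    · intro hx
      obtain ⟨y, hy⟩ := (hFk hx : x ∈ f.fieldRange)
      refine ⟨y, ?_, hy⟩
      change f y ∈ F
      have hy' : f y = x := hy
      rw [hy']
      exact hx
  have h3 : Module.finrank K (F.comap f) = Module.finrank K F := by
    have h4 := ((F.comap f).equivMap f).toLinearEquiv.finrank_eq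
    rw [hmap] at h4
    exact h4
  have h5 : Module.finrank K (F.comap f) * Module.finrank (F.comap f) k' = Module.finrank K k' :=
    Module.finrank_mul_finrank _ _ _
  rw [h3, hfin] at h5
  have h6 : Module.finrank K k₁ * 2 ^ s = (Module.finrank K F * 2) * 2 ^ s := by
    rw [← hs, hmul, hs, ← hmulF, hFN, pow_succ]
    ring
  have h7 : Module.finrank K k₁ = Module.finrank K F * 2 :=
    Nat.eq_of_mul_eq_mul_right (pow_pos two_pos s) h6
  have h8 : 0 < Module.finrank K F := Module.finrank_pos
  exact Nat.eq_of_mul_eq_mul_left h8 (h5.trans h7)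

open Polynomial in
theorem noroot {K N k : Type} [Field K] [Field N] [Field k] [Algebra K N] [FiniteDimensional K N]
    [Algebra K k] [Algebra k N] [IsScalarTower K k N] {r : ℕ} (hr : Module.finrank K N = 2 ^ r)
    {a b : K} (h : ∀ t : K, t ^ 3 + a * t + b ≠ 0) (t : k) :
    t ^ 3 + algebraMap K k a * t + algebraMap K k b ≠ 0 := by
  intro ht
  haveI : FiniteDimensional K k := FiniteDimensional.left K k N
  set f : K[X] := X ^ 3 + (C a * X + C b) with hf
  have hlt : (C a * X + C b : K[X]).degree < ((3 : ℕ) : WithBot ℕ) :=
    degree_linear_le.trans_lt (by norm_num)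
  have hdeg : f.natDegree = 3 := by
    have h1 : f.degree = ((3 : ℕ) : WithBot ℕ) := by
      rw [hf, degree_add_eq_left_of_degree_lt, degree_X_pow]
      rw [degree_X_pow]
      exact hlt
    exact natDegree_eq_of_degree_eq_some h1
  have hmonic : f.Monic := monic_X_pow_add hlt
  have hirr : Irreducible f := by
    refine irreducible_of_degree_le_three_of_not_isRoot (by rw [hdeg]; decide) ?_
    intro x hx
    rw [IsRoot.def, hf] at hx
    simp only [eval_add, eval_pow, eval_X, eval_mul, eval_C] at hx
    exact h x (by rw [← hx]; ring)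
  have haev : aeval t f = 0 := by
    rw [hf]
    simp only [map_add, map_pow, aeval_X, map_mul, aeval_C]
    rw [← ht]
    ring
  have hmin : f = minpoly K t := minpoly.eq_of_irreducible_of_monic hirr haev hmonic
  have hint : IsIntegral K t := Algebra.IsIntegral.isIntegral t
  have h3 : 3 ∣ Module.finrank K k := by
    have := minpoly.degree_dvd hint
    rwa [← hmin, hdeg] at this
  have h4 : Module.finrank K k ∣ 2 ^ r := by
    rw [← hr]
    exact Dvd.intro _ (Module.finrank_mul_finrank K k N)
  have h5 := Nat.prime_three.dvd_of_dvd_pow (h3.trans h4)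
  norm_num at h5

end H73P2
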