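import Pool.Agent.H73.P2.Df
import Pool.Agent.H38.T1.Ea

/-!
ROW Nq (project MP_78d38b_P2, about 130 lines): if the cubic has no root modulo `u` there is one prime of `L` above `u`, and elements of
square norm have even order there.

PROOF. `u = dn k w`. Let `c, a', b'` be as in `NoRootAt`; replace `θ` by `θ₁ = θ / c^2`, a root of `x^3 + a' x + b'` (`a', b'` are `u`-integral but
perhaps not integral elsewhere; that does not matter). Claim: `UniqueOver k L u.asIdeal` (`Pool/Agent/H10/RelVal.lean`); then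
`Pool.Agent.H10.even_of_norm_sq` (odd degree `3`, `Cub.finrank`) gives `Even (log (w.valuation L x))`, and `eo w (sc x)` is the parity of
`ord = - log` (`H38T1.eo_sc`).
Proof of the claim (valuations). It suffices that there is only one place `w` of `L` above `u` (a prime `P` containing `u 𝓞 L` is not zero, so it is a
place with `dn k P = u`, as `u` is maximal). Let `w` be any place above `u`. Consider `y = c₀ + c₁ θ₁ + c₂ θ₁^2 ∈ L`, `c_i ∈ k`. I claim
`w.valuation y = max_i w.valuation (algebraMap c_i)`: after scaling by an element of `k` (an element with the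
maximal valuation among `c₀, c₁, c₂`) we may assume that all `c_i` are `u`-integral and one is a `u`-unit, and we have to show `w.valuation y = 1`. `≤ 1` is clear (`θ₁` is a root of a
monic polynomial with `w`-integral coefficients, so `w.valuation θ₁ ≤ 1`). If `< 1`: in the residue field `κ` of `w` the image `t` of `θ₁` satisfies a nontrivial polynomial `g` of degree `≤ 2` over the
residue field `κ₀` of `u`, and the cubic `f'`, which has no root in `κ₀`, hence is irreducible over `κ₀` (`Polynomial.irreducible_of_degree_le_three_of_not_isRoot`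
or `Irreducible` iff no roots for degree 3): contradiction with `f' = minpoly`. [By hand: a Bezout identity: `f'` irreducible and `g ≠ 0` of smaller degree are coprime.]
An elementary way without residue fields: `N(y) = Te_nf a' b' c ∈ k`, and `y` divides its norm: `y * y' = N(y)` with `y' = ev θ₁ (Te_C a' b' c)` `w`-integral, so it suffices that
`u.valuation (Te_nf a' b' c) = 1` for `u`-integral `c` with a unit coordinate. This is the norm form of the cubic over the residue field: if `c 2` is not a unit and `c 1` is a unit then `Te_nf ≡ - c 1^3 f'(-c 0 / c 1)` (the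
resultant), a unit by hypothesis; if `c 1`, `c 2` are not units: `≡ c 0 ^ 3`; if `c 2` is a unit (say `1`): use the identity
`Te_nf (u) * Te_nf (m, 1, 0) = Te_nf (m3 u (m, 1, 0))` with `m = - c 1 / c 2`: the product `(c 0 + c 1 θ + c 2 θ^2)(m + θ)` has second coordinate `c 1 + c 2 m = 0`, so it is congruent to an element with `c 2 = 0`
which is not zero modulo `u` because ... (if it is zero mod `u` then `(c 0 + c 1 θ + c 2 θ^2)(m + θ) = c 2 f'(θ)`, so `-m` is a root of `f'` modulo `u`, excluded.)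
Consequence: two places `w, w'` above `u` have: `w.valuation y ≤ 1` iff `max u.valuation (c_i) ≤ 1` iff `w'.valuation y ≤ 1`; an element
of `w.asIdeal` not in `w'.asIdeal` would have `w.valuation y < 1`, all `c_i` of valuation `< 1` at `u` (`w.valuation (algebraMap c) = 1` iff `u.valuation c = 1`, `ord_dn`/`val_lt`/`val_one` in `H76/PP/Ta.lean`), so
`w'.valuation y < 1`. So `w = w'`.
-/

set_option autoImplicit false
set_option linter.unusedSectionVars false
open scoped Classical

open WithZero NumberField IsDedekindDomain H38RT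
open H38T1 (SC sc scu rep eo la si Pri OddP tp unif)
open H76PP

namespace H73P2

section Val

variable {F Γ : Type*} [Field F] [LinearOrderedCommGroupWithZero Γ] {V : Valuation F Γ}

private lemma Nq_mul_lt {p q : F} (hp : V p ≤ 1) (hq : V q < 1) : V (p * q) < 1 := by
  rw [map_mul]
  calc V p * V q ≤ 1 * V q := mul_le_mul' hp le_rfl
    _ = V q := one_mul _
    _ < 1 := hq

private lemma Nq_mul_le {p q : F} (hp : V p ≤ 1) (hq : V q ≤ 1) : V (p * q) ≤ 1 := by
  rw [map_mul]
  exact mul_le_one' hp hq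

private lemma Nq_add_one {p q : F} (hp : V p = 1) (hq : V q < 1) : V (p + q) = 1 := by
  rw [← hp]
  exact Valuation.map_add_eq_of_lt_left V (by rw [hp]; exact hq)

private lemma Nq_form {a b : F} (hr : ∀ t : F, V t ≤ 1 → V (t ^ 3 + a * t + b) = 1)
    {x y : F} (hx : V x ≤ 1) (hy : V y = 1) : V (x ^ 3 + a * x * y ^ 2 - b * y ^ 3) = 1 := by
  have hy0 : y ≠ 0 := by
    rintro rfl
    rw [map_zero] at hy
    exact zero_ne_one hy
  have h1 := hr (-x / y) (by rw [map_div₀, Valuation.map_neg, hy, div_one]; exact hx)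
  have h2 : x ^ 3 + a * x * y ^ 2 - b * y ^ 3 = -(y ^ 3 * ((-x / y) ^ 3 + a * (-x / y) + b)) := by
    field_simp
    ring
  rw [h2, Valuation.map_neg, map_mul, h1, map_pow, hy, one_pow, one_mul]

private lemma Nq_nf {a b : F} (ha : V a ≤ 1) (hb : V b ≤ 1)
    (hr : ∀ t : F, V t ≤ 1 → V (t ^ 3 + a * t + b) = 1) {c : Fin 3 → F} (hc : ∀ j, V (c j) ≤ 1)
    {j : Fin 3} (hj : V (c j) = 1) : V (Te_nf a b c) = 1 := by
  have hx := hc 0
  have hy := hc 1
  have hz := hc 2
  by_cases h2 : V (c 2) = 1
  · have hz0 : c 2 ≠ 0 := by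
      intro h
      rw [h, map_zero] at h2
      exact zero_ne_one h2
    obtain ⟨m, hm⟩ : ∃ m : F, m = -(c 1) / c 2 := ⟨_, rfl⟩
    have hmV : V m ≤ 1 := by
      rw [hm, map_div₀, Valuation.map_neg, h2, div_one]
      exact hy
    have hym : c 1 = -(m * c 2) := by
      rw [hm, div_mul_cancel₀ _ hz0, neg_neg]
    obtain ⟨P, hP⟩ : ∃ P : F, P = c 0 * m - b * c 2 := ⟨_, rfl⟩
    obtain ⟨Q, hQ⟩ : ∃ Q : F, Q = c 0 + c 1 * m - a * c 2 := ⟨_, rfl⟩
    have hM : V (m ^ 3 + a * m - b) = 1 := by
      have h3 := hr (-m) (by rw [Valuation.map_neg]; exact hmV)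
      have h4 : m ^ 3 + a * m - b = -((-m) ^ 3 + a * (-m) + b) := by ring
      rw [h4, Valuation.map_neg, h3]
    have hmul : Te_nf a b c * (m ^ 3 + a * m - b) = P ^ 3 + a * P * Q ^ 2 - b * Q ^ 3 := by
      have h3 := Te_nf_mul a b c ![m, 1, 0]
      have h4 : Te_nf a b ![m, 1, 0] = m ^ 3 + a * m - b := by
        simp only [Te_nf, Matrix.cons_val_zero, Matrix.cons_val_one, Matrix.cons_val_two,
          Matrix.head_cons, Matrix.tail_cons]
        ring
      have h5 : m3 a b c ![m, 1, 0] = ![P, Q, 0] := by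
        funext i
        fin_cases i
        · simp [m3, hP]
        · simp [m3, hQ]
        · simp [m3, hym]
          ring
      rw [← h4, ← h3, h5]
      simp only [Te_nf, Matrix.cons_val_zero, Matrix.cons_val_one, Matrix.cons_val_two,
        Matrix.head_cons, Matrix.tail_cons]
      ring
    have hPV : V P ≤ 1 := by
      have : P ∈ V.integer := by
        rw [hP]
        exact sub_mem (mul_mem hx hmV) (mul_mem hb hz)
      exact this
    have hQV : V Q ≤ 1 := by
      have : Q ∈ V.integer := by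
        rw [hQ]
        exact sub_mem (add_mem hx (mul_mem hy hmV)) (mul_mem ha hz)
      exact this
    have hkey : V (P ^ 3 + a * P * Q ^ 2 - b * Q ^ 3) = 1 := by
      by_cases hQ1 : V Q = 1
      · exact Nq_form hr hPV hQ1
      · have hQ2 : V Q < 1 := lt_of_le_of_ne hQV hQ1
        have hP1 : V P = 1 := by
          have e : P = c 2 * (m ^ 3 + a * m - b) + m * Q := by
            rw [hP, hQ, hym]
            ring
          rw [e]
          apply Nq_add_one
          · rw [map_mul, h2, hM, one_mul]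
          · exact Nq_mul_lt hmV hQ2
        have e : P ^ 3 + a * P * Q ^ 2 - b * Q ^ 3 = P ^ 3 + ((a * P - b * Q) * Q) * Q := by ring
        rw [e]
        apply Nq_add_one
        · rw [map_pow, hP1, one_pow]
        · apply Nq_mul_lt _ hQ2
          have : (a * P - b * Q) * Q ∈ V.integer :=
            mul_mem (sub_mem (mul_mem ha hPV) (mul_mem hb hQV)) hQV
          exact this
    rw [← hmul, map_mul, hM, mul_one] at hkey
    exact hkey
  · have h2' : V (c 2) < 1 := lt_of_le_of_ne hz h2
    have e : Te_nf a b c = (c 0 ^ 3 + a * c 0 * c 1 ^ 2 - b * c 1 ^ 3) +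
        (-(a * c 0 ^ 2 + a * c 0 ^ 2) + a ^ 2 * c 0 * c 2 + (b * c 0 * c 1 + b * c 0 * c 1 +
          b * c 0 * c 1) + b ^ 2 * c 2 ^ 2 - a * b * c 1 * c 2) * c 2 := by
      simp only [Te_nf]
      ring
    have hE : -(a * c 0 ^ 2 + a * c 0 ^ 2) + a ^ 2 * c 0 * c 2 + (b * c 0 * c 1 + b * c 0 * c 1 +
          b * c 0 * c 1) + b ^ 2 * c 2 ^ 2 - a * b * c 1 * c 2 ∈ V.integer := by
      have ha' : a ∈ V.integer := ha
      have hb' : b ∈ V.integer := hb
      have hx' : c 0 ∈ V.integer := hx
      have hy' : c 1 ∈ V.integer := hy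
      have hz' : c 2 ∈ V.integer := hz
      have e1 : b * c 0 * c 1 ∈ V.integer := mul_mem (mul_mem hb' hx') hy'
      exact sub_mem (add_mem (add_mem (add_mem (neg_mem (add_mem (mul_mem ha' (pow_mem hx' 2))
        (mul_mem ha' (pow_mem hx' 2)))) (mul_mem (mul_mem (pow_mem ha' 2) hx') hz'))
        (add_mem (add_mem e1 e1) e1)) (mul_mem (pow_mem hb' 2) (pow_mem hz' 2)))
        (mul_mem (mul_mem (mul_mem ha' hb') hy') hz')
    rw [e]
    apply Nq_add_one _ (Nq_mul_lt hE h2')
    by_cases h1 : V (c 1) = 1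
    · exact Nq_form hr hx h1
    · have h1' : V (c 1) < 1 := lt_of_le_of_ne hy h1
      have h0 : V (c 0) = 1 := by
        fin_cases j
        · exact hj
        · exact absurd hj h1
        · exact absurd hj h2
      have e2 : c 0 ^ 3 + a * c 0 * c 1 ^ 2 - b * c 1 ^ 3 =
          c 0 ^ 3 + ((a * c 0 - b * c 1) * c 1) * c 1 := by ring
      rw [e2]
      apply Nq_add_one
      · rw [map_pow, h0, one_pow]
      · apply Nq_mul_lt _ h1'
        have : (a * c 0 - b * c 1) * c 1 ∈ V.integer :=
          mul_mem (sub_mem (mul_mem ha hx) (mul_mem hb hy)) hy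
        exact this

private lemma Nq_theta {a b θ : F} (hr : θ ^ 3 + a * θ + b = 0) (ha : V a ≤ 1) (hb : V b ≤ 1) :
    V θ ≤ 1 := by
  by_contra h
  have h1 : 1 < V θ := not_le.1 h
  have h0 : θ ≠ 0 := by
    rintro rfl
    rw [map_zero] at h1
    exact absurd h1 (not_lt.2 zero_le_one)
  have h2 : V θ⁻¹ < 1 := by
    rw [map_inv₀]
    exact inv_lt_one_of_one_lt₀ h1
  have h3 : (1 : F) + (a * θ⁻¹ + b * θ⁻¹ * θ⁻¹) * θ⁻¹ = 0 := by
    have h4 : (1 : F) + (a * θ⁻¹ + b * θ⁻¹ * θ⁻¹) * θ⁻¹ = (θ ^ 3 + a * θ + b) * (θ⁻¹) ^ 3 := by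
      field_simp
      ring
    rw [h4, hr, zero_mul]
  have h5 : V ((a * θ⁻¹ + b * θ⁻¹ * θ⁻¹) * θ⁻¹) < 1 := by
    apply Nq_mul_lt _ h2
    have hi : θ⁻¹ ∈ V.integer := h2.le
    have : a * θ⁻¹ + b * θ⁻¹ * θ⁻¹ ∈ V.integer :=
      add_mem (mul_mem ha hi) (mul_mem (mul_mem hb hi) hi)
    exact this
  have h6 := Nq_add_one (map_one V) h5
  rw [h3, map_zero] at h6
  exact zero_ne_one h6

end Val

variable {k L : Type} [Field k] [NumberField k] [Field L] [NumberField L] [Algebra k L]

omit [NumberField k] [NumberField L] in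
/-- The cubic after scaling. -/
private lemma Nq_cub {a b : k} {θ : L} (h : Cub k L a b θ) {c a' b' : k} (hc : c ≠ 0)
    (ha : a = c ^ 4 * a') (hb : b = c ^ 6 * b') : Cub k L a' b' (θ / algebraMap k L c ^ 2) := by
  have hC : algebraMap k L c ≠ 0 := by
    rw [Ne, map_eq_zero]
    exact hc
  refine ⟨?_, ?_, ?_⟩
  · have h1 := h.root
    rw [ha, hb, map_mul, map_mul, map_pow, map_pow] at h1
    have h2 : (θ / algebraMap k L c ^ 2) ^ 3 + algebraMap k L a' * (θ / algebraMap k L c ^ 2) +
        algebraMap k L b' = (θ ^ 3 + algebraMap k L c ^ 4 * algebraMap k L a' * θ +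
          algebraMap k L c ^ 6 * algebraMap k L b') / algebraMap k L c ^ 6 := by
      field_simp
    rw [h2, h1, zero_div]
  · intro c₀ c₁ c₂ h1
    have h2 : algebraMap k L c₀ + algebraMap k L (c₁ / c ^ 2) * θ +
        algebraMap k L (c₂ / c ^ 4) * θ ^ 2 = 0 := by
      rw [← h1, map_div₀, map_div₀, map_pow, map_pow]
      field_simp
    obtain ⟨e0, e1, e2⟩ := h.li _ _ _ h2
    refine ⟨e0, ?_, ?_⟩
    · rw [div_eq_zero_iff] at e1
      exact e1.resolve_right (pow_ne_zero _ hc)
    · rw [div_eq_zero_iff] at e2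
      exact e2.resolve_right (pow_ne_zero _ hc)
  · intro x
    obtain ⟨c₀, c₁, c₂, hx⟩ := h.sp x
    refine ⟨c₀, c₁ * c ^ 2, c₂ * c ^ 4, ?_⟩
    rw [hx, map_mul, map_mul, map_pow, map_pow]
    field_simp

/-- The valuation of an element with integral coordinates, one of which is a unit. -/
private lemma Nq_one {a b : k} {θ : L} (h : Cub k L a b θ) {u : HeightOneSpectrum (𝓞 k)}
    (ha : u.valuation k a ≤ 1) (hb : u.valuation k b ≤ 1)
    (hr : ∀ t : k, u.valuation k t ≤ 1 → u.valuation k (t ^ 3 + a * t + b) = 1)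
    {w : HeightOneSpectrum (𝓞 L)} (hw : dn k w = u) {c : Fin 3 → k}
    (hc : ∀ j, u.valuation k (c j) ≤ 1) {j : Fin 3} (hj : u.valuation k (c j) = 1) :
    w.valuation L (ev θ c) = 1 := by
  subst hw
  have hθ : w.valuation L θ ≤ 1 := Nq_theta h.root (val_le ha) (val_le hb)
  have hev : ∀ d : Fin 3 → k, (∀ j, (dn k w).valuation k (d j) ≤ 1) → w.valuation L (ev θ d) ≤ 1 := by
    intro d hd
    have hθ' : θ ∈ (w.valuation L).integer := hθ
    have h0 : algebraMap k L (d 0) ∈ (w.valuation L).integer := val_le (hd 0)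
    have h1 : algebraMap k L (d 1) ∈ (w.valuation L).integer := val_le (hd 1)
    have h2 : algebraMap k L (d 2) ∈ (w.valuation L).integer := val_le (hd 2)
    have : ev θ d ∈ (w.valuation L).integer :=
      add_mem (add_mem h0 (mul_mem h1 hθ')) (mul_mem h2 (pow_mem hθ' 2))
    exact this
  have hN := val_one (w := w) (Nq_nf ha hb hr hc hj)
  rw [← Te_ev_adj h, map_mul] at hN
  have h1 := hev c hc
  have h2 := hev (Te_C a b c) (by
    have ha' : a ∈ ((dn k w).valuation k).integer := ha
    have hb' : b ∈ ((dn k w).valuation k).integer := hb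
    have hx' : c 0 ∈ ((dn k w).valuation k).integer := hc 0
    have hy' : c 1 ∈ ((dn k w).valuation k).integer := hc 1
    have hz' : c 2 ∈ ((dn k w).valuation k).integer := hc 2
    intro i
    fin_cases i
    · have : (c 0 - a * c 2) ^ 2 + a * c 1 ^ 2 + b * c 1 * c 2 ∈ ((dn k w).valuation k).integer :=
        add_mem (add_mem (pow_mem (sub_mem hx' (mul_mem ha' hz')) 2) (mul_mem ha' (pow_mem hy' 2)))
          (mul_mem (mul_mem hb' hy') hz')
      exact this
    · have : -(c 0 * c 1 + b * c 2 ^ 2) ∈ ((dn k w).valuation k).integer :=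
        neg_mem (add_mem (mul_mem hx' hy') (mul_mem hb' (pow_mem hz' 2)))
      exact this
    · have : c 1 ^ 2 - c 0 * c 2 + a * c 2 ^ 2 ∈ ((dn k w).valuation k).integer :=
        add_mem (sub_mem (pow_mem hy' 2) (mul_mem hx' hz')) (mul_mem ha' (pow_mem hz' 2))
      exact this)
  apply le_antisymm h1
  rw [← hN]
  calc w.valuation L (ev θ c) * w.valuation L (ev θ (Te_C a b c)) ≤ w.valuation L (ev θ c) * 1 :=
        mul_le_mul' le_rfl h2
    _ = _ := mul_one _

/-- All the places above `u` have the same ideal. -/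
private lemma Nq_sub {a b : k} {θ : L} (h : Cub k L a b θ) {u : HeightOneSpectrum (𝓞 k)}
    (ha : u.valuation k a ≤ 1) (hb : u.valuation k b ≤ 1)
    (hr : ∀ t : k, u.valuation k t ≤ 1 → u.valuation k (t ^ 3 + a * t + b) = 1)
    {w w' : HeightOneSpectrum (𝓞 L)} (hw : dn k w = u) (hw' : dn k w' = u) :
    w.asIdeal ≤ w'.asIdeal := by
  intro x hx
  by_cases hx0 : x = 0
  · rw [hx0]
    exact w'.asIdeal.zero_mem
  have hy0 : (algebraMap (𝓞 L) L x) ≠ 0 := by
    rw [Ne, FaithfulSMul.algebraMap_eq_zero_iff]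
    exact hx0
  obtain ⟨c₀, c₁, c₂, hy⟩ := h.sp (algebraMap (𝓞 L) L x)
  obtain ⟨c, hcd⟩ : ∃ c : Fin 3 → k, c = ![c₀, c₁, c₂] := ⟨_, rfl⟩
  have hyc : algebraMap (𝓞 L) L x = ev θ c := by
    rw [hy, hcd]
    simp [ev]
  obtain ⟨j, hj⟩ := Finite.exists_max (fun j => u.valuation k (c j))
  have hg0 : c j ≠ 0 := by
    intro h0
    apply hy0
    have hz : ∀ i, c i = 0 := by
      intro i
      have h1 := hj i
      simp only [h0, map_zero, le_zero_iff] at h1
      exact (Valuation.zero_iff _).1 h1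
    rw [hyc]
    simp [ev, hz]
  have hscale : ev θ c = algebraMap k L (c j) * ev θ (fun i => c i / c j) := by
    have hgL : algebraMap k L (c j) ≠ 0 := by
      rw [Ne, map_eq_zero]
      exact hg0
    simp only [ev, map_div₀]
    field_simp
  have hgV : u.valuation k (c j) ≠ 0 := (Valuation.ne_zero_iff _).2 hg0
  have hval : ∀ w₁ : HeightOneSpectrum (𝓞 L), dn k w₁ = u →
      w₁.valuation L (algebraMap (𝓞 L) L x) = w₁.valuation L (algebraMap k L (c j)) := by
    intro w₁ hw₁
    have hle : ∀ i, u.valuation k ((fun i => c i / c j) i) ≤ 1 := by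
      intro i
      simp only [map_div₀]
      exact div_le_one_of_le₀ (hj i) zero_le
    have hone : u.valuation k ((fun i => c i / c j) j) = 1 := by
      simp only [map_div₀]
      exact div_self hgV
    rw [hyc, hscale, map_mul, Nq_one h ha hb hr hw₁ hle hone, mul_one]
  have h1 : w.valuation L (algebraMap (𝓞 L) L x) < 1 :=
    (w.valuation_lt_one_iff_mem (K := L) x).2 hx
  rw [hval w hw] at h1
  have h2 : u.valuation k (c j) < 1 := by
    by_contra h3
    have h4 : (dn k w).valuation k (c j)⁻¹ ≤ 1 := by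
      rw [hw, map_inv₀]
      exact inv_le_one_of_one_le₀ (not_lt.1 h3)
    have h5 := val_le h4
    rw [map_inv₀, map_inv₀] at h5
    have h6 : w.valuation L (algebraMap k L (c j)) ≠ 0 := by
      rw [Ne, Valuation.zero_iff, map_eq_zero]
      exact hg0
    have h7 := (inv_le_one₀ (zero_lt_iff.2 h6)).1 h5
    exact absurd h1 (not_lt.2 h7)
  have h3 : w'.valuation L (algebraMap (𝓞 L) L x) < 1 := by
    rw [hval w' hw']
    apply val_lt
    rw [hw']
    exact h2
  exact (w'.valuation_lt_one_iff_mem (K := L) x).1 h3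

theorem even_unique {k L : Type} [Field k] [NumberField k] [Field L] [NumberField L] [Algebra k L]
    {a b : k} {θ : L} (h : Cub k L a b θ) (w : HeightOneSpectrum (𝓞 L))
    (hN : NoRootAt (dn k w) a b) {x : L} (hx : x ≠ 0) (hs : IsSquare (Algebra.norm k x)) :
    eo w (sc x) = 0 := by
  obtain ⟨c, a', b', hc, ha, hb, ha', hb', hr⟩ := hN
  have h1 := Nq_cub h hc ha hb
  have hU : Pool.Agent.H10.UniqueOver k L (dn k w).asIdeal := by
    have key : ∀ P : Ideal (𝓞 L), P.IsPrime →
        (dn k w).asIdeal.map (algebraMap (𝓞 k) (𝓞 L)) ≤ P → P = w.asIdeal := by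
      intro P hP hle
      have hne : P ≠ ⊥ := by
        rintro rfl
        have h2 : (dn k w).asIdeal.map (algebraMap (𝓞 k) (𝓞 L)) = ⊥ := le_bot_iff.1 hle
        have h3 := (Ideal.map_eq_bot_iff_of_injective
          (FaithfulSMul.algebraMap_injective (𝓞 k) (𝓞 L))).1 h2
        exact (dn k w).ne_bot h3
      have hdn : dn k (⟨P, hP, hne⟩ : HeightOneSpectrum (𝓞 L)) = dn k w := by
        apply HeightOneSpectrum.ext
        have h4 : (dn k w).asIdeal ≤ P.comap (algebraMap (𝓞 k) (𝓞 L)) :=
          Ideal.map_le_iff_le_comap.1 hle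
        have h5 : (P.comap (algebraMap (𝓞 k) (𝓞 L))) ≠ ⊤ := Ideal.comap_ne_top _ hP.ne_top
        exact ((dn k w).isMaximal.eq_of_le h5 h4).symm
      have h6 := Nq_sub h1 ha' hb' hr (w := w) (w' := ⟨P, hP, hne⟩) rfl hdn
      exact (w.isMaximal.eq_of_le hP.ne_top h6).symm
    intro P Q hP hQ hPl hQl
    rw [key P hP hPl, key Q hQ hQl]
  have hodd : Odd (Module.finrank k L) := by
    rw [h.finrank]
    exact ⟨1, rfl⟩
  have h2 := Pool.Agent.H10.even_of_norm_sq hodd hU (w := w) Ideal.map_comap_le hx hs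
  rw [H38T1.eo_sc hx]
  unfold ord
  obtain ⟨n, hn⟩ := h2
  rw [hn]
  have h3 : ((-(n + n) : ℤ) : ZMod 2) = -((n : ZMod 2) + n) := by push_cast; ring
  rw [h3, CharTwo.add_self_eq_zero, neg_zero]

end H73P2
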