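import Pool.Agent.H73.P2.Df

/-!
ROW Bs (project MP_78d38b_P2, about 100 lines): the base of the induction (`k / K` of degree one).

PROOF. `algebraMap K k` is bijective (`finrank = 1`: `bijective_algebraMap_of_finrank_eq_one`? or every element of `k` is in `⊥`: `Subalgebra.bot_eq_top_of_finrank_eq_one`).
rel_base: let `L / k` and `Cub k L a b θ` and `d` with `Rel K k L S a b θ d`. Make `L` a `K`-algebra by `((algebraMap k L).comp (algebraMap K k)).toAlgebra` (`letI`; then `IsScalarTower K k L`). `Cub K L a b θ`: root, li, sp from those over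
`k` (choose preimages). Choose `d₀ : Fin 3 → K` with `algebraMap (d₀ i) = d i`; `ev θ d₀ = ev θ d` (as elements of `L`). `Rel K K L S a b θ d₀`: ne clear; sq: `Te_norm` twice: `Algebra.norm k (ev θ d) = Te_nf (a) (b) d` in `k` is the image of
`Algebra.norm K (ev θ d₀) = Te_nf a b d₀` (`Te_nf_map`), and a preimage of a square root; even: `dn K (dn K w) = dn K (dn k w)` (as ideals of `𝓞 K`: both the comap of `w` along `𝓞 K → 𝓞 L`; `dn K v = v` for `v` a place of `K`,
`Algebra.id`); loc: for `j : K →+* K_v` with `j x = algebraMap x` for all `x`: the map `j' := j ∘ (inverse of algebraMap)` is a ring homomorphism `k →+* K_v` over `K` (use `RingEquiv.ofBijective`), `hRel.loc v hv j'`, and `LC j' .. d` is `LC j a b d₀` because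
`j' (algebraMap x) = j x`; real: the same. The hypothesis `hT` gives `IsSquare (ev θ d₀)`.
nr_base: `u` a place of `k`: `NoRootAt (dn K u) a b → NoRootAt u (algebraMap a) (algebraMap b)`: the same `c, a', b'`; for `x : K`: `u.valuation k (algebraMap x) ≤ 1` iff `(dn K u).valuation K x ≤ 1` and `= 1` iff `= 1` (`ord_dn`, `val_le`, `val_one`, `val_lt` of `H76/PP/Ta.lean`);
every `t : k` is `algebraMap t₀`.
-/

set_option autoImplicit false
set_option linter.unusedSectionVars false
open scoped Classical

open WithZero NumberField IsDedekindDomain H38RT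
open H38T1 (SC sc scu rep eo la si Pri OddP tp unif)
open H76PP

namespace H73P2

section

variable {K k : Type} [Field K] [NumberField K] [Field k] [NumberField k] [Algebra K k]

private lemma Bs_surj (h1 : Module.finrank K k = 1) : Function.Surjective (algebraMap K k) := by
  rw [Algebra.surjective_algebraMap_iff]
  exact (Subalgebra.bot_eq_top_iff_finrank_eq_one.2 h1).symm

private lemma Bs_LC {F : Type*} [Field F] {a b : K} {d : Fin 3 → K} (j : K →+* F) (j' : k →+* F)
    (hj : ∀ x : K, j' (algebraMap K k x) = j x)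
    (h : LC j' (algebraMap K k a) (algebraMap K k b) (fun i => algebraMap K k (d i))) :
    LC j a b d := by
  obtain ⟨x, y, z, hy, h1, h2⟩ := h
  simp only [hj] at h1 h2
  exact ⟨x, y, z, hy, h1, h2⟩

theorem rel_base (h1 : Module.finrank K k = 1) {S : Finset (HeightOneSpectrum (𝓞 K))} {a b : K}
    (hT : ∀ (L : Type) [Field L] [NumberField L] [Algebra K L] (θ : L), Cub K L a b θ →
      RelT K K L S a b θ)
    (L : Type) [Field L] [NumberField L] [Algebra k L] (θ : L)
    (h : Cub k L (algebraMap K k a) (algebraMap K k b) θ) : RelT K k L S a b θ := by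
  have hs := Bs_surj h1
  have hi : Function.Injective (algebraMap K k) := (algebraMap K k).injective
  letI : Algebra K L := ((algebraMap k L).comp (algebraMap K k)).toAlgebra
  have hal : ∀ x : K, algebraMap K L x = algebraMap k L (algebraMap K k x) := fun _ => rfl
  have hcub : Cub K L a b θ := by
    refine ⟨?_, ?_, ?_⟩
    · rw [hal, hal]
      exact h.root
    · intro c₀ c₁ c₂ hc
      rw [hal, hal, hal] at hc
      obtain ⟨e0, e1, e2⟩ := h.li _ _ _ hc
      exact ⟨(map_eq_zero _).1 e0, (map_eq_zero _).1 e1, (map_eq_zero _).1 e2⟩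
    · intro x
      obtain ⟨c₀, c₁, c₂, hx⟩ := h.sp x
      obtain ⟨d₀, rfl⟩ := hs c₀
      obtain ⟨d₁, rfl⟩ := hs c₁
      obtain ⟨d₂, rfl⟩ := hs c₂
      exact ⟨d₀, d₁, d₂, hx⟩
  intro d hR
  choose d₀ hd₀ using fun i => hs (d i)
  obtain rfl : d = fun i => algebraMap K k (d₀ i) := funext fun i => (hd₀ i).symm
  have hev : ev θ d₀ = ev θ (fun i => algebraMap K k (d₀ i)) := rfl
  have hRel : Rel K K L S a b θ d₀ := by
    refine ⟨?_, ?_, ?_, ?_, ?_⟩
    · rw [hev]
      exact hR.ne
    · rw [Te_norm hcub]
      have h2 := hR.sq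
      rw [Te_norm h, Te_nf_map] at h2
      obtain ⟨r, hr⟩ := h2
      obtain ⟨r₀, rfl⟩ := hs r
      refine ⟨r₀, hi ?_⟩
      rw [hr, map_mul]
    · intro w hw
      rw [hev]
      apply hR.even w
      have h3 : dn K (dn K w) = dn K (dn k w) := by
        apply HeightOneSpectrum.ext
        ext x
        have h4 : algebraMap (𝓞 K) (𝓞 L) (algebraMap (𝓞 K) (𝓞 K) x) =
            algebraMap (𝓞 k) (𝓞 L) (algebraMap (𝓞 K) (𝓞 k) x) := by
          apply RingOfIntegers.coe_injective
          rfl
        change algebraMap (𝓞 K) (𝓞 L) (algebraMap (𝓞 K) (𝓞 K) x) ∈ w.asIdeal ↔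
          algebraMap (𝓞 k) (𝓞 L) (algebraMap (𝓞 K) (𝓞 k) x) ∈ w.asIdeal
        rw [h4]
      rw [← h3]
      exact hw
    · intro v hv j hj
      let e : K ≃+* k := RingEquiv.ofBijective (algebraMap K k) ⟨hi, hs⟩
      let j' : k →+* v.adicCompletion K := j.comp (e.symm : k →+* K)
      have hj' : ∀ x : K, j' (algebraMap K k x) = j x := by
        intro x
        change j (e.symm (e x)) = j x
        rw [RingEquiv.symm_apply_apply]
      refine Bs_LC (k := k) j j' hj' ?_
      apply hR.loc v hv j'
      intro x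
      rw [hj']
      exact hj x
    · intro s
      let e : K ≃+* k := RingEquiv.ofBijective (algebraMap K k) ⟨hi, hs⟩
      let s' : k →+* ℝ := s.comp (e.symm : k →+* K)
      have hs' : ∀ x : K, s' (algebraMap K k x) = s x := by
        intro x
        change s (e.symm (e x)) = s x
        rw [RingEquiv.symm_apply_apply]
      exact Bs_LC (k := k) s s' hs' (hR.real s')
  have h5 := hT L θ hcub d₀ hRel
  rw [hev] at h5
  exact h5

theorem nr_base (h1 : Module.finrank K k = 1) {a b : K} (u : HeightOneSpectrum (𝓞 k))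
    (h : NoRootAt (dn K u) a b) : NoRootAt u (algebraMap K k a) (algebraMap K k b) := by
  have hs := Bs_surj h1
  obtain ⟨c, a', b', hc, ha, hb, ha', hb', ht⟩ := h
  refine ⟨algebraMap K k c, algebraMap K k a', algebraMap K k b', ?_, ?_, ?_, val_le ha', val_le hb', ?_⟩
  · intro h0
    exact hc ((map_eq_zero _).1 h0)
  · rw [ha, map_mul, map_pow]
  · rw [hb, map_mul, map_pow]
  · intro t htu
    obtain ⟨t₀, rfl⟩ := hs t
    have h2 : (dn K u).valuation K t₀ ≤ 1 := by
      by_contra hcon
      rw [not_le] at hcon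
      have h3 : (dn K u).valuation K t₀⁻¹ < 1 := by
        rw [map_inv₀]
        exact inv_lt_one_of_one_lt₀ hcon
      have h4 := val_lt h3
      rw [map_inv₀, map_inv₀] at h4
      have h5 : t₀ ≠ 0 := by
        rintro rfl
        rw [map_zero] at hcon
        exact absurd hcon (not_lt.2 zero_le)
      have h6 : u.valuation k (algebraMap K k t₀) ≠ 0 := by
        rw [Ne, Valuation.zero_iff, map_eq_zero]
        exact h5
      have h7 : 1 < u.valuation k (algebraMap K k t₀) := (inv_lt_one₀ (zero_lt_iff.2 h6)).1 h4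
      exact absurd htu (not_le.2 h7)
    have h3 := val_one (ht t₀ h2)
    have h8 : algebraMap K k (t₀ ^ 3 + a' * t₀ + b') =
        algebraMap K k t₀ ^ 3 + algebraMap K k a' * algebraMap K k t₀ + algebraMap K k b' := by
      simp only [map_add, map_mul, map_pow]
    rw [← h8]
    exact h3

end

end H73P2
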