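import Pool.Agent.H73.P2.Df

/-!
ROW Nu (project MP_78d38b_P2, about 130 lines): a cubic without root modulo `u` has no root modulo the places above `u` in a
quadratic extension.

PROOF. `u = dn k u'`, `c, a', b'` from the hypothesis (the same after `algebraMap`; `u'.valuation (algebraMap x) ≤ 1` by `val_le` in `H76/PP/Ta.lean`). Suppose `t ∈ k'`,
`u'.valuation t ≤ 1` and `f'(t) = t^3 + a' t + b'` has valuation `≠ 1`; it is `≤ 1`, so `< 1`. Choose an integer `s : 𝓞 k'` with `u'.valuation (t - s) < 1`
(`HeightOneSpectrum.exists_valuation_sub_lt_of_integer` or `exists_primeCompl_mul_eq_of_integer` and inverting modulo `u'`); then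
`u'.valuation (f'(s)) < 1` too (`f'(s) - f'(t) = (s - t)(..)` with integral factor). `s^2 = T s - N` with `T, N : 𝓞 k` (trace and norm, `Pool.Agent.H10.Q.quad_rel`; the trace and norm of an integer are integral: `Algebra.intTrace`, `Algebra.intNorm`, or
`Algebra.isIntegral_trace`, `Algebra.isIntegral_norm` and `IsIntegralClosure`). Division: `f'(s) = (s + T)(s^2 - T s + N) + ((T^2 - N + a') s + (b' - N T))`, i.e.
`f'(s) = r₁ s + r₀`, `r₁ = T^2 - N + a'`, `r₀ = b' - N T ∈ k`, both `u`-integral. (check: `(s + T)(s^2 - T s + N) = s^3 + (N - T^2) s + N T`.)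
Case `u.valuation r₁ = 1`: then `s ≡ - r₀ / r₁ =: y ∈ k` modulo `u'`, `y` is `u`-integral, so `u'.valuation (f'(y)) < 1`, hence `u.valuation (f'(y)) < 1` (`val_one` contraposed: if it were
one ...; it is `≤ 1`): contradiction with NoRootAt. Case `u.valuation r₁ < 1`: then `u'.valuation r₀ < 1`, so `u.valuation r₀ < 1`, and
`f'(-T) = -T^3 - a' T + b' = -T (T^2 - N + a') + (b' - N T) = -T r₁ + r₀` has `u`-valuation `< 1`: contradiction.
-/

set_option autoImplicit false
set_option linter.unusedSectionVars false
open scoped Classical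

open WithZero NumberField IsDedekindDomain H38RT
open H38T1 (SC sc scu rep eo la si Pri OddP tp unif)
open H76PP

namespace H73P2

section Nu

variable {F : Type} [Field F] {V : Valuation F (WithZero (Multiplicative ℤ))}

private theorem Nu_mul_lt {x y : F} (hx : V x < 1) (hy : V y ≤ 1) : V (x * y) < 1 := by
  rw [map_mul]
  calc V x * V y ≤ V x * 1 := mul_le_mul_right hy _
    _ = V x := mul_one _
    _ < 1 := hx

private theorem Nu_mul_le {x y : F} (hx : V x ≤ 1) (hy : V y ≤ 1) : V (x * y) ≤ 1 := by
  rw [map_mul]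
  calc V x * V y ≤ V x * 1 := mul_le_mul_right hy _
    _ = V x := mul_one _
    _ ≤ 1 := hx

private theorem Nu_pow_le {x : F} (hx : V x ≤ 1) : ∀ n : ℕ, V (x ^ n) ≤ 1 := by
  intro n
  induction n with
  | zero => rw [pow_zero, map_one]
  | succ n ih => rw [pow_succ]; exact Nu_mul_le ih hx

private theorem Nu_neg_lt {x : F} (hx : V x < 1) : V (-x) < 1 := by
  rwa [Valuation.map_neg]

private theorem Nu_neg_le {x : F} (hx : V x ≤ 1) : V (-x) ≤ 1 := by
  rwa [Valuation.map_neg]

private theorem Nu_cub_le {a b t : F} (ha : V a ≤ 1) (hb : V b ≤ 1) (ht : V t ≤ 1) :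
    V (t ^ 3 + a * t + b) ≤ 1 :=
  V.map_add_le (V.map_add_le (Nu_pow_le ht 3) (Nu_mul_le ha ht)) hb

/-- changing the argument of the cubic by something small -/
private theorem Nu_close {a b s t : F} (ha : V a ≤ 1) (hs : V s ≤ 1) (ht : V t ≤ 1)
    (hst : V (s - t) < 1) (h : V (t ^ 3 + a * t + b) < 1) : V (s ^ 3 + a * s + b) < 1 := by
  have h1 : s ^ 3 + a * s + b = (s - t) * (s ^ 2 + s * t + t ^ 2 + a) + (t ^ 3 + a * t + b) := by ring
  rw [h1]
  refine V.map_add_lt (Nu_mul_lt hst ?_) h
  exact V.map_add_le (V.map_add_le (V.map_add_le (Nu_pow_le hs 2) (Nu_mul_le hs ht))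
    (Nu_pow_le ht 2)) ha

end Nu

private theorem Nu_quad {F E : Type} [Field F] [Field E] [Algebra F E]
    (h : Module.finrank F E = 2) (u : E) :
    u ^ 2 - algebraMap F E (Algebra.trace F E u) * u + algebraMap F E (Algebra.norm F u) = 0 := by
  haveI : FiniteDimensional F E := Module.finite_of_finrank_pos (by rw [h]; norm_num)
  let b : Module.Basis (Fin 2) F E := Module.finBasisOfFinrankEq F E h
  apply Algebra.leftMulMatrix_injective b
  have h1 := Matrix.aeval_self_charpoly (Algebra.leftMulMatrix b u)
  rw [Matrix.charpoly_fin_two] at h1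
  rw [Algebra.trace_eq_matrix_trace b, Algebra.norm_eq_matrix_det b]
  simp only [map_add, map_sub, map_mul, map_pow, Polynomial.aeval_X, Polynomial.aeval_C,
    AlgHom.commutes, map_zero] at h1 ⊢
  exact h1

private theorem Nu_int_le {k : Type} [Field k] [NumberField k] (u : HeightOneSpectrum (𝓞 k)) {x : k}
    (hx : IsIntegral ℤ x) : u.valuation k x ≤ 1 := by
  have h1 := u.valuation_le_one (K := k) (⟨x, hx⟩ : 𝓞 k)
  exact h1

theorem NoRootAt.up {k k' : Type} [Field k] [NumberField k] [Field k'] [NumberField k'] [Algebra k k']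
    (two : Module.finrank k k' = 2) (u' : HeightOneSpectrum (𝓞 k')) {a b : k}
    (h : NoRootAt (dn k u') a b) : NoRootAt u' (algebraMap k k' a) (algebraMap k k' b) := by
  obtain ⟨c, a', b', hc, ha, hb, ha1, hb1, hroot⟩ := h
  haveI : FiniteDimensional k k' := Module.finite_of_finrank_pos (by rw [two]; norm_num)
  refine ⟨algebraMap k k' c, algebraMap k k' a', algebraMap k k' b', ?_, ?_, ?_, val_le ha1,
    val_le hb1, ?_⟩
  · exact fun h0 => hc ((algebraMap k k').injective (by rw [h0, map_zero]))
  · rw [ha, map_mul, map_pow]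
  · rw [hb, map_mul, map_pow]
  · intro t ht
    by_contra hne
    have hA := val_le (w := u') ha1
    have hB := val_le (w := u') hb1
    have hlt : u'.valuation k' (t ^ 3 + algebraMap k k' a' * t + algebraMap k k' b') < 1 :=
      lt_of_le_of_ne (Nu_cub_le hA hB ht) hne
    -- no point of `k` can be a root
    have hno : ∀ y : k, (dn k u').valuation k y ≤ 1 →
        ¬ u'.valuation k' ((algebraMap k k' y) ^ 3 + algebraMap k k' a' * algebraMap k k' y +
          algebraMap k k' b') < 1 := by
      intro y hy hlt'
      have h1 := val_one (w := u') (hroot y hy)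
      have e : algebraMap k k' (y ^ 3 + a' * y + b') = (algebraMap k k' y) ^ 3 +
          algebraMap k k' a' * algebraMap k k' y + algebraMap k k' b' := by
        simp only [map_add, map_mul, map_pow]
      rw [e] at h1
      rw [h1] at hlt'
      exact lt_irrefl _ hlt'
    obtain ⟨s, hs⟩ := u'.exists_valuation_sub_lt_of_integer ht 1
    rw [Units.val_one] at hs
    set S : k' := algebraMap (𝓞 k') k' s with hS
    have hS1 : u'.valuation k' S ≤ 1 := u'.valuation_le_one _
    have hfS := Nu_close (b := algebraMap k k' b') hA hS1 ht hs hlt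
    have hSint : IsIntegral ℤ S := s.2
    have hTi : IsIntegral ℤ (Algebra.trace k k' S) := Algebra.isIntegral_trace hSint
    have hNi : IsIntegral ℤ (Algebra.norm k S) := Algebra.isIntegral_norm k hSint
    have hT := Nu_int_le (dn k u') hTi
    have hN := Nu_int_le (dn k u') hNi
    have hq := Nu_quad two S
    set T : k := Algebra.trace k k' S with hTdef
    set N : k := Algebra.norm k S with hNdef
    set r1 : k := T ^ 2 - N + a' with hr1
    set r0 : k := b' - N * T with hr0
    have hr1le : (dn k u').valuation k r1 ≤ 1 := by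
      rw [hr1, sub_eq_add_neg]
      exact Valuation.map_add_le _ (Valuation.map_add_le _ (Nu_pow_le hT 2) (Nu_neg_le hN)) ha1
    have hr0le : (dn k u').valuation k r0 ≤ 1 := by
      rw [hr0, sub_eq_add_neg]
      exact Valuation.map_add_le _ hb1 (Nu_neg_le (Nu_mul_le hN hT))
    have hf : S ^ 3 + algebraMap k k' a' * S + algebraMap k k' b' =
        algebraMap k k' r1 * S + algebraMap k k' r0 := by
      rw [hr1, hr0]
      simp only [map_add, map_sub, map_mul, map_pow]
      linear_combination (S + algebraMap k k' T) * hq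
    rw [hf] at hfS
    rcases lt_or_eq_of_le hr1le with hlt1 | heq1
    · -- `r1` is small
      have h1 : u'.valuation k' (algebraMap k k' r1) < 1 := val_lt hlt1
      have h2 : u'.valuation k' (algebraMap k k' r0) < 1 := by
        have e : algebraMap k k' r0 =
            (algebraMap k k' r1 * S + algebraMap k k' r0) + -(algebraMap k k' r1 * S) := by ring
        rw [e]
        exact Valuation.map_add_lt _ hfS (Nu_neg_lt (Nu_mul_lt h1 hS1))
      apply hno (-T) (Nu_neg_le hT)
      have e : (algebraMap k k' (-T)) ^ 3 + algebraMap k k' a' * algebraMap k k' (-T) +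
          algebraMap k k' b' = algebraMap k k' r1 * (-(algebraMap k k' T)) + algebraMap k k' r0 := by
        rw [hr1, hr0]
        simp only [map_add, map_sub, map_mul, map_pow, map_neg]
        ring
      rw [e]
      exact Valuation.map_add_lt _ (Nu_mul_lt h1 (Nu_neg_le (val_le hT))) h2
    · have hr1ne : r1 ≠ 0 := by
        intro h0
        rw [h0, map_zero] at heq1
        exact zero_ne_one heq1
      have hr1ne' : algebraMap k k' r1 ≠ 0 := fun h0 =>
        hr1ne ((algebraMap k k').injective (by rw [h0, map_zero]))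
      have hinv : (dn k u').valuation k r1⁻¹ ≤ 1 := by rw [map_inv₀, heq1, inv_one]
      have hy : (dn k u').valuation k (-(r0 * r1⁻¹)) ≤ 1 := Nu_neg_le (Nu_mul_le hr0le hinv)
      apply hno _ hy
      have hyS : u'.valuation k' (algebraMap k k' (-(r0 * r1⁻¹)) - S) < 1 := by
        have e : algebraMap k k' (-(r0 * r1⁻¹)) - S =
            -((algebraMap k k' r1 * S + algebraMap k k' r0) * algebraMap k k' r1⁻¹) := by
          rw [map_neg, map_mul, map_inv₀]
          field_simp
          ring
        rw [e]
        exact Nu_neg_lt (Nu_mul_lt hfS (val_le hinv))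
      refine Nu_close hA (val_le hy) hS1 hyS ?_
      rw [hf]
      exact hfS

end H73P2
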