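import Pool.Agent.H73.P2.Qs
import Pool.Agent.H73.P2.Nu
import Pool.Agent.H73.P2.Hf
import Pool.Agent.H73.P2.Bs

/-!
The chain of quadratic steps (assembly; no row).
-/

set_option autoImplicit false
set_option linter.unusedSectionVars false
open scoped Classical

open WithZero NumberField IsDedekindDomain H38RT
open H38T1 (SC sc scu rep eo la si Pri OddP tp unif)
open H76PP

namespace H73P2

theorem chain {K N : Type} [Field K] [NumberField K] [Field N] [NumberField N] [Algebra K N]
    [IsGalois K N] {r : ℕ} (hr : Module.finrank K N = 2 ^ r) {S : Finset (HeightOneSpectrum (𝓞 K))}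
    (h2S : ∀ v : HeightOneSpectrum (𝓞 K), v.valuation K 2 < 1 → v ∈ S) {a b : K}
    (hd : 4 * a ^ 3 + 27 * b ^ 2 ≠ 0)
    (hsplit : ∀ v ∈ S, ∃ ι : N →+* v.adicCompletion K, ∀ x : K,
      ι (algebraMap K N x) = algebraMap K (v.adicCompletion K) x)
    (hreal : ∀ s : K →+* ℝ, 0 < s (4 * a ^ 3 + 27 * b ^ 2) ∨ ∃ s' : N →+* ℝ, ∀ x : K,
      s' (algebraMap K N x) = s x)
    (hram : ∀ V : HeightOneSpectrum (𝓞 N), dn K V ∉ S → Ram K V → NoRootAt (dn K V) a b)
    (hT : ∀ (L : Type) [Field L] [NumberField L] [Algebra K L] (θ : L), Cub K L a b θ →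
      RelT K K L S a b θ) (n : ℕ) :
    ∀ (k : Type) [Field k] [NumberField k] [Algebra K k] [Algebra k N] [IsScalarTower K k N],
      Module.finrank K k = n →
      (∀ u : HeightOneSpectrum (𝓞 k), NoRootAt (dn K u) a b →
        NoRootAt u (algebraMap K k a) (algebraMap K k b)) ∧
      ∀ (L : Type) [Field L] [NumberField L] [Algebra k L] (θ : L),
        Cub k L (algebraMap K k a) (algebraMap K k b) θ → RelT K k L S a b θ := by
  have _ : FiniteDimensional K N := Module.Finite.of_restrictScalars_finite ℚ K N
  induction n using Nat.strong_induction_on with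
  | _ n ih =>
    intro k _ _ _ _ _ hn
    by_cases h1 : Module.finrank K k = 1
    · exact ⟨fun u hu => nr_base h1 u hu, fun L _ _ _ θ h => rel_base h1 hT L θ h⟩
    · obtain ⟨k₀, hk₀⟩ := exists_half (K := K) (N := N) (k' := k) hr h1
      have _ : FiniteDimensional K k := Module.Finite.of_restrictScalars_finite ℚ K k
      have _ : NumberField k₀ := NumberField.of_module_finite K k₀
      have _ : IsScalarTower k₀ k N := inferInstance
      have _ : IsScalarTower K k₀ N := IsScalarTower.of_algebraMap_eq fun x => by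
        rw [IsScalarTower.algebraMap_apply K k N, IsScalarTower.algebraMap_apply K k₀ k]
        rfl
      have hmul := Module.finrank_mul_finrank K k₀ k
      rw [hk₀] at hmul
      have hpos : 0 < Module.finrank K k₀ := Module.finrank_pos
      obtain ⟨ih1, ih2⟩ := ih (Module.finrank K k₀) (by omega) k₀ rfl
      have hab : ∀ x : K, algebraMap K k x = algebraMap k₀ k (algebraMap K k₀ x) :=
        IsScalarTower.algebraMap_apply K k₀ k
      refine ⟨fun u hu => ?_, fun L _ _ _ θ h =>
        quad_step (N := N) hk₀ h2S hd hsplit hreal hram ih1 ih2 L θ h⟩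
      have h2 : dn K (dn k₀ u) = dn K u := dn_dn u
      rw [hab, hab]
      refine NoRootAt.up hk₀ u (ih1 _ ?_)
      rw [h2]
      exact hu

end H73P2
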