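import Pool.Agent.H73.P2.Ch
import Pool.Agent.H73.P2.Cm
import Pool.Agent.H73.P2.Ev
import Pool.Agent.H24.PD.Main

/-!
The relative theorem (assembly; no row).
-/

set_option autoImplicit false
set_option linter.unusedSectionVars false
open scoped Classical

open WithZero NumberField IsDedekindDomain H38RT
open H38T1 (SC sc scu rep eo la si Pri OddP tp unif)
open H76PP

namespace H73P2

section

variable {K N : Type} [Field K] [NumberField K] [Field N] [NumberField N] [Algebra K N]
  [IsGalois K N]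

/-- The Selmer group over a field between `K` and `N`. -/
theorem sel_mid (hos : OrdSub) {r : ℕ} (hr : Module.finrank K N = 2 ^ r)
    {S : Finset (HeightOneSpectrum (𝓞 K))}
    (h2S : ∀ v : HeightOneSpectrum (𝓞 K), v.valuation K 2 < 1 → v ∈ S) {a b : K}
    (hd : 4 * a ^ 3 + 27 * b ^ 2 ≠ 0)
    (hnice : ∀ v : HeightOneSpectrum (𝓞 K), v ∉ S → NiceAt v a b)
    (hsplit : ∀ v ∈ S, ∃ ι : N →+* v.adicCompletion K, ∀ x : K,
      ι (algebraMap K N x) = algebraMap K (v.adicCompletion K) x)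
    (hreal : ∀ s : K →+* ℝ, 0 < s (4 * a ^ 3 + 27 * b ^ 2) ∨ ∃ s' : N →+* ℝ, ∀ x : K,
      s' (algebraMap K N x) = s x)
    (hram : ∀ V : HeightOneSpectrum (𝓞 N), dn K V ∉ S → Ram K V → NoRootAt (dn K V) a b)
    (hT : ∀ (L : Type) [Field L] [NumberField L] [Algebra K L] (θ : L), Cub K L a b θ →
      RelT K K L S a b θ)
    (k : Type) [Field k] [NumberField k] [Algebra K k] [Algebra k N] [IsScalarTower K k N]
    (L : Type) [Field L] [NumberField L] [Algebra k L] (θ : L)
    (h : Cub k L (algebraMap K k a) (algebraMap K k b) θ) :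
    SelTriv k L (algebraMap K k a) (algebraMap K k b) θ := by
  obtain ⟨hNR, hRT⟩ := chain hr h2S hd hsplit hreal hram hT _ k rfl
  intro d hd0 hsq hfin hre
  refine hRT L θ h d ⟨hd0, hsq, ?_, ?_, hre⟩
  · intro w hw
    obtain ⟨V, hV⟩ := exists_above (L := N) (dn k w)
    have hKV : dn K V = dn K (dn k w) := by
      rw [← hV]
      exact (dn_dn V).symm
    by_cases hr' : Ram K V
    · have h1 := hram V (by rw [hKV]; exact hw) hr'
      rw [hKV] at h1
      exact even_unique h w (hNR _ h1) hd0 hsq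
    · obtain ⟨-, h1⟩ := unram_mid (k := k) hr'
      rw [hV, hKV] at h1
      exact even_nice hos h w (NiceAt.up h1 (hnice _ hw)) hd0 (hfin _)
  · intro v _ j hj
    exact LC_of_places hfin v j hj

/-- The relative theorem. -/
theorem rel_main (hos : OrdSub) {r : ℕ} (hr : Module.finrank K N = 2 ^ r)
    {S : Finset (HeightOneSpectrum (𝓞 K))}
    (h2S : ∀ v : HeightOneSpectrum (𝓞 K), v.valuation K 2 < 1 → v ∈ S) {a b : K}
    (hd : 4 * a ^ 3 + 27 * b ^ 2 ≠ 0) (hirr : ∀ t : K, t ^ 3 + a * t + b ≠ 0)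
    (hnice : ∀ v : HeightOneSpectrum (𝓞 K), v ∉ S → NiceAt v a b)
    (hsplit : ∀ v ∈ S, ∃ ι : N →+* v.adicCompletion K, ∀ x : K,
      ι (algebraMap K N x) = algebraMap K (v.adicCompletion K) x)
    (hreal : ∀ s : K →+* ℝ, 0 < s (4 * a ^ 3 + 27 * b ^ 2) ∨ ∃ s' : N →+* ℝ, ∀ x : K,
      s' (algebraMap K N x) = s x)
    (hram : ∀ V : HeightOneSpectrum (𝓞 N), dn K V ∉ S → Ram K V → NoRootAt (dn K V) a b)
    (hT : ∀ (L : Type) [Field L] [NumberField L] [Algebra K L] (θ : L), Cub K L a b θ →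
      RelT K K L S a b θ)
    (M : IntermediateField K N) [NumberField M] :
    Finite (⟨0, 0, 0, algebraMap K M a, algebraMap K M b⟩ : WeierstrassCurve M).toAffine.Point ∧
      Pool.Agent.H10.Sha2Trivial M
        (⟨0, 0, 0, algebraMap K M a, algebraMap K M b⟩ : WeierstrassCurve M) := by
  have _ : FiniteDimensional K N := Module.Finite.of_restrictScalars_finite ℚ K N
  obtain ⟨L, _, _, _, θ, hL⟩ := H24PD.exists_cub (K := M)
    (noroot (K := K) (N := N) (k := M) hr hirr)
  exact H24PD.descent hL (sel_mid hos hr h2S hd hnice hsplit hreal hram hT M L θ hL)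

end

end H73P2
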