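import Pool.Agent.H73.P2.La
import Pool.Agent.H24.PD.Df
import Pool.Agent.H11.Divis2

/-!
ROW Lb (project MP_78d38b_P2, about 170 lines): the local condition is multiplicative. Use only the STATEMENTS of La.

PROOF. It suffices to treat `k = F`, `i = id` with coordinates `i ∘ d` (`LC i a b d` only involves `i a, i b, i ∘ d`, and
`i (m3 a b d₁ d₂ j) = m3 (i a) (i b) (i ∘ d₁) (i ∘ d₂) j`, `Te_m3_map`). `E = ⟨0, 0, 0, i a, i b⟩`. Let `P₁ = (x₁, y₁)`, `P₂ = (x₂, y₂)` be the points of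
`h₁, h₂` (`y ≠ 0`, so nonsingular: `Affine.nonsingular_iff`, `2 y ≠ 0`; point `Affine.Point.some x y h`). By `hinf` and the finiteness of the torsion there is a
point `Q` of `E(F)` outside a finite set with: with `T = Q + Q`:
 (1) `Q + Q ≠ 0`; (2) `T + T ≠ 0`; (3) `T ≠ P₁`, `T ≠ -P₁`; (4) with `P₁' = P₁ + T`: `P₁' + P₁' ≠ 0`; (5) `P₁' ≠ P₂`, `P₁' ≠ -P₂`; (6) with `P₃ = P₁' + P₂`: `P₃ + P₃ ≠ 0`.
Every condition excludes the solutions of `2 • Q = R` or `4 • Q = R` for a fixed `R`; such a solution set is empty or a translate of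
`{Q | 4 • Q = 0}` or a subset of one, and `{Q | 4 • Q = 0}` is finite: `Pool.Agent.H11.finite_torsion` over `AlgebraicClosure F` and the injection
`pm (algebraMap F M) rfl` (`pm_injective`, `Pool/Agent/H10/Pm.lean`; see the proof of `Pool/Agent/H24/PD/L1.lean`, which uses it in the same way; elliptic
because of `hd`: `Δ = -16 (4 a^3 + 27 b^2)`; for the map to the algebraic closure use the instance for `map`).
A point `R = (x, y)` has `R + R ≠ 0` iff `y ≠ 0` (`Affine.Point.add_self_of_Y_eq`, `negY = - y`; `Point.add_self_of_Y_ne`), and the sum of points with `x ≠ x'`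
is given by the slope `l = (y - y') / (x - x')`, `x₃ = l^2 - x - x'`, `y₃ = -(l (x₃ - x) + y)` (`Affine.Point.add_some`, `Affine.slope_of_X_ne`,
`Affine.addX`, `Affine.addY`, `Affine.negAddY`), the double by `l = (3 x^2 + a) / (2 y)` (`Affine.slope_of_Y_ne`). Two points with
the same `x` are equal or opposite (`Affine.Y_eq_of_X_eq` or directly `y^2 = y'^2`).
So: `La_dbl` for `Q`: `1 * (x(T) - θ)` is a square. `La_add` for `(d₁, P₁)` and `(1, T)`: the product with `![1, 0, 0]` is `d₁` (`m3` with one). Then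
`La_add` for `(d₁, P₁')` and `(d₂, P₂)`. The result is the local condition for `d₁ d₂` with the point `P₃`, `y(P₃) ≠ 0`, on the curve by
`La_curve` (or since `P₃` is a point of the curve).
LC_sq: `d u^2 (x - θ) = (z u)^2` (commutativity and associativity of `m3` in coordinates, `Te_m3_map`).
-/

set_option autoImplicit false
set_option linter.unusedSectionVars false
open scoped Classical

open WithZero NumberField IsDedekindDomain H38RT
open H38T1 (SC sc scu rep eo la si Pri OddP tp unif)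
open H76PP

open WeierstrassCurve

namespace H73P2

/-- The class of the point. -/
def Lb_P {F : Type} [Field F] (A B : F) (d : Fin 3 → F)
    (P : (⟨0, 0, 0, A, B⟩ : WeierstrassCurve F).toAffine.Point) : Prop :=
  ∃ (x y : F) (h : (⟨0, 0, 0, A, B⟩ : WeierstrassCurve F).toAffine.Nonsingular x y)
    (z : Fin 3 → F), P = Affine.Point.some x y h ∧ y ≠ 0 ∧
      m3 A B d ![x, -1, 0] = m3 A B z z

lemma Lb_eqn {F : Type} [Field F] {A B x y : F}
    (h : (⟨0, 0, 0, A, B⟩ : WeierstrassCurve F).toAffine.Nonsingular x y) :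
    y ^ 2 = x ^ 3 + A * x + B := by
  have h1 := (Affine.equation_iff _ _).1 h.1
  linear_combination h1

lemma Lb_ns {F : Type} [Field F] {A B x y : F} (h2 : (2 : F) ≠ 0) (hy : y ≠ 0)
    (h : y ^ 2 = x ^ 3 + A * x + B) :
    (⟨0, 0, 0, A, B⟩ : WeierstrassCurve F).toAffine.Nonsingular x y := by
  rw [Affine.nonsingular_iff]
  refine ⟨?_, Or.inr ?_⟩
  · rw [Affine.equation_iff]
    linear_combination h
  · intro h3
    have h4 : (2 : F) * y = 0 := by linear_combination h3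
    exact (mul_ne_zero h2 hy) h4

lemma Lb_negY {F : Type} [Field F] (A B x y : F) :
    (⟨0, 0, 0, A, B⟩ : WeierstrassCurve F).toAffine.negY x y = -y := by
  simp [Affine.negY]

lemma Lb_y_ne {F : Type} [Field F] {A B x y : F}
    (h : (⟨0, 0, 0, A, B⟩ : WeierstrassCurve F).toAffine.Nonsingular x y)
    (h0 : Affine.Point.some x y h + Affine.Point.some x y h ≠ 0) : y ≠ 0 := by
  intro hy
  apply h0
  apply Affine.Point.add_self_of_Y_eq
  rw [Lb_negY, hy, neg_zero]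

lemma Lb_dbl {F : Type} [Field F] {A B : F} (h2 : (2 : F) ≠ 0)
    (P : (⟨0, 0, 0, A, B⟩ : WeierstrassCurve F).toAffine.Point) (h0 : P + P ≠ 0)
    (h1 : P + P + (P + P) ≠ 0) : Lb_P A B ![1, 0, 0] (P + P) := by
  rcases P with _ | ⟨x, y, h⟩
  · exact absurd (by rfl) h0
  have hy : y ≠ 0 := Lb_y_ne h h0
  have hny : y ≠ (⟨0, 0, 0, A, B⟩ : WeierstrassCurve F).toAffine.negY x y := by
    rw [Lb_negY]
    intro h3
    apply mul_ne_zero h2 hy
    linear_combination h3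
  have hadd := Affine.Point.add_self_of_Y_ne (h₁ := h) hny
  obtain ⟨z, hz⟩ := La_dbl (a := A) (b := B) h2 hy (Lb_eqn h)
    (l := (3 * x ^ 2 + A) / (2 * y)) rfl
  rw [hadd] at h1 ⊢
  refine ⟨_, _, _, z, rfl, Lb_y_ne _ h1, ?_⟩
  rw [← hz]
  congr 2
  rw [Affine.slope_of_Y_ne rfl hny, Lb_negY]
  simp only [Affine.addX]
  have : (3 * x ^ 2 + 2 * 0 * x + A - 0 * y) / (y - -y) = (3 * x ^ 2 + A) / (2 * y) := by
    congr 1 <;> ring
  rw [this]
  ring

lemma Lb_add {F : Type} [Field F] {A B : F} {d₁ d₂ : Fin 3 → F}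
    {P₁ P₂ : (⟨0, 0, 0, A, B⟩ : WeierstrassCurve F).toAffine.Point} (h₁ : Lb_P A B d₁ P₁)
    (h₂ : Lb_P A B d₂ P₂) (hne : P₁ ≠ P₂) (hne' : P₁ ≠ -P₂)
    (h0 : P₁ + P₂ + (P₁ + P₂) ≠ 0) : Lb_P A B (m3 A B d₁ d₂) (P₁ + P₂) := by
  obtain ⟨x₁, y₁, n₁, z₁, rfl, hy₁, hz₁⟩ := h₁
  obtain ⟨x₂, y₂, n₂, z₂, rfl, hy₂, hz₂⟩ := h₂
  have e₁ := Lb_eqn n₁
  have e₂ := Lb_eqn n₂
  have hx : x₁ ≠ x₂ := by
    rintro rfl
    have h3 : (y₁ - y₂) * (y₁ + y₂) = 0 := by linear_combination e₁ - e₂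
    rcases mul_eq_zero.1 h3 with h4 | h4
    · apply hne
      have : y₁ = y₂ := sub_eq_zero.1 h4
      subst this
      rfl
    · apply hne'
      rw [Affine.Point.neg_some]
      have : y₁ = (⟨0, 0, 0, A, B⟩ : WeierstrassCurve F).toAffine.negY x₁ y₂ := by
        rw [Lb_negY]
        linear_combination h4
      rw [Affine.Point.some.injEq]
      exact ⟨rfl, this⟩
  have hadd := Affine.Point.add_some (h₁ := n₁) (h₂ := n₂) (fun hxy => hx hxy.1)
  rw [hadd] at h0 ⊢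
  have hy₃ := Lb_y_ne _ h0
  have hsl : (⟨0, 0, 0, A, B⟩ : WeierstrassCurve F).toAffine.slope x₁ x₂ y₁ y₂ =
      (y₁ - y₂) / (x₁ - x₂) := Affine.slope_of_X_ne hx
  rw [hsl] at hy₃
  have hX : (⟨0, 0, 0, A, B⟩ : WeierstrassCurve F).toAffine.addX x₁ x₂ ((y₁ - y₂) / (x₁ - x₂)) =
      ((y₁ - y₂) / (x₁ - x₂)) ^ 2 - x₁ - x₂ := by
    simp only [Affine.addX]
    ring
  have hY : ((y₁ - y₂) / (x₁ - x₂)) * (((y₁ - y₂) / (x₁ - x₂)) ^ 2 - x₁ - x₂ - x₁) + y₁ ≠ 0 := by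
    intro h5
    apply hy₃
    rw [Affine.addY, Lb_negY, Affine.negAddY, hX, h5, neg_zero]
  obtain ⟨z, hz⟩ := La_add hy₁ hy₂ e₁ e₂ hx rfl hz₁ hz₂ hY
  refine ⟨_, _, _, z, rfl, Lb_y_ne _ h0, ?_⟩
  rw [← hz, hsl, hX]

lemma Lb_one {F : Type} [Field F] (A B : F) (d : Fin 3 → F) : m3 A B d ![1, 0, 0] = d := by
  funext j
  fin_cases j <;> simp [m3]

lemma Lb_avoid {F : Type} [Field F] [CharZero F] {A B : F} (hd : 4 * A ^ 3 + 27 * B ^ 2 ≠ 0)
    (hinf : Infinite (⟨0, 0, 0, A, B⟩ : WeierstrassCurve F).toAffine.Point)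
    (S : Set (⟨0, 0, 0, A, B⟩ : WeierstrassCurve F).toAffine.Point) (hS : S.Finite) :
    ∃ Q : (⟨0, 0, 0, A, B⟩ : WeierstrassCurve F).toAffine.Point, ∀ R ∈ S, 4 • Q ≠ R := by
  have hell : (⟨0, 0, 0, A, B⟩ : WeierstrassCurve F).IsElliptic := by
    refine ⟨?_⟩
    rw [isUnit_iff_ne_zero]
    have h16 : (16 : F) ≠ 0 := by norm_num
    intro h0
    apply mul_ne_zero h16 hd
    simp only [WeierstrassCurve.Δ, WeierstrassCurve.b₂, WeierstrassCurve.b₄,
      WeierstrassCurve.b₆, WeierstrassCurve.b₈] at h0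
    linear_combination -h0
  have hfinM := Pool.Agent.H11.finite_torsion
    ((⟨0, 0, 0, A, B⟩ : WeierstrassCurve F).map (algebraMap F (AlgebraicClosure F))) 4 (by norm_num)
  have hfin0 : {Q : (⟨0, 0, 0, A, B⟩ : WeierstrassCurve F).toAffine.Point | 4 • Q = 0}.Finite := by
    refine Set.Finite.of_injOn (f := Pool.Agent.H10.pm (algebraMap F (AlgebraicClosure F)) rfl) ?_
      (Pool.Agent.H10.pm_injective _ rfl).injOn hfinM
    intro Q hQ
    have hQ' : 4 • Q = 0 := hQ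
    change 4 • (Pool.Agent.H10.pm (algebraMap F (AlgebraicClosure F)) rfl Q) = 0
    rw [← map_nsmul, hQ', map_zero]
  have hfinR : ∀ R : (⟨0, 0, 0, A, B⟩ : WeierstrassCurve F).toAffine.Point,
      {Q : (⟨0, 0, 0, A, B⟩ : WeierstrassCurve F).toAffine.Point | 4 • Q = R}.Finite := by
    intro R
    by_cases hne : ∃ Q₀ : (⟨0, 0, 0, A, B⟩ : WeierstrassCurve F).toAffine.Point, 4 • Q₀ = R
    · obtain ⟨Q₀, hQ₀⟩ := hne
      refine Set.Finite.of_injOn (f := fun Q => Q - Q₀) ?_ (sub_left_injective.injOn) hfin0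
      intro Q hQ
      have hQ' : 4 • Q = R := hQ
      change 4 • (Q - Q₀) = 0
      rw [smul_sub, hQ', hQ₀, sub_self]
    · refine Set.finite_empty.subset fun Q hQ => ?_
      exact absurd ⟨Q, hQ⟩ hne
  have hfin : (⋃ R ∈ S, {Q : (⟨0, 0, 0, A, B⟩ : WeierstrassCurve F).toAffine.Point |
      4 • Q = R}).Finite := hS.biUnion (fun R _ => hfinR R)
  obtain ⟨Q, hQ⟩ := hfin.exists_notMem
  refine ⟨Q, fun R hR h => hQ ?_⟩
  rw [Set.mem_iUnion₂]
  exact ⟨R, hR, h⟩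

theorem LC_mul {k F : Type} [Field k] [Field F] [CharZero F] (i : k →+* F) {a b : k}
    (hd : 4 * i a ^ 3 + 27 * i b ^ 2 ≠ 0)
    (hinf : Infinite (⟨0, 0, 0, i a, i b⟩ : WeierstrassCurve F).toAffine.Point)
    {d₁ d₂ : Fin 3 → k} (h₁ : LC i a b d₁) (h₂ : LC i a b d₂) : LC i a b (m3 a b d₁ d₂) := by
  have h2 : (2 : F) ≠ 0 := two_ne_zero
  obtain ⟨x₁, y₁, z₁, hy₁, e₁, hz₁⟩ := h₁
  obtain ⟨x₂, y₂, z₂, hy₂, e₂, hz₂⟩ := h₂
  set P₁ : (⟨0, 0, 0, i a, i b⟩ : WeierstrassCurve F).toAffine.Point :=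
    Affine.Point.some x₁ y₁ (Lb_ns h2 hy₁ e₁) with hP₁
  set P₂ : (⟨0, 0, 0, i a, i b⟩ : WeierstrassCurve F).toAffine.Point :=
    Affine.Point.some x₂ y₂ (Lb_ns h2 hy₂ e₂) with hP₂
  have L₁ : Lb_P (i a) (i b) (fun j => i (d₁ j)) P₁ := ⟨x₁, y₁, _, z₁, hP₁, hy₁, hz₁⟩
  have L₂ : Lb_P (i a) (i b) (fun j => i (d₂ j)) P₂ := ⟨x₂, y₂, _, z₂, hP₂, hy₂, hz₂⟩
  obtain ⟨Q, hQ⟩ := Lb_avoid hd hinf
    {0, P₁ + P₁, -(P₁ + P₁), (P₂ - P₁) + (P₂ - P₁), -((P₁ + P₂) + (P₁ + P₂))} (by simp)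
  have q0 : 4 • Q ≠ 0 := hQ _ (by simp)
  have q1 : 4 • Q ≠ P₁ + P₁ := hQ _ (by simp)
  have q2 : 4 • Q ≠ -(P₁ + P₁) := hQ _ (by simp)
  have q3 : 4 • Q ≠ (P₂ - P₁) + (P₂ - P₁) := hQ _ (by simp)
  have q4 : 4 • Q ≠ -((P₁ + P₂) + (P₁ + P₂)) := hQ _ (by simp)
  have h4 : 4 • Q = (Q + Q) + (Q + Q) := by abel
  have hT : Lb_P (i a) (i b) ![1, 0, 0] (Q + Q) := by
    refine Lb_dbl h2 Q ?_ ?_
    · intro h
      apply q0
      rw [h4, h, add_zero]
    · rw [← h4]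
      exact q0
  have hA : Lb_P (i a) (i b) (fun j => i (d₁ j)) (P₁ + (Q + Q)) := by
    have := Lb_add L₁ hT ?_ ?_ ?_
    · rwa [Lb_one] at this
    · intro h
      apply q1
      rw [h4, ← h]
    · intro h
      apply q2
      rw [h4, h]
      abel
    · intro h
      apply q2
      rw [h4, eq_neg_iff_add_eq_zero, ← h]
      abel
  have hB := Lb_add hA L₂ ?_ ?_ ?_
  · obtain ⟨x, y, n, z, -, hy, hz⟩ := hB
    refine ⟨x, y, z, hy, Lb_eqn n, ?_⟩
    rw [← hz]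
    congr 1
    funext j
    exact (Te_m3_map i a b d₁ d₂ j).symm
  · intro h
    apply q3
    rw [h4, ← h]
    abel
  · intro h
    apply q4
    rw [h4]
    have : P₂ = -(P₁ + (Q + Q)) := by rw [h, neg_neg]
    rw [this]
    abel
  · intro h
    apply q4
    rw [h4, eq_neg_iff_add_eq_zero, ← h]
    abel

theorem LC_sq {k F : Type} [Field k] [Field F] (i : k →+* F) {a b : k} {d : Fin 3 → k}
    (u : Fin 3 → k) (h : LC i a b d) : LC i a b (m3 a b d (m3 a b u u)) := by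
  obtain ⟨x, y, z, hy, e, hz⟩ := h
  refine ⟨x, y, m3 (i a) (i b) z (fun j => i (u j)), hy, e, ?_⟩
  have h1 : (fun j => i (m3 a b d (m3 a b u u) j)) =
      m3 (i a) (i b) (fun j => i (d j)) (m3 (i a) (i b) (fun j => i (u j)) (fun j => i (u j))) := by
    funext j
    rw [← Te_m3_map]
    congr 1
    funext j'
    exact (Te_m3_map i a b u u j').symm
  rw [h1]
  generalize (i a) = A at hz ⊢
  generalize (i b) = B at hz ⊢
  generalize (fun j => i (d j)) = D at hz ⊢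
  generalize (fun j => i (u j)) = U
  have h2 : m3 A B (m3 A B D (m3 A B U U)) ![x, -1, 0] =
      m3 A B (m3 A B D ![x, -1, 0]) (m3 A B U U) := by
    funext j
    fin_cases j <;> simp [m3] <;> ring
  rw [h2, hz]
  funext j
  fin_cases j <;> simp [m3] <;> ring

end H73P2
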