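import Pool.Agent.H73.P2.Df

/-!
ROW Sb (project MP_78d38b_P2, about 110 lines): the cubic extension of the smaller field inside that of the larger one.

PROOF. `L := IntermediateField.adjoin k {θ'}` (as a type `k⟮θ'⟯`, a subfield of `L'`; all the instances are the canonical ones;
`NumberField`: it is a finite extension of the number field `k`, or `NumberField.of_module_finite k`; or an intermediate field of `L' / k`), `θ := ⟨θ', _⟩`
(`IntermediateField.AdjoinSimple.gen k θ'`). `Cub`: root: `h.root` (map `algebraMap L L'` is injective). li: a relation over `k` is a relation over `k'`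
(apply `algebraMap L L'`, `IsScalarTower.algebraMap_apply k k' L'`), `h.li` and injectivity of `k → k'`. sp: every element of `k⟮θ'⟯` is a polynomial in `θ'`
(`θ'` is integral over `k`: `IntermediateField.adjoin_simple_toSubalgebra_of_integral`, `Algebra.adjoin_singleton_eq_range_aeval`) and
a polynomial in `θ` can be reduced to degree `≤ 2` using `θ^3 = -a θ - b` (induction on the polynomial: the set of elements of the form
`c₀ + c₁ θ + c₂ θ^2` contains the constants, is closed under addition and under multiplication by `θ`).
fin2: tower formula twice: `finrank k L' = finrank k L * finrank L L' = 3 * finrank L L'` and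
`finrank k L' = finrank k k' * finrank k' L' = 2 * 3` (`Cub.finrank`, `Module.finrank_mul_finrank`).
-/

set_option autoImplicit false
set_option linter.unusedSectionVars false
open scoped Classical

open WithZero NumberField IsDedekindDomain H38RT
open H38T1 (SC sc scu rep eo la si Pri OddP tp unif)
open H76PP

namespace H73P2

theorem exists_sub {k k' L' : Type} [Field k] [NumberField k] [Field k'] [NumberField k'] [Field L']
    [NumberField L'] [Algebra k k'] [Algebra k' L'] [Algebra k L'] [IsScalarTower k k' L'] {a b : k}
    {θ' : L'} (h : Cub k' L' (algebraMap k k' a) (algebraMap k k' b) θ') :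
    ∃ (L : Type) (_ : Field L) (_ : NumberField L) (_ : Algebra k L) (_ : Algebra L L')
      (_ : IsScalarTower k L L') (θ : L), Cub k L a b θ ∧ algebraMap L L' θ = θ' := by
  have hint : IsIntegral k θ' := Algebra.IsIntegral.isIntegral θ'
  refine ⟨(IntermediateField.adjoin k {θ'} : IntermediateField k L'), inferInstance,
    NumberField.of_intermediateField _, inferInstance, inferInstance, inferInstance,
    IntermediateField.AdjoinSimple.gen k θ', ?_, IntermediateField.AdjoinSimple.algebraMap_gen k θ'⟩
  set E : IntermediateField k L' := IntermediateField.adjoin k {θ'} with hE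
  set θ : E := IntermediateField.AdjoinSimple.gen k θ' with hθ
  have hθ' : algebraMap E L' θ = θ' := IntermediateField.AdjoinSimple.algebraMap_gen k θ'
  have hinj : Function.Injective (algebraMap E L') := (algebraMap E L').injective
  have hmap : ∀ x : k, algebraMap E L' (algebraMap k E x) = algebraMap k' L' (algebraMap k k' x) := by
    intro x
    rw [← IsScalarTower.algebraMap_apply k E L', ← IsScalarTower.algebraMap_apply k k' L']
  have hroot : θ ^ 3 + algebraMap k E a * θ + algebraMap k E b = 0 := by
    apply hinj
    rw [map_add, map_add, map_mul, map_pow, map_zero, hθ', hmap, hmap]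
    exact h.root
  have hred : ∀ p : Polynomial k, ∃ c₀ c₁ c₂ : k, Polynomial.aeval θ p =
      algebraMap k E c₀ + algebraMap k E c₁ * θ + algebraMap k E c₂ * θ ^ 2 := by
    intro p
    induction p using Polynomial.induction_on with
    | C c => exact ⟨c, 0, 0, by simp⟩
    | add p q hp hq =>
      obtain ⟨c₀, c₁, c₂, hp⟩ := hp
      obtain ⟨d₀, d₁, d₂, hq⟩ := hq
      refine ⟨c₀ + d₀, c₁ + d₁, c₂ + d₂, ?_⟩
      rw [map_add, hp, hq, map_add, map_add, map_add]
      ring
    | monomial n c hp =>
      obtain ⟨c₀, c₁, c₂, hp⟩ := hp
      refine ⟨- (c₂ * b), c₀ - c₂ * a, c₁, ?_⟩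
      have e1 : Polynomial.aeval θ (Polynomial.C c * Polynomial.X ^ (n + 1)) =
          Polynomial.aeval θ (Polynomial.C c * Polynomial.X ^ n) * θ := by
        rw [pow_succ, ← mul_assoc, map_mul, Polynomial.aeval_X]
      rw [e1, hp, map_neg, map_mul, map_sub, map_mul]
      linear_combination (algebraMap k E c₂) * hroot
  refine ⟨hroot, ?_, ?_⟩
  · intro c₀ c₁ c₂ hc
    have h1 := congrArg (algebraMap E L') hc
    rw [map_add, map_add, map_mul, map_mul, map_pow, map_zero, hθ', hmap, hmap, hmap] at h1
    obtain ⟨e0, e1, e2⟩ := h.li _ _ _ h1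
    have hi : Function.Injective (algebraMap k k') := (algebraMap k k').injective
    exact ⟨hi (by rw [e0, map_zero]), hi (by rw [e1, map_zero]), hi (by rw [e2, map_zero])⟩
  · intro x
    have hx : (x : L') ∈ (IntermediateField.adjoin k {θ'}).toSubalgebra := x.2
    rw [IntermediateField.adjoin_simple_toSubalgebra_of_isAlgebraic hint.isAlgebraic,
      Algebra.adjoin_singleton_eq_range_aeval] at hx
    obtain ⟨p, hp⟩ := hx
    obtain ⟨c₀, c₁, c₂, hc⟩ := hred p
    refine ⟨c₀, c₁, c₂, ?_⟩
    rw [← hc]
    apply hinj
    rw [← Polynomial.aeval_algebraMap_apply, hθ']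
    exact hp.symm

theorem QS.fin2 {k L k' L' : Type} [Field k] [NumberField k] [Field L] [NumberField L] [Field k']
    [NumberField k'] [Field L'] [NumberField L'] [Algebra k L] [Algebra k k'] [Algebra L L']
    [Algebra k' L'] [Algebra k L'] [IsScalarTower k L L'] [IsScalarTower k k' L'] {a b : k} {θ : L}
    {θ' : L'} (S : QS k L k' L' a b θ θ') : Module.finrank L L' = 2 := by
  have h1 : Module.finrank k L = 3 := S.cub.finrank
  have h2 : Module.finrank k' L' = 3 := S.cub'.finrank
  have h3 := Module.finrank_mul_finrank k L L'
  have h4 := Module.finrank_mul_finrank k k' L'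
  rw [S.two, h2] at h4
  rw [h1, ← h4] at h3
  omega

end H73P2
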