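import Mathlib

/-!
ROW Ex (project MP_78d38b_P2, about 80 lines, Mathlib only): extension of embeddings.

PROOF. `N / K` is Galois and `ι : N →ₐ[K] F`. Let `p : K[X]` be a separable polynomial of which `N` is the splitting field (`IsGalois.is_separable_splitting_field`).
It splits in `F` (map by `ι`: `Polynomial.splits_comp_of_splits` / `Splits.map`). Give `F` the structure of a `k`-algebra by `j` (`letI := j.toRingHom.toAlgebra`, then
`IsScalarTower K k F` by `j.commutes`). `N` is the splitting field over `k` of `p.map (algebraMap K k)` (`Polynomial.IsSplittingField.map`, or `IsSplittingField.of_algHom..`), which splits in `F`: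
`Polynomial.IsSplittingField.lift` gives `J : N →ₐ[k] F`; restrict scalars to `K` (`AlgHom.restrictScalars`).
Alternative: for `x : k` the minimal polynomial over `K` splits in `N`, so `j x ∈ ι.range`; so `j = ι ∘ j₀` with `j₀ : k →ₐ[K] N`, and `j₀` extends to `N →ₐ[K] N` by normality
(`AlgHom.liftNormal`, `AlgEquiv.liftNormal`, or `exists_algHom_of_splits`).
-/

set_option autoImplicit false
set_option linter.unusedSectionVars false

namespace H73P2

theorem exists_ext {K N F k : Type} [Field K] [Field N] [Field F] [Field k] [Algebra K N]
    [FiniteDimensional K N] [IsGalois K N] [Algebra K F] [Algebra K k] [Algebra k N]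
    [IsScalarTower K k N] (ι : N →ₐ[K] F) (j : k →ₐ[K] F) :
    ∃ J : N →ₐ[K] F, ∀ x : k, J (algebraMap k N x) = j x := by
  classical
  obtain ⟨p, hp, hsf⟩ := IsGalois.is_separable_splitting_field K N
  let : Algebra k F := j.toRingHom.toAlgebra
  have hmap : ∀ x : k, algebraMap k F x = j x := fun x => rfl
  have : IsScalarTower K k F := IsScalarTower.of_algebraMap_eq fun x => by
    rw [hmap, j.commutes]
  have hspl : (p.map (algebraMap K F)).Splits := by
    have h1 := (Polynomial.IsSplittingField.splits N p).map ι.toRingHom
    rw [Polynomial.map_map] at h1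
    have h2 : ι.toRingHom.comp (algebraMap K N) = algebraMap K F := ι.comp_algebraMap
    rwa [h2] at h1
  have hspl' : ((p.map (algebraMap K k)).map (algebraMap k F)).Splits := by
    rw [Polynomial.map_map, ← IsScalarTower.algebraMap_eq]
    exact hspl
  have : Polynomial.IsSplittingField k N (p.map (algebraMap K k)) :=
    Polynomial.IsSplittingField.map (F := K) (K := k) (L := N) p
  refine ⟨(Polynomial.IsSplittingField.lift N (p.map (algebraMap K k)) hspl').restrictScalars K,
    fun x => ?_⟩
  rw [AlgHom.restrictScalars_apply, AlgHom.commutes, hmap]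

end H73P2
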