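import Pool.Agent.H73.P2.Df

/-!
ROW Lc (project MP_78d38b_P2, about 130 lines): at a real place where the cubic has one real root the local condition
follows from the positivity of the norm.

PROOF. Work over `ℝ` with `A = s a`, `B = s b`, `D j = s (d j)` (`Te_nf_map`). `f(x) = x^3 + A x + B` has a real root `e` (odd degree; intermediate
value theorem). `f(x) = (x - e)(x^2 + e x + e^2 + A)` and the discriminant identity: `4 A^3 + 27 B^2 = (3 e^2 + 4 A)(3 e^2 + A)^2` (with `B = -e^3 - A e`), so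
`3 e^2 + 4 A > 0`: the quadratic factor has the non real root `ζ = (-e + i τ) / 2`, `τ = sqrt (3 e^2 + 4 A) > 0`, and is positive on `ℝ`.
Norm form: `Te_nf A B D = D(e) * (Re D(ζ) ^ 2 + Im D(ζ) ^ 2)` where `D(t) = D 0 + D 1 t + D 2 t^2` (polynomial identity; `Te_nf` is the product of
the values of `D` at the three roots; write `D(ζ) = p + i q` with explicit real polynomials `p = D 0 - D 1 e / 2 + D 2 (e^2 - τ^2) / 4`, `q = τ (D 1 - D 2 e) / 2`, `τ^2 = 3 e^2 + 4 A`).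
So `D(e) > 0`. Take `x = e + 1`: `f(x) > 0`, `y = sqrt (f x)`. `D(e) (x - e) > 0` is the square of a real `g ≠ 0`, and `D(ζ) (x - ζ)` is the square of a complex number
`p' + i q'` (`IsSquare` in `ℂ`: `Complex` is algebraically closed, `IsAlgClosed.exists_pow_nat_eq` or `Complex.cpow`). Choose `z : Fin 3 → ℝ` with
`z(e) = g` and `z(ζ) = p' + i q'` (three real linear equations: `z 0 + z 1 e + z 2 e^2 = g`, `τ (z 1 - z 2 e) / 2 = q'`,
`z 0 - z 1 e / 2 + z 2 (e^2 - τ^2) / 4 = p'`; subtracting the first from the third: `-(3 e / 2) z 1 - z 2 (3 e^2 + τ^2) / 4 = p' - g`, and with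
`z 1 = 2 q' / τ + z 2 e`: `z 2 (9 e^2 + τ^2) / 4 = g - p' - 3 e q' / τ`, `9 e^2 + τ^2 > 0`). Then the element `D (x - θ) - z^2` of `ℝ[T] / f` vanishes at `e` and at `ζ`, so its three coordinates
`c` satisfy `c(e) = 0`, `c(ζ) = 0`: by the same linear equations (with right sides zero) `c = 0`. The value at `t` (a root of `f`, real or complex) of `m3 A B u v` is the
product of the values (`f(t) = 0`).
-/

set_option autoImplicit false
set_option linter.unusedSectionVars false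
open scoped Classical

open WithZero NumberField IsDedekindDomain H38RT
open H38T1 (SC sc scu rep eo la si Pri OddP tp unif)
open H76PP

namespace H73P2

/-- value at the real root -/
private noncomputable def Lc_E (e : ℝ) (c : Fin 3 → ℝ) : ℝ := c 0 + c 1 * e + c 2 * e ^ 2

/-- real part of the value at the complex root -/
private noncomputable def Lc_P (e τ : ℝ) (c : Fin 3 → ℝ) : ℝ := c 0 - c 1 * e / 2 + c 2 * (e ^ 2 - τ ^ 2) / 4

/-- imaginary part of the value at the complex root -/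
private noncomputable def Lc_Q (e τ : ℝ) (c : Fin 3 → ℝ) : ℝ := τ * (c 1 - c 2 * e) / 2

private lemma Lc_mulE (e τ : ℝ) (u v : Fin 3 → ℝ) :
    Lc_E e (m3 ((τ ^ 2 - 3 * e ^ 2) / 4) (-e * (e ^ 2 + τ ^ 2) / 4) u v) = Lc_E e u * Lc_E e v := by
  simp only [Lc_E, m3, Matrix.cons_val_zero, Matrix.cons_val_one, Matrix.cons_val_two,
    Matrix.head_cons, Matrix.tail_cons]
  ring

private lemma Lc_mulP (e τ : ℝ) (u v : Fin 3 → ℝ) :
    Lc_P e τ (m3 ((τ ^ 2 - 3 * e ^ 2) / 4) (-e * (e ^ 2 + τ ^ 2) / 4) u v) =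
      Lc_P e τ u * Lc_P e τ v - Lc_Q e τ u * Lc_Q e τ v := by
  simp only [Lc_P, Lc_Q, m3, Matrix.cons_val_zero, Matrix.cons_val_one, Matrix.cons_val_two,
    Matrix.head_cons, Matrix.tail_cons]
  ring

private lemma Lc_mulQ (e τ : ℝ) (u v : Fin 3 → ℝ) :
    Lc_Q e τ (m3 ((τ ^ 2 - 3 * e ^ 2) / 4) (-e * (e ^ 2 + τ ^ 2) / 4) u v) =
      Lc_P e τ u * Lc_Q e τ v + Lc_Q e τ u * Lc_P e τ v := by
  simp only [Lc_P, Lc_Q, m3, Matrix.cons_val_zero, Matrix.cons_val_one, Matrix.cons_val_two,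
    Matrix.head_cons, Matrix.tail_cons]
  ring

private lemma Lc_nf (e τ : ℝ) (u : Fin 3 → ℝ) :
    Te_nf ((τ ^ 2 - 3 * e ^ 2) / 4) (-e * (e ^ 2 + τ ^ 2) / 4) u =
      Lc_E e u * (Lc_P e τ u ^ 2 + Lc_Q e τ u ^ 2) := by
  simp only [Te_nf, Lc_E, Lc_P, Lc_Q]
  ring

private lemma Lc_inj {e τ : ℝ} (hτ : 0 < τ) {u v : Fin 3 → ℝ} (h1 : Lc_E e u = Lc_E e v)
    (h2 : Lc_P e τ u = Lc_P e τ v) (h3 : Lc_Q e τ u = Lc_Q e τ v) : u = v := by
  have h4 : u 1 - u 2 * e = v 1 - v 2 * e := by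
    simp only [Lc_Q] at h3
    have : τ * ((u 1 - u 2 * e) - (v 1 - v 2 * e)) = 0 := by linarith
    rcases mul_eq_zero.mp this with h | h
    · exact absurd h hτ.ne'
    · linarith
  simp only [Lc_E] at h1
  simp only [Lc_P] at h2
  have h5 : (u 2 - v 2) * (9 * e ^ 2 + τ ^ 2) = 0 := by
    have e1 : u 1 = v 1 + (u 2 - v 2) * e := by linarith
    have e0 : u 0 = v 0 + v 1 * e + v 2 * e ^ 2 - u 1 * e - u 2 * e ^ 2 := by linarith
    rw [e0, e1] at h2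
    linarith
  have h6 : u 2 = v 2 := by
    rcases mul_eq_zero.mp h5 with h | h
    · linarith
    · have : 0 < 9 * e ^ 2 + τ ^ 2 := by positivity
      linarith
  have h7 : u 1 = v 1 := by rw [h6] at h4; linarith
  have h8 : u 0 = v 0 := by rw [h6, h7] at h1; linarith
  funext j
  fin_cases j
  · exact h8
  · exact h7
  · exact h6

private lemma Lc_surj {e τ : ℝ} (hτ : 0 < τ) (g p q : ℝ) :
    ∃ z : Fin 3 → ℝ, Lc_E e z = g ∧ Lc_P e τ z = p ∧ Lc_Q e τ z = q := by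
  have hs : 0 < 9 * e ^ 2 + τ ^ 2 := by positivity
  obtain ⟨z2, hz2⟩ : ∃ t : ℝ, t * (9 * e ^ 2 + τ ^ 2) = 4 * (g - p - 3 * e * (q / τ)) :=
    ⟨4 * (g - p - 3 * e * (q / τ)) / (9 * e ^ 2 + τ ^ 2), by field_simp⟩
  have hq : τ * (q / τ) = q := by field_simp
  refine ⟨![g - (2 * (q / τ) + z2 * e) * e - z2 * e ^ 2, 2 * (q / τ) + z2 * e, z2], ?_, ?_, ?_⟩
  · simp only [Lc_E, Matrix.cons_val_zero, Matrix.cons_val_one, Matrix.cons_val_two,
      Matrix.head_cons, Matrix.tail_cons]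
    ring
  · simp only [Lc_P, Matrix.cons_val_zero, Matrix.cons_val_one, Matrix.cons_val_two,
      Matrix.head_cons, Matrix.tail_cons]
    linarith
  · simp only [Lc_Q, Matrix.cons_val_zero, Matrix.cons_val_one, Matrix.cons_val_two,
      Matrix.head_cons, Matrix.tail_cons]
    linarith

private lemma Lc_root (A B : ℝ) : ∃ e : ℝ, e ^ 3 + A * e + B = 0 := by
  obtain ⟨M, hM⟩ : ∃ M : ℝ, M = 1 + |A| + |B| := ⟨_, rfl⟩
  have hA := abs_nonneg A
  have hB := abs_nonneg B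
  have hM1 : 1 ≤ M := by linarith
  have hA1 := le_abs_self A
  have hA2 := neg_abs_le A
  have hB1 := le_abs_self B
  have hB2 := neg_abs_le B
  have hkey : |A| * M + |B| ≤ M ^ 3 := by
    have h1 : |B| ≤ |B| * M := by nlinarith
    have h2 : |A| * M + |B| * M ≤ M * M := by nlinarith
    have h3 : M * M ≤ M ^ 3 := by nlinarith [mul_nonneg (mul_nonneg (by linarith : (0:ℝ) ≤ M) (by linarith : (0:ℝ) ≤ M)) (by linarith : (0:ℝ) ≤ M - 1)]
    linarith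
  have hAM : -(|A| * M) ≤ A * M := by nlinarith
  have hAM' : A * M ≤ |A| * M := by nlinarith
  have hc : ContinuousOn (fun t : ℝ => t ^ 3 + A * t + B) (Set.Icc (-M) M) := by fun_prop
  have h := intermediate_value_Icc (by linarith : -M ≤ M) hc
  have h0 : (0 : ℝ) ∈ Set.Icc ((-M) ^ 3 + A * (-M) + B) (M ^ 3 + A * M + B) := by
    constructor
    · have : (-M) ^ 3 = -(M ^ 3) := by ring
      rw [this]
      linarith
    · linarith
  obtain ⟨e, -, he⟩ := h h0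
  exact ⟨e, he⟩

private lemma Lc_main (A B : ℝ) (D : Fin 3 → ℝ) (hd : 0 < 4 * A ^ 3 + 27 * B ^ 2)
    (hn : 0 < Te_nf A B D) : ∃ (x y : ℝ) (z : Fin 3 → ℝ), y ≠ 0 ∧ y ^ 2 = x ^ 3 + A * x + B ∧
      m3 A B D ![x, -1, 0] = m3 A B z z := by
  obtain ⟨e, he⟩ := Lc_root A B
  have hB : B = -e ^ 3 - A * e := by linarith
  have hτ0 : 0 < 3 * e ^ 2 + 4 * A := by
    have h1 : 4 * A ^ 3 + 27 * B ^ 2 = (3 * e ^ 2 + 4 * A) * (3 * e ^ 2 + A) ^ 2 := by
      rw [hB]; ring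
    rw [h1] at hd
    by_contra h
    have h2 := mul_nonpos_of_nonpos_of_nonneg (not_lt.mp h) (sq_nonneg (3 * e ^ 2 + A))
    linarith
  obtain ⟨τ, hτ, hτ2⟩ : ∃ τ : ℝ, 0 < τ ∧ τ ^ 2 = 3 * e ^ 2 + 4 * A :=
    ⟨Real.sqrt _, Real.sqrt_pos.mpr hτ0, Real.sq_sqrt hτ0.le⟩
  have hA : A = (τ ^ 2 - 3 * e ^ 2) / 4 := by linarith
  have hB' : B = -e * (e ^ 2 + τ ^ 2) / 4 := by
    rw [hB, hA]; ring
  rw [hA, hB'] at hn ⊢
  rw [Lc_nf] at hn
  have hE : 0 < Lc_E e D := by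
    by_contra h
    have h2 := mul_nonpos_of_nonpos_of_nonneg (not_lt.mp h)
      (add_nonneg (sq_nonneg (Lc_P e τ D)) (sq_nonneg (Lc_Q e τ D)))
    linarith
  obtain ⟨w, hw⟩ := IsAlgClosed.exists_pow_nat_eq
    (⟨Lc_P e τ (m3 ((τ ^ 2 - 3 * e ^ 2) / 4) (-e * (e ^ 2 + τ ^ 2) / 4) D ![e + 1, -1, 0]),
      Lc_Q e τ (m3 ((τ ^ 2 - 3 * e ^ 2) / 4) (-e * (e ^ 2 + τ ^ 2) / 4) D ![e + 1, -1, 0])⟩ : ℂ)
    (n := 2) (by norm_num)
  have hre := congrArg Complex.re hw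
  have him := congrArg Complex.im hw
  rw [pow_two, Complex.mul_re] at hre
  rw [pow_two, Complex.mul_im] at him
  simp only at hre him
  obtain ⟨z, hz1, hz2, hz3⟩ := Lc_surj (e := e) hτ (Real.sqrt (Lc_E e D)) w.re w.im
  have hf : 0 < (e + 1) ^ 3 + (τ ^ 2 - 3 * e ^ 2) / 4 * (e + 1) + -e * (e ^ 2 + τ ^ 2) / 4 := by
    have : (e + 1) ^ 3 + (τ ^ 2 - 3 * e ^ 2) / 4 * (e + 1) + -e * (e ^ 2 + τ ^ 2) / 4 =
        (e + 1 + e / 2) ^ 2 + τ ^ 2 / 4 := by ring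
    rw [this]
    positivity
  refine ⟨e + 1, Real.sqrt ((e + 1) ^ 3 + (τ ^ 2 - 3 * e ^ 2) / 4 * (e + 1) +
    -e * (e ^ 2 + τ ^ 2) / 4), z, (Real.sqrt_pos.mpr hf).ne', Real.sq_sqrt hf.le, ?_⟩
  refine Lc_inj (e := e) hτ ?_ ?_ ?_
  · rw [Lc_mulE, Lc_mulE, hz1, Real.mul_self_sqrt hE.le]
    have : Lc_E e ![e + 1, -1, 0] = 1 := by
      simp [Lc_E]
    rw [this, mul_one]
  · rw [← hre, Lc_mulP, hz2, hz3]
  · rw [← him, Lc_mulQ, hz2, hz3]

theorem LC_real {k : Type} [Field k] (s : k →+* ℝ) {a b : k} (hd : 0 < s (4 * a ^ 3 + 27 * b ^ 2))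
    {d : Fin 3 → k} (hn : 0 < s (Te_nf a b d)) : LC s a b d := by
  have h1 : s (4 * a ^ 3 + 27 * b ^ 2) = 4 * (s a) ^ 3 + 27 * (s b) ^ 2 := by
    rw [map_add, map_mul, map_mul, map_pow, map_pow, map_ofNat, map_ofNat]
  rw [h1] at hd
  rw [← Te_nf_map] at hn
  exact Lc_main (s a) (s b) (fun j => s (d j)) hd hn

end H73P2
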