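import Pool.Agent.H73.P2.Df
import Pool.Agent.H38.T1.Ea

/-!
ROW Ub (project MP_78d38b_P2, about 90 lines): descent of even orders at a place where the quadratic extension is
unramified.

PROOF. `u = dn k w`. `D` is a `u`-unit: choose `m ∈ 𝓞 k`, `m ∉ u`, with `δ := D m^2 ∈ 𝓞 k` (`HeightOneSpectrum.exists_primeCompl_mul_eq_of_integer` for `D`: `D m ∈ 𝓞 k`, multiply by `m` again); `δ ∉ u`. `d := ρ m`, an integer of
`k'` (`d^2 = δ`, `IsIntegral.of_pow`). Choose `W` of `L'` above `w` (`Pool.Agent.H10.Q.exists_above`); `ram_one` (`Pool/Agent/H10/Q/Val.lean`) for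
`L' / L` (`f2`), the images of `d` and `δ`, gives `ramificationIdx' = 1` (used in this way at the end of the proof of `QStep.core` in `Pool/Agent/H10/Q/Step.lean`; `notMem_up` gives the hypothesis `hdF`
from `hρk`; `2 δ ∉ w` because `w` is odd: `OddP w` is `w.valuation 2 = 1` and `δ ∉ w` as `δ ∉ u = w ∩ 𝓞 k`), and `val_above`: `w.valuation x = W.valuation (algebraMap x)`. `dn L W = w` from `LiesOver`.
`he W`: `eo W (sc (algebraMap x)) = 0`, so `eo w (sc x) = 0` (`H38T1.eo_sc`: parity of `ord = - log`).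
-/

set_option autoImplicit false
set_option linter.unusedSectionVars false
open scoped Classical

open WithZero NumberField IsDedekindDomain H38RT
open H38T1 (SC sc scu rep eo la si Pri OddP tp unif)
open H76PP

namespace H73P2

theorem even_unram {k L k' L' : Type} [Field k] [NumberField k] [Field L] [NumberField L] [Field k']
    [NumberField k'] [Field L'] [NumberField L'] [Algebra k L] [Algebra k k'] [Algebra L L']
    [Algebra k' L'] [Algebra k L'] [IsScalarTower k L L'] [IsScalarTower k k' L'] {a b : k} {θ : L}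
    {θ' : L'} (S : QS k L k' L' a b θ θ') (f2 : Module.finrank L L' = 2)
    (w : HeightOneSpectrum (𝓞 L)) (hodd : OddP w) {D : k} {ρ : k'}
    (hρ : ρ ^ 2 = algebraMap k k' D) (hρk : ∀ y : k, algebraMap k k' y ≠ ρ)
    (hD : (dn k w).valuation k D = 1) {x : L} (hx : x ≠ 0)
    (he : ∀ w' : HeightOneSpectrum (𝓞 L'), dn L w' = w → eo w' (sc (algebraMap L L' x)) = 0) :
    eo w (sc x) = 0 := by
  -- an integral representative of the class of `D`
  obtain ⟨n, ⟨m, hm⟩, hnm⟩ := (dn k w).exists_primeCompl_mul_eq_of_integer D hD.le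
  have hnm' : D * algebraMap (𝓞 k) k m = algebraMap (𝓞 k) k n := hnm
  have hm' : m ∉ (dn k w).asIdeal := hm
  have hmem : ∀ z : 𝓞 k, (dn k w).valuation k (z : k) < 1 ↔ z ∈ (dn k w).asIdeal :=
    fun z => (dn k w).valuation_lt_one_iff_mem z
  have hvm : (dn k w).valuation k (algebraMap (𝓞 k) k m) = 1 :=
    le_antisymm ((dn k w).valuation_le_one m) (not_lt.1 fun h => hm' ((hmem m).1 h))
  have hm0 : algebraMap (𝓞 k) k m ≠ 0 := by
    intro h0
    rw [h0, map_zero] at hvm
    exact zero_ne_one hvm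
  obtain ⟨δ, hδ⟩ : ∃ δ : 𝓞 k, algebraMap (𝓞 k) k δ = D * algebraMap (𝓞 k) k m ^ 2 :=
    ⟨n * m, by rw [map_mul, ← hnm']; ring⟩
  have hδu : δ ∉ (dn k w).asIdeal := by
    rw [← hmem]
    change ¬ (dn k w).valuation k (algebraMap (𝓞 k) k δ) < 1
    rw [hδ, map_mul, map_pow, hD, hvm, one_pow, mul_one]
    exact lt_irrefl _
  have hd2 : (ρ * algebraMap k k' (algebraMap (𝓞 k) k m)) ^ 2 =
      algebraMap k k' (algebraMap (𝓞 k) k δ) := by
    rw [mul_pow, hρ, hδ, map_mul, map_pow]
  have hint : IsIntegral ℤ (ρ * algebraMap k k' (algebraMap (𝓞 k) k m)) := by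
    refine IsIntegral.of_pow (n := 2) (by norm_num) ?_
    rw [hd2]
    exact (algebraMap (𝓞 k) (𝓞 k') δ : 𝓞 k').isIntegral_coe
  obtain ⟨d, hdd⟩ : ∃ d : 𝓞 k', (d : k') = ρ * algebraMap k k' (algebraMap (𝓞 k) k m) :=
    ⟨⟨_, hint⟩, rfl⟩
  have hdK2 : (d : k') ^ 2 = algebraMap k k' (algebraMap (𝓞 k) k δ) := by rw [hdd, hd2]
  have hdK : ∀ y : k, algebraMap k k' y ≠ (d : k') := by
    intro y hy
    apply hρk (y / algebraMap (𝓞 k) k m)
    have hm1 : algebraMap k k' (algebraMap (𝓞 k) k m) ≠ 0 := by rwa [Ne, map_eq_zero]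
    rw [map_div₀, hy, hdd, mul_div_assoc, div_self hm1, mul_one]
  have h3 : Module.finrank k L = 3 := S.cub.finrank
  haveI : FiniteDimensional k L := Module.finite_of_finrank_pos (by rw [h3]; norm_num)
  have hdL := Pool.Agent.H10.Q.notMem_up (L := L) (L2 := L') (by rw [h3]; decide) hdK2 hdK
  obtain ⟨W, hW⟩ := Pool.Agent.H10.Q.exists_above (E := L') w
  have hram : w.asIdeal.ramificationIdx' W.asIdeal = 1 := by
    refine Pool.Agent.H10.Q.ram_one f2 (d := algebraMap (𝓞 k') (𝓞 L') d)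
      (δ := algebraMap (𝓞 k) (𝓞 L) δ) ?_ ?_ w W ?_
    · apply RingOfIntegers.coe_injective
      rw [map_pow]
      change (algebraMap k' L' (d : k')) ^ 2 = algebraMap L L' (algebraMap k L (algebraMap (𝓞 k) k δ))
      rw [← map_pow, hdK2, ← IsScalarTower.algebraMap_apply k L L',
        ← IsScalarTower.algebraMap_apply k k' L']
    · exact hdL
    · intro h
      rcases w.isPrime.mem_or_mem h with h2 | h2
      · have h4 : w.valuation L ((2 : 𝓞 L) : L) < 1 := (w.valuation_lt_one_iff_mem 2).2 h2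
        have h5 : ((2 : 𝓞 L) : L) = 2 := map_ofNat (algebraMap (𝓞 L) L) 2
        rw [h5] at h4
        exact absurd hodd h4.ne
      · exact hδu h2
  have h1 := Pool.Agent.H10.Q.val_above w W x
  rw [hram, pow_one] at h1
  have hdn : dn L W = w := HeightOneSpectrum.ext hW.over.symm
  have h2 := he W hdn
  have hx' : algebraMap L L' x ≠ 0 := by rwa [Ne, map_eq_zero]
  rw [H38T1.eo_sc hx'] at h2
  rw [H38T1.eo_sc hx]
  unfold ord at h2 ⊢
  rw [h1]
  exact h2

end H73P2
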