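import Pool.Agent.H73.P2.Lb
import Pool.Agent.H73.P2.Lc
import Pool.Agent.H73.P2.Sb
import Pool.Agent.H73.P2.Co
import Pool.Agent.H73.P2.Nq
import Pool.Agent.H73.P2.Ua
import Pool.Agent.H73.P2.Ub
import Pool.Agent.H73.P2.Ex
import Pool.Agent.H24.PD.Lf
import Pool.Agent.H38.T1.Ea
import Pool.Agent.H10.StarGal

/-!
The quadratic step (assembly; no row).
-/

set_option autoImplicit false
set_option linter.unusedSectionVars false
open scoped Classical

open WithZero NumberField IsDedekindDomain H38RT
open H38T1 (SC sc scu rep eo la si Pri OddP tp unif)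
open H76PP

namespace H73P2

section Ext

variable {K k k' N : Type} [Field K] [NumberField K] [Field k] [NumberField k] [Field k']
  [NumberField k'] [Field N] [NumberField N] [Algebra K k] [Algebra K k'] [Algebra k k']
  [Algebra K N] [Algebra k N] [Algebra k' N] [IsScalarTower K k N] [IsScalarTower K k' N]
  [IsScalarTower k k' N] [IsGalois K N]

theorem ext_of {F : Type} [Field F] (i : K →+* F) (hι : ∃ ι : N →+* F, ∀ x : K,
    ι (algebraMap K N x) = i x) (j : k →+* F) (hj : ∀ x : K, j (algebraMap K k x) = i x) :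
    ∃ j' : k' →+* F, ∀ x : k, j' (algebraMap k k' x) = j x := by
  let _ : Algebra K F := i.toAlgebra
  obtain ⟨ι, hι⟩ := hι
  have _ : FiniteDimensional K N := Module.Finite.of_restrictScalars_finite ℚ K N
  obtain ⟨J, hJ⟩ := exists_ext (K := K) (N := N) (F := F) (k := k) ({ ι with commutes' := hι } :
    N →ₐ[K] F) ({ j with commutes' := hj } : k →ₐ[K] F)
  refine ⟨(J : N →+* F).comp (algebraMap k' N), fun x => ?_⟩
  have h1 : algebraMap k' N (algebraMap k k' x) = algebraMap k N x :=
    (IsScalarTower.algebraMap_apply k k' N x).symm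
  change J (algebraMap k' N (algebraMap k k' x)) = j x
  rw [h1]
  exact hJ x

end Ext

section Dn

variable {K k k' L L' : Type} [Field K] [NumberField K] [Field k] [NumberField k] [Field k']
  [NumberField k'] [Field L] [NumberField L] [Field L'] [NumberField L'] [Algebra K k]
  [Algebra K k'] [Algebra k k'] [Algebra k L] [Algebra L L'] [Algebra k' L'] [Algebra k L']
  [IsScalarTower K k k'] [IsScalarTower k L L'] [IsScalarTower k k' L']

theorem dn_sq (W : HeightOneSpectrum (𝓞 L')) : dn K (dn k (dn L W)) = dn K (dn k' W) := by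
  have h1 : dn k (dn L W) = dn k W := dn_dn W
  have h2 : dn k (dn k' W) = dn k W := dn_dn W
  have h3 : dn K (dn k (dn k' W)) = dn K (dn k' W) := dn_dn (dn k' W)
  rw [h1, ← h2, h3]

theorem eo_conj (σ : L' ≃ₐ[L] L') (W : HeightOneSpectrum (𝓞 L')) : ∃ W' : HeightOneSpectrum (𝓞 L'),
    dn L W' = dn L W ∧ ∀ x : L', x ≠ 0 → eo W (sc (σ x)) = eo W' (sc x) := by
  obtain ⟨W', h1, h2⟩ := Pool.Agent.H10.exists_conj σ W
  refine ⟨W', ?_, fun x hx => ?_⟩
  · apply HeightOneSpectrum.ext
    ext x
    exact h2 x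
  · rw [H38T1.eo_sc hx, H38T1.eo_sc ((map_ne_zero σ).2 hx)]
    have : ord (W.valuation L') (σ x) = ord (W'.valuation L') x := by
      unfold ord
      rw [h1]
    rw [this]

end Dn

section Down

variable {K k L k' L' N : Type} [Field K] [NumberField K] [Field k] [NumberField k] [Field L]
  [NumberField L] [Field k'] [NumberField k'] [Field L'] [NumberField L'] [Field N] [NumberField N]
  [Algebra K k] [Algebra K k'] [Algebra k k'] [Algebra k L] [Algebra L L'] [Algebra k' L']
  [Algebra k L'] [IsScalarTower K k k'] [IsScalarTower k L L'] [IsScalarTower k k' L']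
  [Algebra K N] [Algebra k N] [Algebra k' N] [IsScalarTower K k N] [IsScalarTower K k' N]
  [IsScalarTower k k' N] [IsGalois K N]

theorem rel_down {S : Finset (HeightOneSpectrum (𝓞 K))}
    (h2S : ∀ v : HeightOneSpectrum (𝓞 K), v.valuation K 2 < 1 → v ∈ S) {a b : K}
    (hsplit : ∀ v ∈ S, ∃ ι : N →+* v.adicCompletion K, ∀ x : K,
      ι (algebraMap K N x) = algebraMap K (v.adicCompletion K) x)
    (hreal : ∀ s : K →+* ℝ, 0 < s (4 * a ^ 3 + 27 * b ^ 2) ∨ ∃ s' : N →+* ℝ, ∀ x : K,
      s' (algebraMap K N x) = s x)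
    (hram : ∀ V : HeightOneSpectrum (𝓞 N), dn K V ∉ S → Ram K V → NoRootAt (dn K V) a b)
    (hNR : ∀ u : HeightOneSpectrum (𝓞 k), NoRootAt (dn K u) a b →
      NoRootAt u (algebraMap K k a) (algebraMap K k b))
    {θ : L} {θ' : L'} (Q : QS k L k' L' (algebraMap K k a) (algebraMap K k b) θ θ')
    (f2 : Module.finrank L L' = 2) {e : Fin 3 → k} (hne : ev θ e ≠ 0)
    (hsq : IsSquare (Algebra.norm k (ev θ e)))
    (hev : ∀ w' : HeightOneSpectrum (𝓞 L'), dn K (dn k' w') ∉ S →
      eo w' (sc (algebraMap L L' (ev θ e))) = 0)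
    (hloc : ∀ v ∈ S, LCv K v a b (fun i => algebraMap k k' (e i)))
    (hre : ∀ s : k' →+* ℝ, LC s (algebraMap K k' a) (algebraMap K k' b)
      (fun i => algebraMap k k' (e i))) : Rel K k L S a b θ e := by
  have hab : ∀ x : K, algebraMap K k' x = algebraMap k k' (algebraMap K k x) :=
    IsScalarTower.algebraMap_apply K k k'
  refine ⟨hne, hsq, ?_, ?_, ?_⟩
  · intro w hw
    obtain ⟨V, hV⟩ := exists_above (L := N) (dn k w)
    have hKV : dn K V = dn K (dn k w) := by
      rw [← hV]
      exact (dn_dn V).symm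
    by_cases hr : Ram K V
    · have h1 := hram V (by rw [hKV]; exact hw) hr
      rw [hKV] at h1
      exact even_unique Q.cub w (hNR _ h1) hne hsq
    · obtain ⟨h1, -⟩ := unram_mid (k := k) hr
      obtain ⟨D, ρ, hρ, hρk, hD⟩ := exists_gen (k' := k') Q.two h1
      rw [hV] at hD
      have hodd : OddP w := by
        rw [oddP_dn (K := k)]
        rw [oddP_dn (K := K)]
        unfold OddP
        by_contra hne1
        apply hw
        apply h2S
        refine lt_of_le_of_ne ?_ hne1
        have h2 := (dn K (dn k w)).valuation_le_one (K := K) (2 : 𝓞 K)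
        have h3 : algebraMap (𝓞 K) K 2 = 2 := map_ofNat (algebraMap (𝓞 K) K) 2
        rw [← h3]
        exact h2
      refine even_unram Q f2 w hodd hρ hρk hD hne fun w' hw' => hev w' ?_
      rw [← dn_sq (k := k) (L := L), hw']
      exact hw
  · intro v hv j hj
    obtain ⟨j', hj'⟩ := ext_of (k' := k') (algebraMap K (v.adicCompletion K)) (hsplit v hv) j hj
    have h1 := hloc v hv j' (fun x => by rw [hab, hj', hj])
    unfold LC at h1 ⊢
    simp only [hab, hj'] at h1
    exact h1
  · intro s
    rcases hreal (s.comp (algebraMap K k)) with h | h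
    · refine LC_real s ?_ ?_
      · rw [RingHom.comp_apply] at h
        simpa only [map_add, map_mul, map_pow, map_ofNat] using h
      · have h1 := Te_norm Q.cub e
        rw [← h1]
        obtain ⟨c, hc⟩ := hsq
        have h2 : Algebra.norm k (ev θ e) ≠ 0 := by
          rw [Ne, Algebra.norm_eq_zero_iff]
          exact hne
        rw [hc] at h2 ⊢
        rw [map_mul]
        have h3 : s c ≠ 0 := (map_ne_zero s).2 (left_ne_zero_of_mul h2)
        exact mul_self_pos.2 h3
    · obtain ⟨s', hs'⟩ := ext_of (k' := k') (s.comp (algebraMap K k)) h s (fun x => rfl)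
      have h1 := hre s'
      unfold LC at h1 ⊢
      simp only [hab, hs'] at h1
      exact h1

end Down

section Step

variable {K k k' N : Type} [Field K] [NumberField K] [Field k] [NumberField k] [Field k']
  [NumberField k'] [Field N] [NumberField N] [Algebra K k] [Algebra K k'] [Algebra k k']
  [IsScalarTower K k k'] [Algebra K N] [Algebra k N] [Algebra k' N] [IsScalarTower K k N]
  [IsScalarTower K k' N] [IsScalarTower k k' N] [IsGalois K N]

theorem lcv_mul {a b : K} (hd : 4 * a ^ 3 + 27 * b ^ 2 ≠ 0) {d₁ d₂ : Fin 3 → k'} (v : HeightOneSpectrum (𝓞 K))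
    (h₁ : LCv K v a b d₁) (h₂ : LCv K v a b d₂) :
    LCv K v a b (m3 (algebraMap K k' a) (algebraMap K k' b) d₁ d₂) := by
  intro j hj
  have hc : CharZero (v.adicCompletion K) :=
    charZero_of_injective_algebraMap (algebraMap K (v.adicCompletion K)).injective
  refine LC_mul j ?_ ?_ (h₁ j hj) (h₂ j hj)
  · rw [hj, hj]
    have h1 := (map_ne_zero (algebraMap K (v.adicCompletion K))).2 hd
    simpa only [map_add, map_mul, map_pow, map_ofNat] using h1
  · exact H24PD.inf_fin v _ _

theorem lcr_mul {a b : K} (hd : 4 * a ^ 3 + 27 * b ^ 2 ≠ 0) {d₁ d₂ : Fin 3 → k'} (s : k' →+* ℝ)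
    (h₁ : LC s (algebraMap K k' a) (algebraMap K k' b) d₁)
    (h₂ : LC s (algebraMap K k' a) (algebraMap K k' b) d₂) :
    LC s (algebraMap K k' a) (algebraMap K k' b)
      (m3 (algebraMap K k' a) (algebraMap K k' b) d₁ d₂) := by
  refine LC_mul s ?_ ?_ h₁ h₂
  · have h1 := (map_ne_zero (s.comp (algebraMap K k'))).2 hd
    simpa only [map_add, map_mul, map_pow, map_ofNat, RingHom.comp_apply] using h1
  · exact H24PD.inf_real _ _

theorem quad_step (two : Module.finrank k k' = 2) {S : Finset (HeightOneSpectrum (𝓞 K))}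
    (h2S : ∀ v : HeightOneSpectrum (𝓞 K), v.valuation K 2 < 1 → v ∈ S) {a b : K}
    (hd : 4 * a ^ 3 + 27 * b ^ 2 ≠ 0)
    (hsplit : ∀ v ∈ S, ∃ ι : N →+* v.adicCompletion K, ∀ x : K,
      ι (algebraMap K N x) = algebraMap K (v.adicCompletion K) x)
    (hreal : ∀ s : K →+* ℝ, 0 < s (4 * a ^ 3 + 27 * b ^ 2) ∨ ∃ s' : N →+* ℝ, ∀ x : K,
      s' (algebraMap K N x) = s x)
    (hram : ∀ V : HeightOneSpectrum (𝓞 N), dn K V ∉ S → Ram K V → NoRootAt (dn K V) a b)
    (hNR : ∀ u : HeightOneSpectrum (𝓞 k), NoRootAt (dn K u) a b →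
      NoRootAt u (algebraMap K k a) (algebraMap K k b))
    (hT : ∀ (L : Type) [Field L] [NumberField L] [Algebra k L] (θ : L),
      Cub k L (algebraMap K k a) (algebraMap K k b) θ → RelT K k L S a b θ)
    (L' : Type) [Field L'] [NumberField L'] [Algebra k' L'] (θ' : L')
    (h' : Cub k' L' (algebraMap K k' a) (algebraMap K k' b) θ') : RelT K k' L' S a b θ' := by
  intro d hR
  have hab : ∀ x : K, algebraMap K k' x = algebraMap k k' (algebraMap K k x) :=
    IsScalarTower.algebraMap_apply K k k'
  let _ : Algebra k L' := ((algebraMap k' L').comp (algebraMap k k')).toAlgebra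
  have _ : IsScalarTower k k' L' := IsScalarTower.of_algebraMap_eq fun _ => rfl
  have h'' : Cub k' L' (algebraMap k k' (algebraMap K k a)) (algebraMap k k' (algebraMap K k b)) θ' := by
    rw [← hab, ← hab]
    exact h'
  obtain ⟨L, _, _, _, _, _, θ, hc, hθ⟩ := exists_sub h''
  have Q : QS k L k' L' (algebraMap K k a) (algebraMap K k b) θ θ' := ⟨two, hc, h'', hθ⟩
  have f2 := Q.fin2
  obtain ⟨τ, σ, hσ, hτ⟩ := Q.sigma f2
  set x : L' := ev θ' d with hx
  have hx0 : x ≠ 0 := hR.ne
  -- the coordinates of an element of `L`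
  have hco : ∀ y : L, ev θ (fun i => hc.co i y) = y := fun y => (hc.eq_co y).symm
  have hn0 : Algebra.norm L x ≠ 0 := by
    rw [Ne, Algebra.norm_eq_zero_iff]
    exact hx0
  -- first descent
  have hsq1 : IsSquare (Algebra.norm L x) := by
    set e : Fin 3 → k := fun i => hc.co i (Algebra.norm L x) with he
    have he1 : ev θ e = Algebra.norm L x := hco _
    have he2 := hτ d e he1
    rw [← he1]
    refine hT L θ hc e (rel_down h2S hsplit hreal hram hNR Q f2 ?_ ?_ ?_ ?_ ?_)
    · rw [he1]
      exact hn0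
    · rw [he1]
      exact Q.norm_sq f2 hR.sq
    · intro w' hw'
      rw [he1, hσ, H38T1.sc_mul hx0 ((map_ne_zero σ).2 hx0), H38T1.eo_add, hR.even w' hw', zero_add]
      obtain ⟨W', h1, h2⟩ := eo_conj σ w'
      rw [h2 x hx0]
      apply hR.even
      rw [← dn_sq (K := K) (k := k) (k' := k') (L := L) W', h1,
        dn_sq (K := K) (k := k) (k' := k') (L := L) w']
      exact hw'
    · intro v hv
      rw [he2, ← hab, ← hab]
      refine lcv_mul hd v (hR.loc v hv) ?_
      intro j hj
      have h1 := hR.loc v hv (j.comp (τ : k' →+* k')) (fun y => by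
        change j (τ (algebraMap K k' y)) = _
        rw [hab, τ.commutes, ← hab, hj])
      unfold LC at h1 ⊢
      simp only [RingHom.comp_apply, RingHom.coe_coe, hab, τ.commutes] at h1 ⊢
      exact h1
    · intro s
      rw [he2, ← hab, ← hab]
      refine lcr_mul hd s (hR.real s) ?_
      have h1 := hR.real (s.comp (τ : k' →+* k'))
      unfold LC at h1 ⊢
      simp only [RingHom.comp_apply, RingHom.coe_coe, hab, τ.commutes] at h1 ⊢
      exact h1
  -- second descent
  obtain ⟨t, z, ht, hz, hxt, hNt⟩ := Q.core f2 hx0 hR.sq hsq1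
  have hsq2 : IsSquare t := by
    set e : Fin 3 → k := fun i => hc.co i t with he
    have he1 : ev θ e = t := hco _
    -- the coordinates of the inverse of `z`
    set u : Fin 3 → k' := fun i => h''.co i z⁻¹ with hu
    have hu1 : ev θ' u = z⁻¹ := (h''.eq_co z⁻¹).symm
    have he2 : (fun i => algebraMap k k' (e i)) = m3 (algebraMap k k' (algebraMap K k a))
        (algebraMap k k' (algebraMap K k b)) d (m3 (algebraMap k k' (algebraMap K k a))
        (algebraMap k k' (algebraMap K k b)) u u) := by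
      have h1 : ev θ' (fun i => algebraMap k k' (e i)) = ev θ' (m3 (algebraMap k k' (algebraMap K k a))
        (algebraMap k k' (algebraMap K k b)) d (m3 (algebraMap k k' (algebraMap K k a))
        (algebraMap k k' (algebraMap K k b)) u u)) := by
        rw [← Q.coord, he1, ← Te_ev_mul h'', ← Te_ev_mul h'', hu1, ← hx, hxt]
        field_simp
      funext i
      have h2 := h''.co_mk (fun i => algebraMap k k' (e i)) i
      have h3 := h''.co_mk (m3 (algebraMap k k' (algebraMap K k a))
        (algebraMap k k' (algebraMap K k b)) d (m3 (algebraMap k k' (algebraMap K k a))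
        (algebraMap k k' (algebraMap K k b)) u u)) i
      unfold ev at h1
      rw [← h2, ← h3, h1]
    rw [← he1]
    refine hT L θ hc e (rel_down h2S hsplit hreal hram hNR Q f2 ?_ ?_ ?_ ?_ ?_)
    · rw [he1]
      exact ht
    · rw [he1]
      exact hNt
    · intro w' hw'
      rw [he1]
      have h1 := hR.even w' hw'
      have htL : algebraMap L L' t ≠ 0 := (map_ne_zero _).2 ht
      rw [← hx, hxt, H38T1.sc_mul htL (pow_ne_zero 2 hz)] at h1
      have h2 : sc (z ^ 2) = (0 : SC L') := (H38T1.sc_eq_zero (pow_ne_zero 2 hz)).2 ⟨z, pow_two z⟩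
      rwa [h2, add_zero] at h1
    · intro v hv j hj
      have h1 := LC_sq j u (hR.loc v hv j hj)
      rw [hab, hab] at h1 ⊢
      rw [he2]
      exact h1
    · intro s
      have h1 := LC_sq s u (hR.real s)
      rw [hab, hab] at h1 ⊢
      rw [he2]
      exact h1
  rw [hxt]
  obtain ⟨c, rfl⟩ := hsq2
  exact ⟨algebraMap L L' c * z, by rw [map_mul]; ring⟩

end Step

end H73P2
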