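import Pool.Agent.H73.P2.Gd
import Pool.Agent.H36.MT.Tc

/-!
The hypothesis `OrdSub` of `H73P2` is the theorem `ord_sub_loc` (project MP_78d38b_P2, no row).
-/

set_option autoImplicit false
set_option linter.unusedSectionVars false
open scoped Classical

open WithZero NumberField IsDedekindDomain H38RT
open H76PP

namespace H73P2

theorem ordSub : OrdSub := fun h _ ha hb hd _ hx hfx => H36MT.ord_sub_loc h ha hb hd hx hfx

end H73P2
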