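import Pool.Agent.H73.P2.Df
import Pool.Agent.H7.LG.Pib

/-!
# CS1: few integers have at most one prime factor in `(w, z]`

Let `n ∈ s1 y w z`, `y ≤ R z`, `z > w ≥ R` and `z > R`. Write `n = s * m`, `s` = the `w`-smooth part, all primes of `m` are `> w`. Two primes `> z` (with multiplicity) are impossible
(`z² > R z ≥ y`), one prime `> z` and one in `(w, z]` also (`w z ≥ R z ≥ y`, strict since `P > z`). So `m = 1` or `m` is a prime power. The number of prime powers (or 1) `m ≤ u` is at most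
`4 u/log u + 2 √u log u + 1 = o(u)` (`Pool.Agent.H7.LG.pib`, or any other way), that is `≤ δ u + Cδ` for every `δ > 0` and all `u ≥ 1`. Hence
`|s1| ≤ ∑_{s ≤ y, s w-smooth} (δ y/s + Cδ) ≤ δ R z D + Cδ |sm y w|`, `D = ∑_{s w-smooth} 1/s < ∞` (Mathlib: `Nat.smoothNumbers`, `EulerProduct`, or simply
`∑_{s ∈ sm y w} 1/s ≤ ∏_{p ≤ w} (1 - 1/p)⁻¹`, an Euler product; depends only on `w`), `|sm y w| ≤ 2^w √y` (`Nat.smoothNumbersUpTo_card_le`). Choose `δ = ε/(2 R D)`, then `z` large.
-/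

set_option autoImplicit false

namespace H73P2

open Pool.Agent.H7.LG Pool.Agent.H67.GT

/-- prime powers up to `N` -/
noncomputable def Cs1_pp (N : ℕ) : Finset ℕ := by
  classical exact (Finset.Icc 1 N).filter IsPrimePow

theorem Cs1_mem_pp {N m : ℕ} : m ∈ Cs1_pp N ↔ (1 ≤ m ∧ m ≤ N) ∧ IsPrimePow m := by
  classical
  unfold Cs1_pp
  rw [Finset.mem_filter, Finset.mem_Icc]

theorem Cs1_log_le (η : ℝ) (hη : 0 < η) (N : ℕ) :
    (Nat.log 2 N : ℝ) ≤ 4 * η * (N + 1) + 1 / (4 * η) := by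
  have h1 : ∀ k : ℕ, k ^ 2 ≤ 4 * 2 ^ k := by
    intro k
    rcases Nat.lt_or_ge k 4 with h | h
    · interval_cases k <;> norm_num
    · have : k ^ 2 ≤ 2 ^ k := by
        induction k, h using Nat.le_induction with
        | base => norm_num
        | succ n hn ih =>
          rw [pow_succ 2 n]
          nlinarith
      omega
  have h2 : 2 ^ Nat.log 2 N ≤ N + 1 := by
    rcases Nat.eq_zero_or_pos N with h | h
    · rw [h]; simp
    · exact (Nat.pow_log_le_self 2 (by omega)).trans (by omega)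
  have h3 : ((Nat.log 2 N : ℕ) : ℝ) ^ 2 ≤ 4 * (N + 1) := by
    have := (h1 (Nat.log 2 N)).trans (Nat.mul_le_mul_left 4 h2)
    exact_mod_cast this
  set k : ℝ := (Nat.log 2 N : ℝ)
  have h4 : k ≤ η * k ^ 2 + 1 / (4 * η) := by
    have h5 : 0 ≤ (2 * η * k - 1) ^ 2 := sq_nonneg _
    have h6 : η * k ^ 2 + 1 / (4 * η) - k = (2 * η * k - 1) ^ 2 / (4 * η) := by
      field_simp
      ring
    have h7 : 0 ≤ (2 * η * k - 1) ^ 2 / (4 * η) := by positivity
    linarith
  have h8 : η * k ^ 2 ≤ η * (4 * (N + 1)) := mul_le_mul_of_nonneg_left h3 hη.le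
  linarith

theorem Cs1_pp_card (δ : ℝ) (hδ : 0 < δ) : ∃ C : ℝ, 0 ≤ C ∧ ∀ N : ℕ,
    ((Cs1_pp N).card : ℝ) ≤ δ * N + C := by
  classical
  set K : ℝ := Real.log 4 + 4 with hK
  have hK0 : 0 < K := by
    have : 0 ≤ Real.log 4 := Real.log_nonneg (by norm_num)
    linarith
  obtain ⟨T, hT⟩ := exists_nat_gt (Real.exp (2 * K / δ))
  have hT0 : (0 : ℝ) < T := (Real.exp_pos _).trans hT
  have hlT : 2 * K / δ ≤ Real.log T := by
    rw [Real.le_log_iff_exp_le hT0]
    exact hT.le
  have hlT0 : 0 < Real.log T := lt_of_lt_of_le (by positivity) hlT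
  set η : ℝ := δ / (8 * (T + 1)) with hη
  have hη0 : 0 < η := by positivity
  refine ⟨(T + 1) * (4 * η + 1 / (4 * η) + 1), by positivity, fun N => ?_⟩
  have hsplit := Finset.card_filter_add_card_filter_not (s := Cs1_pp N)
    (fun m : ℕ => T < m.minFac)
  have hA : (((Cs1_pp N).filter (fun m : ℕ => T < m.minFac)).card : ℝ) ≤ δ / 2 * N := by
    have h1 : (((Cs1_pp N).filter (fun m : ℕ => T < m.minFac)).card : ℝ) * Real.log T ≤
        K * N := by
      calc (((Cs1_pp N).filter (fun m : ℕ => T < m.minFac)).card : ℝ) * Real.log T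
          = ∑ m ∈ (Cs1_pp N).filter (fun m : ℕ => T < m.minFac), Real.log T := by
            rw [Finset.sum_const, nsmul_eq_mul]
        _ ≤ ∑ m ∈ (Cs1_pp N).filter (fun m : ℕ => T < m.minFac),
              ArithmeticFunction.vonMangoldt m := by
            refine Finset.sum_le_sum fun m hm => ?_
            rw [Finset.mem_filter, Cs1_mem_pp] at hm
            rw [ArithmeticFunction.vonMangoldt_apply, if_pos hm.1.2]
            exact Real.log_le_log hT0 (by exact_mod_cast hm.2.le)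
        _ ≤ ∑ m ∈ Finset.Ioc 0 ⌊(N : ℝ)⌋₊, ArithmeticFunction.vonMangoldt m := by
            refine Finset.sum_le_sum_of_subset_of_nonneg ?_ fun m _ _ =>
              ArithmeticFunction.vonMangoldt_nonneg
            intro m hm
            rw [Finset.mem_filter, Cs1_mem_pp] at hm
            rw [Nat.floor_natCast, Finset.mem_Ioc]
            omega
        _ ≤ K * N := Chebyshev.psi_le_const_mul_self (Nat.cast_nonneg N)
    have h2 : K ≤ δ / 2 * Real.log T := by
      rw [div_le_iff₀ hδ] at hlT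
      linarith
    have hN0 : (0 : ℝ) ≤ N := Nat.cast_nonneg N
    have h3 : K * N ≤ δ / 2 * Real.log T * N := mul_le_mul_of_nonneg_right h2 hN0
    have h4 : (((Cs1_pp N).filter (fun m : ℕ => T < m.minFac)).card : ℝ) * Real.log T ≤
        (δ / 2 * N) * Real.log T := by linarith
    exact le_of_mul_le_mul_right h4 hlT0
  have hB : (((Cs1_pp N).filter (fun m : ℕ => ¬ T < m.minFac)).card : ℝ) ≤
      (T + 1) * (Nat.log 2 N + 1) := by
    have h1 : (Cs1_pp N).filter (fun m : ℕ => ¬ T < m.minFac) ⊆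
        (Finset.range (T + 1) ×ˢ Finset.range (Nat.log 2 N + 1)).image
          (fun x => x.1 ^ x.2) := by
      intro m hm
      rw [Finset.mem_filter, Cs1_mem_pp] at hm
      obtain ⟨⟨hm1, hm2⟩, hm3⟩ := hm
      obtain ⟨p, k, hp, hk, rfl⟩ := hm2
      have hp' : p.Prime := Nat.prime_iff.2 hp
      rw [Finset.mem_image]
      refine ⟨(p, k), ?_, rfl⟩
      rw [Finset.mem_product, Finset.mem_range, Finset.mem_range]
      rw [hp'.pow_minFac (by omega)] at hm3
      refine ⟨by simpa using hm3, ?_⟩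
      rw [Nat.lt_succ_iff]
      refine Nat.le_log_of_pow_le (by norm_num) (le_trans ?_ hm1.2)
      exact Nat.pow_le_pow_left hp'.two_le k
    have h2 := (Finset.card_le_card h1).trans Finset.card_image_le
    rw [Finset.card_product, Finset.card_range, Finset.card_range] at h2
    exact_mod_cast h2
  have hlog := Cs1_log_le η hη0 N
  have hs' : ((Cs1_pp N).card : ℝ) =
      (((Cs1_pp N).filter (fun m : ℕ => T < m.minFac)).card : ℝ) +
      (((Cs1_pp N).filter (fun m : ℕ => ¬ T < m.minFac)).card : ℝ) := by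
    exact_mod_cast hsplit.symm
  have hT1 : (0 : ℝ) ≤ (T : ℝ) + 1 := by positivity
  have h5 : ((T : ℝ) + 1) * (Nat.log 2 N + 1) ≤
      (T + 1) * (4 * η * (N + 1) + 1 / (4 * η) + 1) :=
    mul_le_mul_of_nonneg_left (by linarith) hT1
  have h6 : ((T : ℝ) + 1) * (4 * η * N) = δ / 2 * N := by
    rw [hη]
    field_simp
    ring
  have h7 : ((T : ℝ) + 1) * (4 * η * (N + 1) + 1 / (4 * η) + 1) =
      (T + 1) * (4 * η * N) + (T + 1) * (4 * η + 1 / (4 * η) + 1) := by ring
  rw [hs']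
  linarith

theorem Cs1_sum (w : ℕ) : ∃ D : ℝ, 0 ≤ D ∧ ∀ y : ℕ, ∑ s ∈ sm y w, ((s : ℝ))⁻¹ ≤ D := by
  classical
  let f : ℕ →* ℝ :=
    { toFun := fun m => ((m : ℝ))⁻¹
      map_one' := by simp
      map_mul' := fun a b => by push_cast; rw [mul_inv] }
  have hf : ∀ m, f m = ((m : ℝ))⁻¹ := fun m => rfl
  have h1 := (EulerProduct.summable_and_hasSum_smoothNumbers_prod_primesBelow_geometric
    (f := f) (fun {p} hp => by
      rw [hf, norm_inv, Real.norm_natCast]
      exact inv_lt_one_of_one_lt₀ (by exact_mod_cast hp.one_lt)) (w + 1)).1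
  have h2 : Summable (Set.indicator ((w + 1).smoothNumbers) (fun m : ℕ => ‖f m‖)) :=
    summable_subtype_iff_indicator.1 h1
  have hnn : ∀ m, 0 ≤ Set.indicator ((w + 1).smoothNumbers) (fun m : ℕ => ‖f m‖) m :=
    fun m => Set.indicator_nonneg (fun _ _ => norm_nonneg _) m
  refine ⟨∑' m, Set.indicator ((w + 1).smoothNumbers) (fun m : ℕ => ‖f m‖) m,
    tsum_nonneg hnn, fun y => ?_⟩
  refine le_trans (le_of_eq ?_) (h2.sum_le_tsum (sm y w) (fun m _ => hnn m))
  refine Finset.sum_congr rfl fun s hs => ?_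
  rw [mem_sm] at hs
  have h3 : s ∈ (w + 1).smoothNumbers := by
    rw [Nat.mem_smoothNumbers']
    intro p hp hps
    exact Nat.lt_succ_of_le (hs.2 p hp hps)
  rw [Set.indicator_of_mem h3, hf, norm_inv, Real.norm_natCast]

theorem Cs1_sm_card (y w : ℕ) : (sm y w).card ≤ 2 ^ (w + 1).primesBelow.card * y.sqrt := by
  refine le_trans (Finset.card_le_card ?_) (Nat.smoothNumbersUpTo_card_le y (w + 1))
  intro s hs
  rw [mem_sm] at hs
  rw [Nat.mem_smoothNumbersUpTo]
  refine ⟨hs.1.2, ?_⟩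
  rw [Nat.mem_smoothNumbers']
  intro p hp hps
  exact Nat.lt_succ_of_le (hs.2 p hp hps)

theorem Cs1_subset (y w z : ℕ) (hy : y ≤ w * z) :
    s1 y w z ⊆ sm y w ∪ (sm y w).biUnion
      (fun s => (Cs1_pp (y / s)).image (fun m => m * s)) := by
  classical
  intro n hn
  rw [mem_s1] at hn
  obtain ⟨⟨h1, h2⟩, h3⟩ := hn
  have huniq : ∀ p q : ℕ, p.Prime → q.Prime → w < p → w < q → p ∣ n → q ∣ n → p = q := by
    intro p q hp hq hwp hwq hpn hqn
    by_contra hne
    have hco : Nat.Coprime p q := (Nat.coprime_primes hp hq).2 hne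
    have hpq : p * q ≤ n := Nat.le_of_dvd (by omega) (hco.mul_dvd_of_dvd_of_dvd hpn hqn)
    by_cases hpz : p ≤ z
    · by_cases hqz : q ≤ z
      · exact hne (h3 p q hp hq hwp hpz hwq hqz hpn hqn)
      · push Not at hqz
        nlinarith
    · push Not at hpz
      nlinarith
  rw [Finset.mem_union]
  by_cases hs : ∀ p : ℕ, p.Prime → p ∣ n → p ≤ w
  · left
    exact mem_sm.2 ⟨⟨h1, h2⟩, hs⟩
  · right
    push Not at hs
    obtain ⟨p, hp, hpn, hw⟩ := hs
    obtain ⟨e, s, hps, hns⟩ := Nat.exists_eq_pow_mul_and_not_dvd (n := n) (by omega) p hp.ne_one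
    have he : e ≠ 0 := by
      rintro rfl
      rw [pow_zero, one_mul] at hns
      exact hps (hns ▸ hpn)
    have hs1 : 1 ≤ s := by
      rcases Nat.eq_zero_or_pos s with h | h
      · rw [h] at hns
        omega
      · exact h
    have hpe : 1 ≤ p ^ e := Nat.pos_of_ne_zero (pow_ne_zero _ hp.ne_zero)
    rw [Finset.mem_biUnion]
    refine ⟨s, ?_, ?_⟩
    · rw [mem_sm]
      refine ⟨⟨hs1, ?_⟩, ?_⟩
      · calc s = 1 * s := (one_mul s).symm
          _ ≤ p ^ e * s := Nat.mul_le_mul_right _ hpe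
          _ = n := hns.symm
          _ ≤ y := h2
      · intro q hq hqs
        by_contra hqw
        push Not at hqw
        have hqn : q ∣ n := hns ▸ hqs.mul_left _
        have := huniq p q hp hq hw hqw hpn hqn
        exact hps (this ▸ hqs)
    · rw [Finset.mem_image]
      refine ⟨p ^ e, ?_, hns.symm⟩
      rw [Cs1_mem_pp]
      refine ⟨⟨hpe, ?_⟩, ?_⟩
      · rw [Nat.le_div_iff_mul_le (by omega), ← hns]
        exact h2
      · exact hp.isPrimePow.pow he

theorem cs1 (R ε : ℝ) (w : ℕ) (hw : 2 ≤ w) (hR : R ≤ w) (hε : 0 < ε) : ∃ z0 : ℕ, ∀ z y : ℕ, z0 ≤ z →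
    (y : ℝ) ≤ R * z → ((s1 y w z).card : ℝ) ≤ ε * z := by
  classical
  obtain ⟨D, hD0, hD⟩ := Cs1_sum w
  set R' : ℝ := max R 1 with hR'
  have hR'1 : 1 ≤ R' := le_max_right _ _
  have hR'w : R' ≤ w := max_le hR (by exact_mod_cast (by omega : 1 ≤ w))
  obtain ⟨C, hC0, hC⟩ := Cs1_pp_card (ε / (2 * (R' * (D + 1)))) (by positivity)
  set δ : ℝ := ε / (2 * (R' * (D + 1))) with hδ
  have hδ0 : 0 < δ := by positivity
  set B : ℝ := (1 + C) * 2 ^ (w + 1).primesBelow.card with hB
  have hB0 : 0 < B := by positivity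
  obtain ⟨z0, hz0⟩ := exists_nat_gt (4 * B ^ 2 * R' / ε ^ 2)
  refine ⟨z0, fun z y hz hy => ?_⟩
  have hzr : (0 : ℝ) ≤ z := Nat.cast_nonneg z
  have hy' : (y : ℝ) ≤ R' * z := hy.trans (mul_le_mul_of_nonneg_right (le_max_left _ _) hzr)
  have hyw : y ≤ w * z := by
    have : (y : ℝ) ≤ w * z := hy'.trans (mul_le_mul_of_nonneg_right hR'w hzr)
    exact_mod_cast this
  have hcard1 : ((s1 y w z).card : ℝ) ≤ (sm y w).card +
      ∑ s ∈ sm y w, ((Cs1_pp (y / s)).card : ℝ) := by
    have h1 : (s1 y w z).card ≤ (sm y w).card + ∑ s ∈ sm y w, (Cs1_pp (y / s)).card := by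
      refine (Finset.card_le_card (Cs1_subset y w z hyw)).trans ?_
      refine (Finset.card_union_le _ _).trans ?_
      refine Nat.add_le_add_left ?_ _
      refine Finset.card_biUnion_le.trans ?_
      exact Finset.sum_le_sum fun s _ => Finset.card_image_le
    exact_mod_cast h1
  have hcard2 : ∑ s ∈ sm y w, ((Cs1_pp (y / s)).card : ℝ) ≤
      δ * y * D + C * (sm y w).card := by
    calc ∑ s ∈ sm y w, ((Cs1_pp (y / s)).card : ℝ)
        ≤ ∑ s ∈ sm y w, (δ * y * ((s : ℝ))⁻¹ + C) := by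
          refine Finset.sum_le_sum fun s _ => ?_
          refine (hC (y / s)).trans ?_
          have h4 : ((y / s : ℕ) : ℝ) ≤ (y : ℝ) / s := Nat.cast_div_le
          have h5 := mul_le_mul_of_nonneg_left h4 hδ0.le
          rw [div_eq_mul_inv] at h5
          linarith
      _ = δ * y * ∑ s ∈ sm y w, ((s : ℝ))⁻¹ + C * (sm y w).card := by
          rw [Finset.sum_add_distrib, Finset.sum_const, nsmul_eq_mul, Finset.mul_sum]
          ring
      _ ≤ δ * y * D + C * (sm y w).card := by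
          have := mul_le_mul_of_nonneg_left (hD y)
            (by positivity : (0 : ℝ) ≤ δ * y)
          linarith
  have hsm : ((sm y w).card : ℝ) ≤ 2 ^ (w + 1).primesBelow.card * (y.sqrt : ℝ) := by
    exact_mod_cast Cs1_sm_card y w
  set q : ℝ := (y.sqrt : ℝ) with hq
  have hq2 : q ^ 2 ≤ y := by
    have := Nat.sqrt_le' y
    rw [hq]
    exact_mod_cast this
  have h1 : ((1 : ℝ) + C) * (sm y w).card ≤ B * q := by
    have := mul_le_mul_of_nonneg_left hsm (by positivity : (0 : ℝ) ≤ 1 + C)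
    rw [hB]
    linarith
  have h2 : B * q ≤ ε / (4 * R') * q ^ 2 + B ^ 2 * R' / ε := by
    have h3 : 0 ≤ (ε / (2 * R') * q - B) ^ 2 := sq_nonneg _
    have h4 : ε / (4 * R') * q ^ 2 + B ^ 2 * R' / ε - B * q =
        (ε / (2 * R') * q - B) ^ 2 * (R' / ε) := by
      field_simp
      ring
    have h5 : 0 ≤ (ε / (2 * R') * q - B) ^ 2 * (R' / ε) := by positivity
    linarith
  have h3 : ε / (4 * R') * q ^ 2 ≤ ε / 4 * z := by
    have h4 := mul_le_mul_of_nonneg_left (hq2.trans hy')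
      (by positivity : (0 : ℝ) ≤ ε / (4 * R'))
    have h5 : ε / (4 * R') * (R' * z) = ε / 4 * z := by
      field_simp
    linarith
  have h4 : B ^ 2 * R' / ε ≤ ε / 4 * z := by
    have h5 : 4 * B ^ 2 * R' / ε ^ 2 ≤ z := hz0.le.trans (by exact_mod_cast hz)
    have h6 := mul_le_mul_of_nonneg_left h5 (by positivity : (0 : ℝ) ≤ ε / 4)
    have h7 : ε / 4 * (4 * B ^ 2 * R' / ε ^ 2) = B ^ 2 * R' / ε := by
      field_simp
    linarith
  have h5 : δ * y * D ≤ ε / 2 * z := by
    have h6 : δ * y * D ≤ δ * (R' * z) * (D + 1) := by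
      have h7 := mul_le_mul_of_nonneg_left hy' hδ0.le
      have h8 : (0 : ℝ) ≤ δ * (R' * z) := by positivity
      calc δ * y * D ≤ δ * (R' * z) * D := mul_le_mul_of_nonneg_right h7 hD0
        _ ≤ δ * (R' * z) * (D + 1) := mul_le_mul_of_nonneg_left (by linarith) h8
    have h7 : δ * (R' * z) * (D + 1) = ε / 2 * z := by
      rw [hδ]
      field_simp
    linarith
  linarith

end H73P2
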