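import Pool.Agent.H73.P2.Df

/-!
ROW La (project MP_78d38b_P2, about 110 lines, elementary algebra in coordinates): adding two points and doubling a point, in
terms of the classes `x - θ`.

`m3 a b u v` is the product in `R = F[T] / (T^3 + a T + b)` in the basis `1, θ, θ^2`. Useful: `m3` is commutative and
associative and bilinear (ring identities in the three coordinates: `funext i; fin_cases i; simp [m3]; ring`);
`Te_C`, `Te_nf`, `Te_m3_adj : m3 a b z (Te_C a b z) = ![Te_nf a b z, 0, 0]`, `Te_nf_mul` (file `H76/PP/Te.lean`).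
PROOF of La_add. Put `x₃ = l^2 - x₁ - x₂`, `μ = y₁ - l x₁` and `p = ![μ, l, 0]` (the element `l θ + μ`). Then `y₁ = l x₁ + μ`, `y₂ = l x₂ + μ` (definition of
`l`) and the cubic `x^3 + a x + b - (l x + μ)^2 = (x - x₁)(x - x₂)(x - x₃)` (two roots are known and the coefficient of `x^2`; e.g.
compare: subtracting the two equations of the curve and dividing by `x₁ - x₂` gives the coefficient relations
`a = 2 l μ + x₁ x₂ + x₁ x₃ + x₂ x₃` and `b = μ^2 - x₁ x₂ x₃`). Hence in `R`: `(x₁ - θ)(x₂ - θ)(x₃ - θ) = p^2` (three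
polynomial identities after substituting `a` and `b`). Norms: `Te_nf p ^ 2 = f(x₁) f(x₂) f(x₃) = (y₁ y₂ y₃)^2 ≠ 0` where
`Te_nf a b ![x, -1, 0] = x^3 + a x + b` and `y₃ = l (x₃ - x₁) + y₁ ≠ 0`, `y₃^2 = f(x₃)` (La_curve). So `p` is invertible:
`p' = (Te_nf p)⁻¹ Te_C p`. Take `z = z₁ z₂ (x₃ - θ) p'`: `z^2 p^2 = d₁ (x₁ - θ) d₂ (x₂ - θ) (x₃ - θ)^2 = d₁ d₂ (x₃ - θ) p^2`; multiply by `p'^2`.
La_curve: the same factorisation at `x = x₃`.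
La_dbl: `X - θ = ((x^2 - 2 x θ - 2 θ^2 - a) / (2 y))^2` with `X = l^2 - 2 x`: `z = ![(x^2 - a) / (2 y), -x / y, -1 / y]`; three identities after
multiplying by `4 y^2 = 4 (x^3 + a x + b)`.
-/

set_option autoImplicit false
set_option linter.unusedSectionVars false
open scoped Classical

open WithZero NumberField IsDedekindDomain H38RT
open H38T1 (SC sc scu rep eo la si Pri OddP tp unif)
open H76PP

namespace H73P2

variable {F : Type} [Field F]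

private lemma La_par {a b x₁ y₁ x₂ y₂ l : F} (e₁ : y₁ ^ 2 = x₁ ^ 3 + a * x₁ + b)
    (e₂ : y₂ ^ 2 = x₂ ^ 3 + a * x₂ + b) (hx : x₁ ≠ x₂) (hl : l = (y₁ - y₂) / (x₁ - x₂)) :
    ∃ μ : F, y₁ = l * x₁ + μ ∧ y₂ = l * x₂ + μ ∧
      a = 2 * l * μ + l ^ 2 * (x₁ + x₂) - (x₁ ^ 2 + x₁ * x₂ + x₂ ^ 2) ∧
      b = (l * x₁ + μ) ^ 2 - x₁ ^ 3 -
        (2 * l * μ + l ^ 2 * (x₁ + x₂) - (x₁ ^ 2 + x₁ * x₂ + x₂ ^ 2)) * x₁ := by
  have h0 : x₁ - x₂ ≠ 0 := sub_ne_zero.2 hx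
  have h1 : l * (x₁ - x₂) = y₁ - y₂ := by
    rw [hl, div_mul_cancel₀ _ h0]
  have h2 : y₁ = l * x₁ + (y₁ - l * x₁) := by ring
  have h3 : y₂ = l * x₂ + (y₁ - l * x₁) := by linear_combination h1
  have h4 : a = 2 * l * (y₁ - l * x₁) + l ^ 2 * (x₁ + x₂) - (x₁ ^ 2 + x₁ * x₂ + x₂ ^ 2) := by
    apply mul_left_cancel₀ h0
    obtain ⟨μ, hμ⟩ : ∃ μ : F, μ = y₁ - l * x₁ := ⟨_, rfl⟩
    rw [← hμ] at h2 h3 ⊢
    rw [h2] at e₁
    rw [h3] at e₂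
    linear_combination e₂ - e₁
  refine ⟨y₁ - l * x₁, h2, h3, h4, ?_⟩
  rw [← h4]
  linear_combination -e₁

theorem La_curve {a b x₁ y₁ x₂ y₂ l : F} (e₁ : y₁ ^ 2 = x₁ ^ 3 + a * x₁ + b)
    (e₂ : y₂ ^ 2 = x₂ ^ 3 + a * x₂ + b) (hx : x₁ ≠ x₂) (hl : l = (y₁ - y₂) / (x₁ - x₂)) :
    (l * (l ^ 2 - x₁ - x₂ - x₁) + y₁) ^ 2 =
      (l ^ 2 - x₁ - x₂) ^ 3 + a * (l ^ 2 - x₁ - x₂) + b := by
  obtain ⟨μ, h1, h2, h3, h4⟩ := La_par e₁ e₂ hx hl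
  rw [h4, h3, h1]
  ring

private lemma La_comm (a b : F) (u v : Fin 3 → F) : m3 a b u v = m3 a b v u := by
  funext j
  fin_cases j <;> simp [m3] <;> ring

private lemma La_assoc (a b : F) (u v w : Fin 3 → F) :
    m3 a b (m3 a b u v) w = m3 a b u (m3 a b v w) := by
  funext j
  fin_cases j <;> simp [m3] <;> ring

private lemma La_one (a b : F) (u : Fin 3 → F) : m3 a b u ![1, 0, 0] = u := by
  funext j
  fin_cases j <;> simp [m3]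

private lemma La_smul (a b c : F) (u v : Fin 3 → F) :
    m3 a b u (fun j => c * v j) = fun j => c * m3 a b u v j := by
  funext j
  fin_cases j <;> simp [m3] <;> ring

private lemma La_key {l μ x₁ x₂ a b : F}
    (ha : a = 2 * l * μ + l ^ 2 * (x₁ + x₂) - (x₁ ^ 2 + x₁ * x₂ + x₂ ^ 2))
    (hb : b = (l * x₁ + μ) ^ 2 - x₁ ^ 3 -
        (2 * l * μ + l ^ 2 * (x₁ + x₂) - (x₁ ^ 2 + x₁ * x₂ + x₂ ^ 2)) * x₁) :
    m3 a b (m3 a b ![x₁, -1, 0] ![x₂, -1, 0]) ![l ^ 2 - x₁ - x₂, -1, 0] =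
      m3 a b ![μ, l, 0] ![μ, l, 0] := by
  funext j
  fin_cases j
  · simp [m3]
    rw [hb]
    ring
  · simp [m3]
    rw [ha]
    ring
  · simp [m3]
    ring

private lemma La_nf (a b x : F) : Te_nf a b ![x, -1, 0] = x ^ 3 + a * x + b := by
  simp [Te_nf]
  ring

theorem La_add {a b : F} {d₁ d₂ z₁ z₂ : Fin 3 → F} {x₁ y₁ x₂ y₂ l : F} (hy₁ : y₁ ≠ 0) (hy₂ : y₂ ≠ 0)
    (e₁ : y₁ ^ 2 = x₁ ^ 3 + a * x₁ + b) (e₂ : y₂ ^ 2 = x₂ ^ 3 + a * x₂ + b) (hx : x₁ ≠ x₂)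
    (hl : l = (y₁ - y₂) / (x₁ - x₂)) (h₁ : m3 a b d₁ ![x₁, -1, 0] = m3 a b z₁ z₁)
    (h₂ : m3 a b d₂ ![x₂, -1, 0] = m3 a b z₂ z₂)
    (hy₃ : l * (l ^ 2 - x₁ - x₂ - x₁) + y₁ ≠ 0) :
    ∃ z : Fin 3 → F, m3 a b (m3 a b d₁ d₂) ![l ^ 2 - x₁ - x₂, -1, 0] = m3 a b z z := by
  have e₃ := La_curve e₁ e₂ hx hl
  obtain ⟨μ, -, -, h3, h4⟩ := La_par e₁ e₂ hx hl
  have key := La_key h3 h4
  have hn : Te_nf a b ![μ, l, 0] ≠ 0 := by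
    intro h0
    have h5 := congrArg (Te_nf a b) key
    rw [Te_nf_mul, Te_nf_mul, Te_nf_mul, La_nf, La_nf, La_nf, h0, mul_zero, ← e₁, ← e₂, ← e₃] at h5
    exact mul_ne_zero (mul_ne_zero (pow_ne_zero 2 hy₁) (pow_ne_zero 2 hy₂)) (pow_ne_zero 2 hy₃) h5
  obtain ⟨X₁, hX₁⟩ : ∃ X : Fin 3 → F, X = ![x₁, -1, 0] := ⟨_, rfl⟩
  obtain ⟨X₂, hX₂⟩ : ∃ X : Fin 3 → F, X = ![x₂, -1, 0] := ⟨_, rfl⟩
  obtain ⟨X₃, hX₃⟩ : ∃ X : Fin 3 → F, X = ![l ^ 2 - x₁ - x₂, -1, 0] := ⟨_, rfl⟩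
  obtain ⟨p, hp⟩ : ∃ X : Fin 3 → F, X = ![μ, l, 0] := ⟨_, rfl⟩
  rw [← hX₁] at h₁ key
  rw [← hX₂] at h₂ key
  rw [← hX₃] at key ⊢
  rw [← hp] at key hn
  obtain ⟨p', hp'⟩ : ∃ X : Fin 3 → F, X = fun j => (Te_nf a b p)⁻¹ * Te_C a b p j := ⟨_, rfl⟩
  have hpp : m3 a b p p' = ![1, 0, 0] := by
    rw [hp', La_smul, Te_m3_adj]
    funext j
    fin_cases j
    · simp [hn]
    · simp
    · simp
  have : Std.Associative (m3 a b) := ⟨La_assoc a b⟩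
  have : Std.Commutative (m3 a b) := ⟨La_comm a b⟩
  refine ⟨m3 a b (m3 a b z₁ z₂) (m3 a b X₃ p'), ?_⟩
  calc m3 a b (m3 a b d₁ d₂) X₃
      = m3 a b (m3 a b (m3 a b d₁ d₂) X₃) (m3 a b (m3 a b p p') (m3 a b p p')) := by
        rw [hpp, La_one, La_one]
    _ = m3 a b (m3 a b (m3 a b d₁ d₂) X₃) (m3 a b (m3 a b p p) (m3 a b p' p')) := by
        ac_rfl
    _ = m3 a b (m3 a b (m3 a b d₁ d₂) X₃) (m3 a b (m3 a b (m3 a b X₁ X₂) X₃) (m3 a b p' p')) := by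
        rw [key]
    _ = m3 a b (m3 a b (m3 a b d₁ X₁) (m3 a b d₂ X₂)) (m3 a b (m3 a b X₃ X₃) (m3 a b p' p')) := by
        ac_rfl
    _ = m3 a b (m3 a b (m3 a b z₁ z₁) (m3 a b z₂ z₂)) (m3 a b (m3 a b X₃ X₃) (m3 a b p' p')) := by
        rw [h₁, h₂]
    _ = _ := by ac_rfl

theorem La_dbl {a b x y l : F} (h2 : (2 : F) ≠ 0) (hy : y ≠ 0) (e : y ^ 2 = x ^ 3 + a * x + b)
    (hl : l = (3 * x ^ 2 + a) / (2 * y)) :
    ∃ z : Fin 3 → F, m3 a b ![1, 0, 0] ![l ^ 2 - 2 * x, -1, 0] = m3 a b z z := by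
  have hb : b = y ^ 2 - x ^ 3 - a * x := by linear_combination -e
  subst hb
  subst hl
  refine ⟨![(x ^ 2 - a) / (2 * y), -x / y, -1 / y], ?_⟩
  rw [La_comm, La_one]
  funext j
  fin_cases j
  · simp [m3]
    field_simp
    ring
  · simp [m3]
    field_simp
    ring
  · simp [m3]
    field_simp
    ring

end H73P2
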