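import Pool.Agent.H73.P2.Df
import Pool.Agent.H36.MT.Ax

/-!
ROW Wa (project MP_78d38b_P2, about 120 lines): auxiliary primes inside a given infinite set of primes, with a modulus.

PROOF. MODIFICATION of `aux_set` in `Pool/Agent/H36/MT/Ax.lean` (row MTAx; if it is not proved yet see its header and the proved files
`Pool/Agent/H36/PP/Ax.lean` and `Pool/Agent/H36/PP/Axp.lean`; Axp is the version inside a given infinite set `Z₀` of Ax). Only the STATEMENT
`quot_cong` and the statements of `Pool/Agent/H36/PP/Pr.lean` (`quot_val`) and Pk (`nv_finite`) are used.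
For every ideal class `c` choose an integral ideal `I c` in the inverse class, `N = ∏ c, absNorm (I c)`, so `(N : 𝓞 K) ∈ I c`; for a prime `v` a generator `g v` of
`v.asIdeal * I (class of v)`. The set `{v ∈ Z₀ | 6 ∉ v ∧ ¬ m ≤ v}` is infinite (only finitely many primes contain `6` or `m ≠ ⊥`). Pigeonhole
(`Finite.exists_infinite_fiber`): an infinite subset `Z` on which the class, the residue of `g v` modulo `m * span {N}` and the set of the positive real
embeddings of `g v` are constant. For `p ≠ q` in `Z`: `D = g p / g q`; `g p - g q ∈ m * span {N} ≤ m * I c`, so `quot_val` and `quot_cong` give everything; the signs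
agree, so `D > 0`.
-/

set_option autoImplicit false
set_option linter.unusedSectionVars false
open scoped Classical

open WithZero NumberField IsDedekindDomain H38RT
open H38T1 (SC sc scu rep eo la si Pri OddP tp unif)
open H76PP

namespace H73P2

theorem aux_in {K : Type} [Field K] [NumberField K] {Z₀ : Set (HeightOneSpectrum (𝓞 K))}
    (hZ : Z₀.Infinite) {m : Ideal (𝓞 K)} (hm : m ≠ ⊥) :
    ∃ Z : Set (HeightOneSpectrum (𝓞 K)), Z ⊆ Z₀ ∧ Z.Infinite ∧
      (∀ v ∈ Z, ¬ m ≤ v.asIdeal ∧ (6 : 𝓞 K) ∉ v.asIdeal) ∧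
      ∀ q ∈ Z, ∀ p ∈ Z, p ≠ q → ∃ D : K, H36MT.AuxR m q p D := by
  have hI : ∀ c : ClassGroup (𝓞 K), ∃ I : (nonZeroDivisors (Ideal (𝓞 K))),
      ClassGroup.mk0 I = c⁻¹ := fun c => ClassGroup.mk0_surjective c⁻¹
  choose I hI using hI
  have hI0 : ∀ c, (I c : Ideal (𝓞 K)) ≠ ⊥ := fun c => by
    have := nonZeroDivisors.ne_zero (I c).2
    simpa using this
  obtain ⟨N, hN0, hNI⟩ : ∃ N : ℕ, N ≠ 0 ∧ ∀ c, (N : 𝓞 K) ∈ (I c : Ideal (𝓞 K)) := by
    refine ⟨∏ c, Ideal.absNorm (I c : Ideal (𝓞 K)), ?_, ?_⟩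
    · refine Finset.prod_ne_zero_iff.2 fun c _ => ?_
      rw [Ne, Ideal.absNorm_eq_zero_iff]
      exact hI0 c
    · intro c
      obtain ⟨k, hk⟩ : Ideal.absNorm (I c : Ideal (𝓞 K)) ∣
          ∏ c, Ideal.absNorm (I c : Ideal (𝓞 K)) := Finset.dvd_prod_of_mem _ (Finset.mem_univ c)
      rw [hk]
      push_cast
      exact Ideal.mul_mem_right _ _ (Ideal.absNorm_mem _)
  let cl : HeightOneSpectrum (𝓞 K) → ClassGroup (𝓞 K) := fun v =>
    ClassGroup.mk0 ⟨v.asIdeal, mem_nonZeroDivisors_iff_ne_zero.2 v.ne_bot⟩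
  have hg : ∀ v : HeightOneSpectrum (𝓞 K), ∃ g : 𝓞 K,
      v.asIdeal * (I (cl v) : Ideal (𝓞 K)) = Ideal.span {g} := by
    intro v
    have h1 : ClassGroup.mk0 (⟨v.asIdeal, mem_nonZeroDivisors_iff_ne_zero.2 v.ne_bot⟩ *
        I (cl v)) = 1 := by
      rw [map_mul, hI]
      exact mul_inv_cancel _
    rw [ClassGroup.mk0_eq_one_iff] at h1
    obtain ⟨g, hg⟩ := h1.principal
    exact ⟨g, hg⟩
  choose g hg using hg
  have : Finite (K →+* ℝ) := by
    refine Finite.of_injective (fun s : K →+* ℝ => (Complex.ofRealHom.comp s : K →+* ℂ)) ?_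
    intro s t hst
    ext x
    have := congrArg (fun f : K →+* ℂ => f x) hst
    simpa using this
  have hNK : (N : 𝓞 K) ≠ 0 := by exact_mod_cast hN0
  have hmN : m * Ideal.span {(N : 𝓞 K)} ≠ ⊥ := by
    rw [Ne, Ideal.mul_eq_bot, not_or]
    exact ⟨hm, by simpa using hNK⟩
  have : Finite (𝓞 K ⧸ (m * Ideal.span {(N : 𝓞 K)})) :=
    Ideal.finiteQuotientOfFreeOfNeBot _ hmN
  have hfin : {v : HeightOneSpectrum (𝓞 K) | m ≤ v.asIdeal}.Finite := by
    refine (Ideal.finite_factors hm).subset ?_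
    intro v hv
    exact Ideal.dvd_iff_le.2 hv
  have h6 : (Ideal.span {(6 : 𝓞 K)}) ≠ ⊥ := by
    rw [Ne, Ideal.span_singleton_eq_bot]
    norm_num
  have hfin6 : {v : HeightOneSpectrum (𝓞 K) | (6 : 𝓞 K) ∈ v.asIdeal}.Finite := by
    refine (Ideal.finite_factors h6).subset ?_
    intro v hv
    exact Ideal.dvd_iff_le.2 ((Ideal.span_singleton_le_iff_mem _).2 hv)
  have hinf0 : {v : HeightOneSpectrum (𝓞 K) |
      v ∈ Z₀ ∧ ¬ m ≤ v.asIdeal ∧ (6 : 𝓞 K) ∉ v.asIdeal}.Infinite := by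
    refine (hZ.sdiff (hfin.union hfin6)).mono ?_
    rintro v ⟨h1, h2⟩
    exact ⟨h1, fun h => h2 (Or.inl h), fun h => h2 (Or.inr h)⟩
  have : Infinite {v : HeightOneSpectrum (𝓞 K) |
      v ∈ Z₀ ∧ ¬ m ≤ v.asIdeal ∧ (6 : 𝓞 K) ∉ v.asIdeal} := hinf0.to_subtype
  let f : {v : HeightOneSpectrum (𝓞 K) |
      v ∈ Z₀ ∧ ¬ m ≤ v.asIdeal ∧ (6 : 𝓞 K) ∉ v.asIdeal} →
      ClassGroup (𝓞 K) × (𝓞 K ⧸ (m * Ideal.span {(N : 𝓞 K)})) × Set (K →+* ℝ) := fun v =>
    (cl v.1, Ideal.Quotient.mk _ (g v.1), {s | 0 < s (g v.1 : K)})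
  obtain ⟨y, hy⟩ := Finite.exists_infinite_fiber f
  have := hy
  refine ⟨Set.range (fun p : f ⁻¹' {y} => p.1.1), ?_, ?_, ?_, ?_⟩
  · rintro _ ⟨p, rfl⟩
    exact p.1.2.1
  · refine Set.infinite_range_of_injective ?_
    intro a b hab
    exact Subtype.ext (Subtype.ext hab)
  · rintro _ ⟨p, rfl⟩
    exact p.1.2.2
  · rintro _ ⟨q, rfl⟩ _ ⟨p, rfl⟩ hpq
    have hpq' : p.1.1 ≠ q.1.1 := hpq
    have hfe : f p.1 = f q.1 := by
      have h1 : f p.1 = y := p.2
      have h2 : f q.1 = y := q.2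
      rw [h1, h2]
    have e1 : cl p.1.1 = cl q.1.1 := congrArg Prod.fst hfe
    have e2 : Ideal.Quotient.mk (m * Ideal.span {(N : 𝓞 K)}) (g p.1.1) =
        Ideal.Quotient.mk _ (g q.1.1) := congrArg (fun z => z.2.1) hfe
    have e3 : {s : K →+* ℝ | 0 < s (g p.1.1 : K)} = {s | 0 < s (g q.1.1 : K)} :=
      congrArg (fun z => z.2.2) hfe
    have ha := hg p.1.1
    have hb := hg q.1.1
    rw [e1] at ha
    obtain ⟨ha0, hb0, hv1, hv2, hv3⟩ := H36PP.quot_val hpq' (hI0 _) ha hb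
    have ha0' : (g p.1.1 : K) ≠ 0 := by
      intro h
      exact ha0 (by exact_mod_cast h)
    have hb0' : (g q.1.1 : K) ≠ 0 := by
      intro h
      exact hb0 (by exact_mod_cast h)
    refine ⟨(g p.1.1 : K) / (g q.1.1 : K), div_ne_zero ha0' hb0', hv1, hv2, hv3, ?_, ?_⟩
    · intro v k hk hv
      refine H36MT.quot_cong q.1.2.2.1 (hI0 _) hb ?_ hk hv
      have h1 := Ideal.Quotient.eq.1 e2
      have hle : m * Ideal.span {(N : 𝓞 K)} ≤ m * (I (cl q.1.1) : Ideal (𝓞 K)) := by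
        refine Ideal.mul_mono_right ?_
        rw [Ideal.span_le, Set.singleton_subset_iff]
        exact hNI _
      exact hle h1
    · intro s
      rw [map_div₀]
      have hsa : s (g p.1.1 : K) ≠ 0 := by
        rw [Ne, map_eq_zero]
        exact ha0'
      have hsb : s (g q.1.1 : K) ≠ 0 := by
        rw [Ne, map_eq_zero]
        exact hb0'
      have hiff : 0 < s (g p.1.1 : K) ↔ 0 < s (g q.1.1 : K) := by
        have := Set.ext_iff.1 e3 s
        simpa using this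
      rcases lt_or_gt_of_ne hsa with h | h
      · have hb' : s (g q.1.1 : K) < 0 := by
          rcases lt_or_gt_of_ne hsb with h' | h'
          · exact h'
          · exact absurd (hiff.2 h') (not_lt.2 h.le)
        exact div_pos_of_neg_of_neg h hb'
      · exact div_pos h (hiff.1 h)

end H73P2
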